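import Pool.Agent.Work.MP_3617d5_nr.Interface3

/-! # Block TRA: factoring out the `p`-torsion -/

set_option autoImplicit false

open Nat

universe u

namespace Pool.NR

/-- The `p`-torsion elements of `I`. -/
def TRA_A {S : Type u} [Ring S] (p : ℕ) (I : AddSubgroup S) : AddSubgroup S where
  carrier := {b | b ∈ I ∧ ∃ k : ℕ, p ^ k • b = 0}
  zero_mem' := ⟨I.zero_mem, 0, smul_zero _⟩
  add_mem' := by
    rintro a b ⟨ha, k, hk⟩ ⟨hb, l, hl⟩
    refine ⟨I.add_mem ha hb, k + l, ?_⟩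
    have e1 : p ^ (k + l) • a = 0 := by
      rw [add_comm, pow_add, mul_smul, hk, smul_zero]
    have e2 : p ^ (k + l) • b = 0 := by
      rw [pow_add, mul_smul, hl, smul_zero]
    rw [smul_add, e1, e2, add_zero]
  neg_mem' := by
    rintro a ⟨ha, k, hk⟩
    refine ⟨I.neg_mem ha, k, ?_⟩
    rw [smul_neg, hk, neg_zero]

theorem TRA_mem {S : Type u} [Ring S] {p : ℕ} {I : AddSubgroup S} {b : S} :
    b ∈ TRA_A p I ↔ b ∈ I ∧ ∃ k : ℕ, p ^ k • b = 0 := Iff.rfl

theorem TRA_idl {S : Type u} [Ring S] (p : ℕ) (I : AddSubgroup S) (hI : IdI I) :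
    IdI (TRA_A p I) := by
  constructor
  · rintro a b ⟨hb, k, hk⟩
    refine ⟨hI.left a b hb, k, ?_⟩
    rw [← mul_smul_comm, hk, mul_zero]
  · rintro a b ⟨hb, k, hk⟩
    refine ⟨hI.right a b hb, k, ?_⟩
    rw [← smul_mul_assoc, hk, zero_mul]

theorem TRA_iter {S S' : Type u} [Ring S] [Ring S'] (π : S →+* S') (x : Sˣ) (n : ℕ) (y : Sˣ) :
    Units.map (π : S →* S') ((fun z : Sˣ => z⁻¹ * x⁻¹ * z * x)^[n] y) =
      (fun z : S'ˣ => z⁻¹ * (Units.map (π : S →* S') x)⁻¹ * z * Units.map (π : S →* S') x)^[n]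
        (Units.map (π : S →* S') y) := by
  induction n generalizing y with
  | zero => rfl
  | succ n ih =>
    rw [Function.iterate_succ_apply, Function.iterate_succ_apply, ih]
    congr 1
    simp only [map_mul, map_inv]

theorem TRA_eng {S S' : Type u} [Ring S] [Ring S'] (m : ℕ) (I : AddSubgroup S)
    (hU : ∀ b ∈ I, IsUnit (1 + b)) (hE : EngI m I) (π : S →+* S') :
    EngI m (I.map π.toAddMonoidHom) := by
  have key : ∀ x' : S'ˣ, (x' : S') - 1 ∈ I.map π.toAddMonoidHom →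
      ∃ x : Sˣ, (x : S) - 1 ∈ I ∧ Units.map (π : S →* S') x = x' := by
    intro x' hx'
    obtain ⟨b, hb, hbx⟩ := hx'
    obtain ⟨u, hu⟩ := hU b hb
    refine ⟨u, ?_, ?_⟩
    · rw [hu, add_sub_cancel_left]
      exact hb
    · apply Units.ext
      show π (u : S) = x'
      have h1 : π b = (x' : S') - 1 := hbx
      rw [hu, map_add, map_one, h1]
      abel
  intro x' y' hx' hy'
  obtain ⟨x, hx, rfl⟩ := key x' hx'
  obtain ⟨y, hy, rfl⟩ := key y' hy'
  rw [← TRA_iter, hE x y hx hy, map_one]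

/-- BLOCK TRA. -/
theorem p_TRA (h1 : Stmt_QUO.{u}) (h2 : Stmt_CEN.{u}) : Stmt_TRA.{u} := by
  intro S _ m p e I hI hU hE x hx hxq s hs
  obtain ⟨S', _, π, hπ, hker⟩ := h1 S (TRA_A p I) (TRA_idl p I hI)
  have hI' : IdI (I.map π.toAddMonoidHom) := by
    constructor
    · rintro a' b' ⟨b, hb, rfl⟩
      obtain ⟨a, rfl⟩ := hπ a'
      exact ⟨a * b, hI.left a b hb, map_mul π a b⟩
    · rintro a' b' ⟨b, hb, rfl⟩
      obtain ⟨a, rfl⟩ := hπ a'
      exact ⟨b * a, hI.right a b hb, map_mul π b a⟩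
  have hU' : ∀ b' ∈ I.map π.toAddMonoidHom, IsUnit (1 + b') := by
    rintro b' ⟨b, hb, rfl⟩
    have h := (hU b hb).map π
    rw [map_add, map_one] at h
    exact h
  have hT' : ∀ b' ∈ I.map π.toAddMonoidHom, p • b' = 0 → b' = 0 := by
    rintro b' ⟨b, hb, rfl⟩ hpb
    have h3 : π (p • b) = 0 := by
      rw [map_nsmul]
      exact hpb
    obtain ⟨_, k, hk⟩ := (hker _).1 h3
    refine (hker b).2 ⟨hb, k + 1, ?_⟩
    rw [pow_succ, mul_smul, hk]
  have hx' : ((Units.map (π : S →* S') x : S'ˣ) : S') - 1 ∈ I.map π.toAddMonoidHom := by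
    refine ⟨(x : S) - 1, hx, ?_⟩
    show π ((x : S) - 1) = π (x : S) - 1
    rw [map_sub, map_one]
  have hxq' : (Units.map (π : S →* S') x) ^ p ^ e = 1 := by
    rw [← map_pow, hxq, map_one]
  have h4 := h2 S' m p e (I.map π.toAddMonoidHom) hI' hU' (TRA_eng m I hU hE π) hT'
    (Units.map (π : S →* S') x) hx' hxq' (π s) ⟨s, hs, rfl⟩
  have h5 : π (s * (x : S) - (x : S) * s) = 0 := by
    rw [map_sub, map_mul, map_mul, sub_eq_zero]
    exact h4
  exact ((hker _).1 h5).2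

end Pool.NR
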