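import Pool.Agent.Work.MP_3617d5_nr.Interface

/-!
# Block GEN: the congruence subgroup of a nilpotent ideal
-/

set_option autoImplicit false

open Nat

universe u

namespace Pool.NR

/-- the powers of `T` -/
def GEN_P {S : Type u} [Ring S] (T : AddSubgroup S) : ℕ → AddSubgroup S
  | 0 => T
  | k + 1 => AddSubgroup.closure {z | ∃ x ∈ GEN_P T k, ∃ t ∈ T, z = x * t}

theorem GEN_gen {S : Type u} [Ring S] (T : AddSubgroup S) (k : ℕ) {x t : S} (hx : x ∈ GEN_P T k) (ht : t ∈ T) :
    x * t ∈ GEN_P T (k + 1) := AddSubgroup.subset_closure ⟨x, hx, t, ht, rfl⟩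

theorem GEN_idl {S : Type u} [Ring S] {T : AddSubgroup S} (hT : IdI T) (k : ℕ) : IdI (GEN_P T k) := by
  induction k with
  | zero => exact hT
  | succ k ih =>
    constructor
    · intro a b hb
      refine AddSubgroup.closure_induction (p := fun b _ => a * b ∈ GEN_P T (k + 1)) ?_ ?_ ?_ ?_ hb
      · rintro _ ⟨x, hx, t, ht, rfl⟩
        rw [← mul_assoc]
        exact GEN_gen T k (ih.left a x hx) ht
      · rw [mul_zero]; exact zero_mem _
      · intro x y _ _ hx hy; rw [mul_add]; exact add_mem hx hy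
      · intro x _ hx; rw [mul_neg]; exact neg_mem hx
    · intro a b hb
      refine AddSubgroup.closure_induction (p := fun b _ => b * a ∈ GEN_P T (k + 1)) ?_ ?_ ?_ ?_ hb
      · rintro _ ⟨x, hx, t, ht, rfl⟩
        rw [mul_assoc]
        exact GEN_gen T k hx (hT.right a t ht)
      · rw [zero_mul]; exact zero_mem _
      · intro x y _ _ hx hy; rw [add_mul]; exact add_mem hx hy
      · intro x _ hx; rw [neg_mul]; exact neg_mem hx

theorem GEN_left {S : Type u} [Ring S] (T : AddSubgroup S) (k : ℕ) {t : S} (ht : t ∈ T) :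
    ∀ x ∈ GEN_P T k, t * x ∈ GEN_P T (k + 1) := by
  induction k with
  | zero => exact fun x hx => GEN_gen T 0 ht hx
  | succ k ih =>
    intro b hb
    refine AddSubgroup.closure_induction (p := fun b _ => t * b ∈ GEN_P T (k + 1 + 1)) ?_ ?_ ?_ ?_ hb
    · rintro _ ⟨x, hx, t', ht', rfl⟩
      rw [← mul_assoc]
      exact GEN_gen T (k + 1) (ih x hx) ht'
    · rw [mul_zero]; exact zero_mem _
    · intro x y _ _ hx hy; rw [mul_add]; exact add_mem hx hy
    · intro x _ hx; rw [mul_neg]; exact neg_mem hx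

theorem GEN_nil {S : Type u} [Ring S] {T : AddSubgroup S} {M : ℕ}
    (hM : ∀ l : List S, l.length = M → (∀ b ∈ l, b ∈ T) → l.prod = 0) (k : ℕ) :
    ∀ x ∈ GEN_P T k, ∀ l : List S, (∀ b ∈ l, b ∈ T) → l.length + (k + 1) = M → x * l.prod = 0 := by
  induction k with
  | zero =>
    intro x hx l hl hlen
    have := hM (x :: l) (by simpa using hlen) (by
      intro b hb
      rcases List.mem_cons.1 hb with rfl | hb
      · exact hx
      · exact hl b hb)
    simpa using this
  | succ k ih =>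
    intro b hb l hl hlen
    refine AddSubgroup.closure_induction (p := fun b _ => b * l.prod = 0) ?_ ?_ ?_ ?_ hb
    · rintro _ ⟨x, hx, t, ht, rfl⟩
      have := ih x hx (t :: l) (by
        intro b hb
        rcases List.mem_cons.1 hb with rfl | hb
        · exact ht
        · exact hl b hb) (by rw [List.length_cons]; omega)
      rw [mul_assoc]
      simpa using this
    · rw [zero_mul]
    · intro x y _ _ hx hy; rw [add_mul, hx, hy, add_zero]
    · intro x _ hx; rw [neg_mul, hx, neg_zero]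

/-- the congruence subgroup -/
def GEN_K {S : Type u} [Ring S] (J : AddSubgroup S) (hJ : IdI J) : Subgroup Sˣ where
  carrier := {u | (u : S) - 1 ∈ J}
  one_mem' := by
    change ((1 : Sˣ) : S) - 1 ∈ J
    rw [Units.val_one, sub_self]; exact zero_mem _
  mul_mem' := by
    intro a b ha hb
    change ((a * b : Sˣ) : S) - 1 ∈ J
    have h1 : ((a * b : Sˣ) : S) - 1 = ((a : S) - 1) * b + ((b : S) - 1) := by
      rw [Units.val_mul]; noncomm_ring
    rw [h1]
    exact add_mem (hJ.right _ _ ha) hb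
  inv_mem' := by
    intro a ha
    change ((a⁻¹ : Sˣ) : S) - 1 ∈ J
    have h1 : ((a⁻¹ : Sˣ) : S) - 1 = -((a⁻¹ : Sˣ) : S) * ((a : S) - 1) := by
      rw [mul_sub, neg_mul, Units.inv_mul, mul_one]; abel
    rw [h1]
    exact hJ.left _ _ ha

theorem GEN_mem {S : Type u} [Ring S] {J : AddSubgroup S} {hJ : IdI J} {x : Sˣ} : x ∈ GEN_K J hJ ↔ (x : S) - 1 ∈ J := Iff.rfl

theorem p_GEN : Stmt_GEN.{u} := by
  intro S _ T hT hN
  obtain ⟨M, hM⟩ := hN
  refine ⟨GEN_K T hT, ⟨?_⟩, ?_, fun x => Iff.rfl⟩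
  · intro n hn g
    rw [GEN_mem] at hn ⊢
    have h1 : ((g * n * g⁻¹ : Sˣ) : S) - 1 = (g : S) * ((n : S) - 1) * ((g⁻¹ : Sˣ) : S) := by
      rw [Units.val_mul, Units.val_mul, mul_sub, sub_mul, mul_one, Units.mul_inv]
    rw [h1]
    exact hT.right _ _ (hT.left _ _ hn)
  · rw [Subgroup.nilpotent_iff_finite_descending_central_series]
    refine ⟨M, fun k => (GEN_K (GEN_P T k) (GEN_idl hT k)).subgroupOf (GEN_K T hT), ⟨?_, ?_⟩, ?_⟩
    · rw [Subgroup.subgroupOf_eq_top]
      exact le_rfl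
    · intro x k hx g
      rw [Subgroup.mem_subgroupOf, GEN_mem] at hx ⊢
      have hg : (((g : Sˣ)) : S) - 1 ∈ T := g.2
      have hxT : (((x : Sˣ)) : S) - 1 ∈ GEN_P T k := hx
      have h1 : (((x * g * x⁻¹ * g⁻¹ : GEN_K T hT) : Sˣ) : S) - 1 =
          (((((x : Sˣ)) : S) - 1) * ((((g : Sˣ)) : S) - 1) - ((((g : Sˣ)) : S) - 1) * ((((x : Sˣ)) : S) - 1)) *
            (((x : Sˣ)⁻¹ : Sˣ) : S) * (((g : Sˣ)⁻¹ : Sˣ) : S) := by
        have h2 : (((((x : Sˣ)) : S) - 1) * ((((g : Sˣ)) : S) - 1) - ((((g : Sˣ)) : S) - 1) * ((((x : Sˣ)) : S) - 1)) =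
            ((x : Sˣ) : S) * ((g : Sˣ) : S) - ((g : Sˣ) : S) * ((x : Sˣ) : S) := by noncomm_ring
        rw [h2, sub_mul, sub_mul]
        have h3 : ((g : Sˣ) : S) * ((x : Sˣ) : S) * (((x : Sˣ)⁻¹ : Sˣ) : S) * (((g : Sˣ)⁻¹ : Sˣ) : S) = 1 := by
          rw [mul_assoc ((g : Sˣ) : S), Units.mul_inv, mul_one, Units.mul_inv]
        rw [h3]
        simp
      rw [commutatorElement_def, h1]
      exact (GEN_idl hT (k + 1)).right _ _ ((GEN_idl hT (k + 1)).right _ _
        (sub_mem (GEN_gen T k hxT hg) (GEN_left T k hg _ hxT)))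
    · rw [Subgroup.eq_bot_iff_forall]
      intro x hx
      rw [Subgroup.mem_subgroupOf, GEN_mem] at hx
      have h0 : (((x : Sˣ)) : S) - 1 = 0 := by
        rcases Nat.eq_zero_or_pos M with rfl | hMpos
        · have : (1 : S) = 0 := by simpa using hM [] rfl (by simp)
          rw [← mul_one ((((x : Sˣ)) : S) - 1), this, mul_zero]
        · obtain ⟨M', rfl⟩ : ∃ M', M = M' + 1 := ⟨M - 1, by omega⟩
          refine AddSubgroup.closure_induction (p := fun b _ => b = 0) ?_ rfl ?_ ?_ hx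
          · rintro _ ⟨y, hy, t, ht, rfl⟩
            have := GEN_nil hM M' y hy [] (by simp) (by simp)
            have hy0 : y = 0 := by simpa using this
            rw [hy0, zero_mul]
          · intro a b _ _ ha hb; rw [ha, hb, add_zero]
          · intro a _ ha; rw [ha, neg_zero]
      apply Subtype.ext
      apply Units.ext
      exact sub_eq_zero.1 h0

end Pool.NR
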