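import Pool.Agent.Work.MP_3617d5_nr.Interface

/-! # Block KGR of THEOREM NR -/

set_option autoImplicit false

open Nat

universe u

namespace Pool.NR

theorem KGR_iter {S : Type u} [Ring S] (z a : S) (hz : z * z = 0) (x y' : Sˣ)
    (hx : (x : S) = 1 + z * a) (hy' : (y' : S) = 1 + a * z) (n : ℕ) :
    ∀ (u : S) (y : Sˣ), (y : S) = 1 + z * u * z →
      (((fun Z : Sˣ => Z⁻¹ * x⁻¹ * Z * x)^[n] y : Sˣ) : S) =
        1 + (((x⁻¹ : Sˣ) : S) - 1) ^ n * (z * u * z) := by
  have hxz : ((x⁻¹ : Sˣ) : S) * z = z * ((y'⁻¹ : Sˣ) : S) := by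
    have h1 : (x : S) * z = z * (y' : S) := by
      rw [hx, hy', add_mul, mul_add, one_mul, mul_one, mul_assoc]
    calc ((x⁻¹ : Sˣ) : S) * z = ((x⁻¹ : Sˣ) : S) * (z * (y' : S)) * ((y'⁻¹ : Sˣ) : S) := by
          rw [mul_assoc, mul_assoc, Units.mul_inv, mul_one]
      _ = z * ((y'⁻¹ : Sˣ) : S) := by
          rw [← h1, ← mul_assoc, Units.inv_mul, one_mul]
  induction n with
  | zero =>
    intro u y hy
    rw [Function.iterate_zero, id, hy, pow_zero, one_mul]
  | succ n ih =>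
    intro u y hy
    rw [Function.iterate_succ_apply]
    have hvz : z * u * z * z = 0 := by rw [mul_assoc, hz, mul_zero]
    have hyi : ((y⁻¹ : Sˣ) : S) = 1 - z * u * z := by
      apply Units.inv_eq_of_mul_eq_one_right
      rw [hy]
      have h2 : z * u * z * (z * u * z) = 0 := by
        rw [← mul_assoc, ← mul_assoc, hvz, zero_mul, zero_mul]
      rw [add_mul, mul_sub, mul_sub, h2]
      simp
    have hvx : z * u * z * (x : S) = z * u * z := by
      rw [hx, mul_add, mul_one, ← mul_assoc, hvz, zero_mul, add_zero]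
    have hw : ((x⁻¹ : Sˣ) : S) * (z * u * z) = z * (((y'⁻¹ : Sˣ) : S) * u) * z := by
      rw [← mul_assoc, ← mul_assoc, hxz, mul_assoc z]
    have hvw : z * u * z * (((x⁻¹ : Sˣ) : S) * (z * u * z)) = 0 := by
      rw [hw, ← mul_assoc, ← mul_assoc, hvz, zero_mul, zero_mul]
    have hval : ((y⁻¹ * x⁻¹ * y * x : Sˣ) : S) =
        1 + z * (((y'⁻¹ : Sˣ) : S) * u - u) * z := by
      rw [Units.val_mul, Units.val_mul, Units.val_mul, hyi, hy]
      have h3 : (1 - z * u * z) * ((x⁻¹ : Sˣ) : S) * (1 + z * u * z) * (x : S) =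
          (1 - z * u * z) * (1 + ((x⁻¹ : Sˣ) : S) * (z * u * z)) := by
        rw [mul_assoc, add_mul, one_mul, hvx, mul_assoc, mul_add, Units.inv_mul]
      rw [h3, sub_mul, one_mul, mul_add, mul_one, hvw, add_zero, hw]
      rw [mul_sub, sub_mul]
      abel
    rw [ih _ _ hval]
    have h4 : z * (((y'⁻¹ : Sˣ) : S) * u - u) * z = (((x⁻¹ : Sˣ) : S) - 1) * (z * u * z) := by
      rw [mul_sub, sub_mul, sub_mul, one_mul, hw]
    rw [h4, ← mul_assoc, ← pow_succ]

theorem p_KGR : Stmt_KGR.{u} := by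
  intro S _ n I hI hnil heng z hz hzz a u
  have ht : z * a ∈ I := hI.right a z hz
  have ht' : a * z ∈ I := hI.left a z hz
  obtain ⟨x, hx⟩ := (hnil _ ht).isUnit_one_add
  obtain ⟨y', hy'⟩ := (hnil _ ht').isUnit_one_add
  have hvv : z * u * z * (z * u * z) = 0 := by
    rw [← mul_assoc, ← mul_assoc, mul_assoc (z * u) z z, hzz, mul_zero, zero_mul, zero_mul]
  obtain ⟨y, hy⟩ : ∃ y : Sˣ, (y : S) = 1 + z * u * z := by
    refine ⟨⟨1 + z * u * z, 1 - z * u * z, ?_, ?_⟩, rfl⟩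
    · rw [add_mul, mul_sub, mul_sub, hvv]; simp
    · rw [sub_mul, mul_add, mul_add, hvv]; simp
  have h1 := KGR_iter z a hzz x y' hx hy' n u y hy
  have h2 := heng x y (by rw [hx]; simpa using ht) (by
    rw [hy, add_sub_cancel_left]
    exact hI.right z _ (hI.right u z hz))
  rw [h2, Units.val_one] at h1
  have h3 : (((x⁻¹ : Sˣ) : S) - 1) ^ n * (z * u * z) = 0 := by
    have := h1.symm
    simpa using this
  have hcomm : Commute (-(x : S)) (((x⁻¹ : Sˣ) : S) - 1) := by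
    unfold Commute SemiconjBy
    rw [mul_sub, sub_mul, neg_mul, mul_neg, Units.mul_inv, Units.inv_mul]
    simp
  have h5 : z * a = -(x : S) * (((x⁻¹ : Sˣ) : S) - 1) := by
    rw [mul_sub, neg_mul, Units.mul_inv, mul_one, hx]
    abel
  rw [h5, hcomm.mul_pow, mul_assoc, h3, mul_zero]

end Pool.NR
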