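import Pool.Agent.Work.MP_3617d5_nr.Interface2

/-! # Block PT3 of THEOREM NR: the additive group of the ideal is a `p`-group -/

set_option autoImplicit false

open Nat

universe u

namespace Pool.NR

theorem PT3_pow {S : Type u} [Ring S] {I : AddSubgroup S} (hI : IdI I) {d : S} (hd : d ∈ I)
    (m : ℕ) : d ^ (m + 1) ∈ I := by
  rw [pow_succ]
  exact hI.left _ d hd

/-- There is no torsion for a prime different from `p`. -/
theorem PT3_A {S : Type u} [Ring S] (I : AddSubgroup S) (p : ℕ) (hp : p.Prime) (hI : IdI I)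
    (hU : ∀ b ∈ I, IsUnit (1 + b)) (hG : ∀ x : Sˣ, (x : S) - 1 ∈ I → ∃ k, x ^ p ^ k = 1)
    (l : ℕ) (hl : l.Prime) (hlp : l ≠ p) (d : S) (hd : d ∈ I) (hld : l • d = 0) : d = 0 := by
  obtain ⟨u, hu⟩ := hU d hd
  obtain ⟨e, he⟩ := hG u (by rw [hu, add_sub_cancel_left]; exact hd)
  have hq : 0 < p ^ e := pow_pos hp.pos _
  have hcop : Nat.Coprime l (p ^ e) :=
    Nat.Coprime.pow_right _ ((Nat.coprime_primes hl hp).2 hlp)
  set s : ℕ := φ (p ^ e) with hs
  have hs1 : 0 < s := Nat.totient_pos.2 hq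
  have hmod : l ^ s ≡ 1 [MOD p ^ e] := Nat.ModEq.pow_totient hcop
  have hls : 2 ≤ l ^ s := by
    calc 2 ≤ l := hl.two_le
      _ = l ^ 1 := (pow_one l).symm
      _ ≤ l ^ s := Nat.pow_le_pow_right hl.pos hs1
  obtain ⟨m, hm⟩ := (Nat.modEq_iff_dvd' (by omega)).1 hmod.symm
  have hus : u ^ l ^ s = u := by
    have h1 : l ^ s = p ^ e * m + 1 := by omega
    rw [h1, pow_succ, pow_mul, he, one_pow, one_mul]
  have hus' : (1 + d) ^ l ^ s = 1 + d := by
    have := congrArg (fun y : Sˣ => (y : S)) hus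
    simpa [hu] using this
  obtain ⟨r, hr⟩ := (Commute.one_left d).exists_add_pow_prime_pow_eq hl s
  have h2 : (l : S) * 1 * d = 0 := by
    rw [mul_one, ← nsmul_eq_mul, hld]
  rw [hus', h2, zero_mul, add_zero, one_pow] at hr
  have h3 : d = d ^ l ^ s := add_left_cancel hr
  obtain ⟨j, hj⟩ : ∃ j, l ^ s = j + 1 + 1 := ⟨l ^ s - 2, by omega⟩
  have h4 : d * (1 + -(d ^ (j + 1))) = 0 := by
    rw [mul_add, mul_one, mul_neg, ← _root_.pow_succ', ← hj, ← h3, add_neg_cancel]
  exact (hU _ (I.neg_mem (PT3_pow hI hd j))).mul_left_eq_zero.1 h4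

/-- There is no torsion prime to `p`. -/
theorem PT3_B {S : Type u} [Ring S] (I : AddSubgroup S) (p : ℕ) (hp : p.Prime) (hI : IdI I)
    (hU : ∀ b ∈ I, IsUnit (1 + b)) (hG : ∀ x : Sˣ, (x : S) - 1 ∈ I → ∃ k, x ^ p ^ k = 1) :
    ∀ N : ℕ, N ≠ 0 → ¬ p ∣ N → ∀ d ∈ I, N • d = 0 → d = 0 := by
  intro N
  induction N using Nat.strong_induction_on with
  | _ N ih =>
    intro hN hpN d hd hNd
    by_cases h1 : N = 1
    · rw [h1, one_smul] at hNd
      exact hNd
    · have hl : N.minFac.Prime := Nat.minFac_prime h1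
      obtain ⟨M, hM⟩ := Nat.minFac_dvd N
      have hM0 : M ≠ 0 := by
        rintro rfl
        rw [mul_zero] at hM
        exact hN hM
      have hlp : N.minFac ≠ p := by
        intro h
        apply hpN
        rw [← h]
        exact Nat.minFac_dvd N
      have hMN : M < N := by
        calc M < N.minFac * M := by
              have := hl.two_le
              nlinarith [Nat.pos_of_ne_zero hM0]
          _ = N := hM.symm
      have hpM : ¬ p ∣ M := by
        intro h
        apply hpN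
        rw [hM]
        exact Dvd.dvd.mul_left h _
      refine ih M hMN hM0 hpM d hd ?_
      refine PT3_A I p hp hI hU hG N.minFac hl hlp _ (I.nsmul_mem hd M) ?_
      rw [← mul_nsmul', ← hM, hNd]

theorem PT3_expand {S : Type u} [Ring S] (b : S) (q : ℕ) :
    ∃ h : S, (1 + b) ^ q = 1 + q • b + b * b * h := by
  induction q with
  | zero => exact ⟨0, by simp⟩
  | succ q ih =>
    obtain ⟨h, hh⟩ := ih
    refine ⟨h + q + h * b, ?_⟩
    rw [pow_succ, hh]
    simp only [mul_add, add_mul, mul_one, one_mul, nsmul_eq_mul, Nat.cast_add, Nat.cast_one]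
    have h1 : b * b * (q : S) = (q : S) * b * b := by
      rw [← Nat.cast_comm, mul_assoc]
    rw [h1, mul_assoc (b * b) h b]
    abel

theorem PT3_unit {S : Type u} [Ring S] (b : S) (v : Sˣ) (t : ℤ) (h : b * (v : S) = t • b)
    (j : ℕ) : b * ((v ^ j : Sˣ) : S) = t ^ j • b := by
  induction j with
  | zero => simp
  | succ j ih =>
    rw [pow_succ, Units.val_mul, ← mul_assoc, ih, smul_mul_assoc, h, smul_smul, ← pow_succ]

theorem p_PT3 : Stmt_PT3.{u} := by
  intro S _ I p hp hp2 hI hU hG b hb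
  obtain ⟨u, hu⟩ := hU b hb
  obtain ⟨e, he⟩ := hG u (by rw [hu, add_sub_cancel_left]; exact hb)
  have hue : (1 + b) ^ p ^ e = 1 := by
    have := congrArg (fun y : Sˣ => (y : S)) he
    simpa [hu] using this
  by_cases he0 : e = 0
  · refine ⟨0, ?_⟩
    rw [he0, pow_zero, pow_one] at hue
    rw [pow_zero, one_smul]
    exact add_eq_left.1 hue
  have hp3 : 3 ≤ p := by
    have := hp.two_le
    omega
  have hq3 : 3 ≤ p ^ e := by
    calc 3 ≤ p := hp3
      _ = p ^ 1 := (pow_one p).symm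
      _ ≤ p ^ e := Nat.pow_le_pow_right hp.pos (Nat.pos_of_ne_zero he0)
  set q : ℕ := p ^ e with hq
  obtain ⟨h, hh⟩ := PT3_expand b q
  rw [hue] at hh
  have hc : b * h ∈ I := hI.right h b hb
  obtain ⟨v, hv⟩ := hU _ hc
  have hbv : b * (v : S) = (1 - (q : ℤ)) • b := by
    rw [hv, mul_add, mul_one, sub_smul, one_smul, ← mul_assoc]
    have h1 : q • b + b * b * h = 0 := by
      have h2 : (1 : S) + (q • b + b * b * h) = 1 + 0 := by
        rw [add_zero, ← add_assoc, ← hh]
      exact add_left_cancel h2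
    have h3 : b * b * h = -(q • b) := by
      rw [eq_neg_iff_add_eq_zero, add_comm]
      exact h1
    rw [h3, natCast_zsmul, sub_eq_add_neg]
  obtain ⟨e', he'⟩ := hG v (by rw [hv, add_sub_cancel_left]; exact hc)
  have hj := PT3_unit b v _ hbv (p ^ e')
  rw [he', Units.val_one, mul_one] at hj
  set N : ℤ := (1 - (q : ℤ)) ^ p ^ e' - 1 with hN
  have hNb : N • b = 0 := by
    rw [hN, sub_smul, one_smul, ← hj, sub_self]
  have hN0 : N ≠ 0 := by
    intro h0
    have h1 : (1 - (q : ℤ)) ^ p ^ e' = 1 := by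
      have := h0
      rw [hN] at this
      linarith
    have h2 : |1 - (q : ℤ)| ^ p ^ e' = 1 := by
      rw [← abs_pow, h1, abs_one]
    have hp0 : p ^ e' ≠ 0 := (pow_pos hp.pos _).ne'
    have h3 : (2 : ℤ) ≤ |1 - (q : ℤ)| := by
      rw [abs_sub_comm]
      have : (3 : ℤ) ≤ q := by exact_mod_cast hq3
      calc (2 : ℤ) ≤ (q : ℤ) - 1 := by linarith
        _ ≤ |(q : ℤ) - 1| := le_abs_self _
    have h4 : (1 : ℤ) < |1 - (q : ℤ)| ^ p ^ e' := one_lt_pow₀ (by linarith) hp0
    linarith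
  have hNb' : N.natAbs • b = 0 := by
    rcases Int.natAbs_eq N with h1 | h1
    · rw [h1, natCast_zsmul] at hNb
      exact hNb
    · rw [h1, neg_smul, natCast_zsmul, neg_eq_zero] at hNb
      exact hNb
  obtain ⟨k, N', hpN', hNk⟩ := Nat.exists_eq_pow_mul_and_not_dvd (n := N.natAbs)
    (Int.natAbs_ne_zero.2 hN0) p hp.ne_one
  refine ⟨k, PT3_B I p hp hI hU hG N' ?_ hpN' _ (I.nsmul_mem hb _) ?_⟩
  · rintro rfl
    exact hpN' (dvd_zero p)
  · rw [← mul_nsmul', mul_comm, ← hNk, hNb']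

end Pool.NR
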