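import Pool.Agent.Work.MP_3617d5_nr.Interface

/-!
# MP_3617d5_al, THEOREM NR: block QIE
-/

set_option autoImplicit false

open Nat

universe u

namespace Pool.NR

theorem QIE_lift {S : Type u} [Ring S] {n : ℕ} {I : AddSubgroup S} {S' : Type u} [Ring S']
    (π : S →+* S') (hI : Good1 n I) (x' : S'ˣ) (hx : (x' : S') - 1 ∈ I.map π.toAddMonoidHom) :
    ∃ x : Sˣ, (x : S) - 1 ∈ I ∧ Units.map (π : S →* S') x = x' := by
  obtain ⟨b, hb, hbx⟩ := AddSubgroup.mem_map.1 hx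
  have hu : IsUnit (1 + b) := (hI.nil b hb).isUnit_one_add
  refine ⟨hu.unit, ?_, ?_⟩
  · rw [IsUnit.unit_spec, add_sub_cancel_left]
    exact hb
  · apply Units.ext
    rw [Units.coe_map]
    have h1 : π b = (x' : S') - 1 := hbx
    change π ((hu.unit : Sˣ) : S) = (x' : S')
    rw [IsUnit.unit_spec, map_add, map_one, h1]
    abel

theorem p_QIE : Stmt_QIE.{u} := by
  intro S _ n I S' _ π hπ hI hTF
  refine ⟨⟨?_, ?_⟩, ?_, ?_, hTF⟩
  · intro a b hb
    obtain ⟨a0, rfl⟩ := hπ a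
    obtain ⟨b0, hb0, rfl⟩ := AddSubgroup.mem_map.1 hb
    exact AddSubgroup.mem_map.2 ⟨a0 * b0, hI.idl.left a0 b0 hb0, map_mul π a0 b0⟩
  · intro a b hb
    obtain ⟨a0, rfl⟩ := hπ a
    obtain ⟨b0, hb0, rfl⟩ := AddSubgroup.mem_map.1 hb
    exact AddSubgroup.mem_map.2 ⟨b0 * a0, hI.idl.right a0 b0 hb0, map_mul π b0 a0⟩
  · intro b hb
    obtain ⟨b0, hb0, rfl⟩ := AddSubgroup.mem_map.1 hb
    exact (hI.nil b0 hb0).map π
  · intro x' y' hx hy
    obtain ⟨x, hx1, rfl⟩ := QIE_lift π hI x' hx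
    obtain ⟨y, hy1, rfl⟩ := QIE_lift π hI y' hy
    have hsc : Function.Semiconj (Units.map (π : S →* S')) (fun z : Sˣ => z⁻¹ * x⁻¹ * z * x)
        (fun z : S'ˣ => z⁻¹ * (Units.map (π : S →* S') x)⁻¹ * z * Units.map (π : S →* S') x) := by
      intro z
      simp only [map_mul, map_inv]
    have h := (hsc.iterate_right n) y
    rw [← h, hI.eng x y hx1 hy1, map_one]

end Pool.NR
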