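import Pool.Agent.Work.MP_3617d5_nr.Interface3

/-!
# Block CEN: torsion elements are central
-/

set_option autoImplicit false

open Nat

universe u

namespace Pool.NR

theorem CEN_pow_succ {S : Type u} [Ring S] (Δ : AddMonoid.End S) (i : ℕ) (s : S) :
    (Δ ^ (i + 1)) s = Δ ((Δ ^ i) s) := by
  rw [_root_.pow_succ']
  rfl

theorem CEN_pow_add {S : Type u} [Ring S] (Δ : AddMonoid.End S) (i j : ℕ) (s : S) :
    (Δ ^ (i + j)) s = (Δ ^ i) ((Δ ^ j) s) := by
  rw [pow_add]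
  rfl

theorem CEN_one {S : Type u} [Ring S] (x : Sˣ) (n : ℕ) (s : S) :
    ((1 + Del x) ^ n) s = ((x⁻¹ ^ n : Sˣ) : S) * s * ((x ^ n : Sˣ) : S) := by
  induction n with
  | zero => simp
  | succ n ih =>
    have h1 : ((1 + Del x) ^ (n + 1)) s = (1 + Del x) (((1 + Del x) ^ n) s) := CEN_pow_succ _ _ _
    have h2 : ∀ t : S, (1 + Del x) t = ((x⁻¹ : Sˣ) : S) * t * (x : S) := fun t => by
      have : (1 + Del x) t = t + Del x t := rfl
      rw [this, Del_apply]
      abel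
    rw [h1, h2, ih, _root_.pow_succ', _root_.pow_succ, Units.val_mul, Units.val_mul]
    simp only [mul_assoc]

theorem CEN_del {S : Type u} [Ring S] {J : AddSubgroup S} (hJ : IdI J) (x : Sˣ) {s : S}
    (hs : s ∈ J) : Del x s ∈ J := by
  rw [Del_apply]
  exact J.sub_mem (hJ.right _ _ (hJ.left _ _ hs)) hs

theorem CEN_pow {S : Type u} [Ring S] {J : AddSubgroup S} (hJ : IdI J) (x : Sˣ) {s : S}
    (hs : s ∈ J) (i : ℕ) : (Del x ^ i) s ∈ J := by
  induction i with
  | zero => simpa using hs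
  | succ i ih =>
    rw [CEN_pow_succ]
    exact CEN_del hJ x ih

theorem CEN_tf {S : Type u} [Ring S] {I : AddSubgroup S} {p : ℕ}
    (hp : ∀ b ∈ I, p • b = 0 → b = 0) (k : ℕ) : ∀ b ∈ I, p ^ k • b = 0 → b = 0 := by
  induction k with
  | zero =>
    intro b _ h
    simpa using h
  | succ k ih =>
    intro b hb h
    rw [_root_.pow_succ', mul_smul] at h
    exact ih b hb (hp _ (I.nsmul_mem hb _) h)

/-- the `p`-divisible part -/
def CEN_L {S : Type u} [Ring S] (I : AddSubgroup S) (p : ℕ) : AddSubgroup S where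
  carrier := {b | ∀ r : ℕ, ∃ c ∈ I, b = p ^ r • c}
  zero_mem' := fun r => ⟨0, I.zero_mem, by simp⟩
  add_mem' := by
    intro a b ha hb r
    obtain ⟨c, hc, rfl⟩ := ha r
    obtain ⟨d, hd, rfl⟩ := hb r
    exact ⟨c + d, I.add_mem hc hd, by rw [smul_add]⟩
  neg_mem' := by
    intro a ha r
    obtain ⟨c, hc, rfl⟩ := ha r
    exact ⟨-c, I.neg_mem hc, by rw [smul_neg]⟩

theorem CEN_mem {S : Type u} [Ring S] {I : AddSubgroup S} {p : ℕ} {b : S} :
    b ∈ CEN_L I p ↔ ∀ r : ℕ, ∃ c ∈ I, b = p ^ r • c := Iff.rfl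

theorem CEN_idl {S : Type u} [Ring S] {I : AddSubgroup S} (hI : IdI I) (p : ℕ) :
    IdI (CEN_L I p) := by
  constructor
  · intro a b hb r
    obtain ⟨c, hc, rfl⟩ := hb r
    exact ⟨a * c, hI.left a c hc, by rw [mul_smul_comm]⟩
  · intro a b hb r
    obtain ⟨c, hc, rfl⟩ := hb r
    exact ⟨c * a, hI.right a c hc, by rw [smul_mul_assoc]⟩

theorem p_CEN (hLDE : Stmt_LDE.{u}) (hPER : Stmt_PER.{u}) (hCIN : Stmt_CIN.{u}) :
    Stmt_CEN.{u} := by
  intro S _ m p e I hI hu hE hp x hx hq s hs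
  have hL := CEN_idl hI p
  have hLI : CEN_L I p ≤ I := by
    intro b hb
    obtain ⟨c, hc, h⟩ := hb 0
    rw [h, pow_zero, one_smul]
    exact hc
  have htf := CEN_tf hp
  have hdiv : ∀ (k : ℕ) (b : S), b ∈ I → p ^ k • b ∈ CEN_L I p → b ∈ CEN_L I p := by
    intro k b hb h r
    obtain ⟨c, hc, h1⟩ := h (k + r)
    refine ⟨c, hc, ?_⟩
    have h2 : p ^ k • (b - p ^ r • c) = 0 := by
      rw [smul_sub, h1, pow_add, mul_smul, sub_self]
    exact sub_eq_zero.mp (htf k _ (I.sub_mem hb (I.nsmul_mem hc _)) h2)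
  have hone : (1 + Del x) ^ (p ^ e) = 1 := by
    ext t
    rw [CEN_one, inv_pow, hq]
    simp
  have hDI : ∀ t ∈ I, Del x t ∈ I := fun t ht => CEN_del hI x ht
  -- step 1: `Δ s ∈ L`
  have h1 : ∀ t ∈ I, Del x t ∈ CEN_L I p := by
    intro t ht
    have h2 := hLDE S (Del x) I (CEN_L I p) (p ^ e) m hone (fun t ht i hi => by
      have h3 : (Del x ^ m) t ∈ CEN_L I p := fun r =>
        hPER S m (p ^ r) I hI hu hE (htf r) x hx t ht
      have h4 : i = (i - m) + m := by omega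
      rw [h4, CEN_pow_add]
      exact CEN_pow hL x h3 _) t ht
    rw [← pow_mul] at h2
    exact hdiv _ _ (hDI t ht) h2
  -- step 2: `Δ (Δ s) = 0`
  have h2 : ∀ t ∈ I, Del x (Del x t) = 0 := by
    intro t ht
    have h3 := hCIN S m (p ^ e) I (CEN_L I p) hI hu hE (htf e) hL hLI
      (fun b hb => hb e) x hx hq (Del x t) (h1 t ht)
    rw [Del_apply x (Del x t), mul_assoc, h3, ← mul_assoc, Units.inv_mul, one_mul, sub_self]
  -- step 3: `Δ s = 0`
  have h3 := hLDE S (Del x) I ⊥ (p ^ e) 2 hone (fun t ht i hi => by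
    have h4 : i = (i - 2) + 2 := by omega
    have h5 : (Del x ^ 2) t = 0 := by
      have : (Del x ^ (1 + 1)) t = Del x ((Del x ^ 1) t) := CEN_pow_succ _ _ _
      rw [show (2 : ℕ) = 1 + 1 from rfl, this, pow_one]
      exact h2 t ht
    rw [h4, CEN_pow_add, h5, map_zero]
    exact zero_mem _) s hs
  rw [AddSubgroup.mem_bot, ← pow_mul] at h3
  have h4 := htf _ _ (hDI s hs) h3
  rw [Del_apply, sub_eq_zero] at h4
  calc s * (x : S) = (x : S) * (((x⁻¹ : Sˣ) : S) * s * (x : S)) := by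
        rw [← mul_assoc, ← mul_assoc, Units.mul_inv, one_mul]
    _ = (x : S) * s := by rw [h4]

end Pool.NR

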