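import Pool.Agent.Work.MP_3617d5_nr.Interface3

/-!
# MP_3617d5_al, THEOREM NR: block CIN
-/

set_option autoImplicit false

open Nat

universe u

namespace Pool.NR

/-- The commutator map preserves `1 + L`. -/
theorem CIN_step {S : Type u} [Ring S] {L : AddSubgroup S} (hL : IdI L) (x z : Sˣ)
    (hz : (z : S) - 1 ∈ L) : ((z⁻¹ * x⁻¹ * z * x : Sˣ) : S) - 1 ∈ L := by
  have h1 : ((z⁻¹ * x⁻¹ * z * x : Sˣ) : S) - 1 =
      ((z⁻¹ : Sˣ) : S) * (((x⁻¹ : Sˣ) : S) * (((z : S) - 1) * (x : S) - (x : S) * ((z : S) - 1))) := by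
    have e1 : ((x⁻¹ : Sˣ) : S) * (x : S) = 1 := x.inv_mul
    have e2 : ((z⁻¹ : Sˣ) : S) * (z : S) = 1 := z.inv_mul
    have e3 : ((z : S) - 1) * (x : S) - (x : S) * ((z : S) - 1) = (z : S) * (x : S) - (x : S) * (z : S) := by
      noncomm_ring
    rw [e3, mul_sub, ← mul_assoc ((x⁻¹ : Sˣ) : S) (x : S), e1, one_mul, mul_sub, e2]
    simp only [Units.val_mul, mul_assoc]
  rw [h1]
  apply hL.left
  apply hL.left
  exact L.sub_mem (hL.right _ _ hz) (hL.left _ _ hz)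

theorem CIN_conj {S : Type u} [Ring S] (x z c : Sˣ) (h1 : z⁻¹ * x⁻¹ * z * x = c)
    (h2 : c⁻¹ * x⁻¹ * c * x = 1) (i : ℕ) : x⁻¹ ^ i * z * x ^ i = z * c ^ i := by
  have hc : x⁻¹ * c * x = c := by
    have := congrArg (fun y => c * y) h2
    simpa [mul_assoc] using this
  have hz : x⁻¹ * z * x = z * c := by
    rw [← h1]
    simp [mul_assoc]
  have hci : ∀ i : ℕ, x⁻¹ * c ^ i * x = c ^ i := by
    intro i
    induction i with
    | zero => simp
    | succ i ih =>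
      calc x⁻¹ * c ^ (i + 1) * x = (x⁻¹ * c ^ i * x) * (x⁻¹ * c * x) := by
            rw [pow_succ]; group
        _ = c ^ (i + 1) := by rw [ih, hc, pow_succ]
  induction i with
  | zero => simp
  | succ i ih =>
    calc x⁻¹ ^ (i + 1) * z * x ^ (i + 1) = x⁻¹ * (x⁻¹ ^ i * z * x ^ i) * x := by
          rw [pow_succ' x⁻¹, pow_succ x]; simp only [mul_assoc]
      _ = x⁻¹ * (z * c ^ i) * x := by rw [ih]
      _ = (x⁻¹ * z * x) * (x⁻¹ * c ^ i * x) := by group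
      _ = z * c * c ^ i := by rw [hz, hci]
      _ = z * c ^ (i + 1) := by rw [mul_assoc, ← _root_.pow_succ']

theorem CIN_down (hNOP : Stmt_NOP.{u}) {S : Type u} [Ring S] (q : ℕ) (I L : AddSubgroup S)
    (hI : IdI I) (hu : ∀ b ∈ I, IsUnit (1 + b)) (ht : ∀ b ∈ I, q • b = 0 → b = 0) (hL : IdI L)
    (hd : ∀ b ∈ L, ∃ c ∈ I, b = q • c) (x : Sˣ) (hx : x ^ q = 1) :
    ∀ (m : ℕ) (z : Sˣ), (z : S) - 1 ∈ L → (fun z : Sˣ => z⁻¹ * x⁻¹ * z * x)^[m] z = 1 →
      z⁻¹ * x⁻¹ * z * x = 1 := by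
  intro m
  induction m with
  | zero =>
    intro z _ h
    have h' : z = 1 := h
    rw [h']
    simp
  | succ m ih =>
    intro z hz h
    rw [Function.iterate_succ_apply] at h
    have hc := CIN_step hL x z hz
    have h2 := ih _ hc h
    obtain ⟨c, hc'⟩ : ∃ c, c = z⁻¹ * x⁻¹ * z * x := ⟨_, rfl⟩
    rw [← hc'] at h2 hc ⊢
    have h3 := CIN_conj x z c hc'.symm h2 q
    have h4 : c ^ q = 1 := by
      rw [inv_pow, hx, inv_one, one_mul, mul_one] at h3
      exact (mul_eq_left.1 h3.symm)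
    obtain ⟨d, hdI, hd'⟩ := hd _ hc
    exact hNOP S q I hI hu ht c h4 ⟨d, hdI, hd'⟩

theorem p_CIN (hNOP : Stmt_NOP.{u}) : Stmt_CIN.{u} := by
  intro S _ m q I L hI hu hE ht hL hLI hd x hx1 hxq s hs
  obtain ⟨z, hz⟩ := hu s (hLI hs)
  have hzL : (z : S) - 1 ∈ L := by
    rw [hz, add_sub_cancel_left]
    exact hs
  have h1 := hE x z hx1 (hLI hzL)
  have h2 := CIN_down hNOP q I L hI hu ht hL hd x hxq m z hzL h1
  have h3 : z * x = x * z := by
    have := congrArg (fun y => x * z * y) h2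
    simpa [mul_assoc] using this
  have h4 := congrArg (fun y : Sˣ => (y : S)) h3
  simp only [Units.val_mul, hz] at h4
  have h5 : (1 + s) * (x : S) - (x : S) * (1 + s) = s * (x : S) - (x : S) * s := by
    noncomm_ring
  rw [h4, sub_self] at h5
  exact (sub_eq_zero.1 h5.symm)

end Pool.NR
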