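import Pool.Agent.Work.MP_3617d5_nr.Interface3

/-!
# MP_3617d5_al, THEOREM NR: block GRC
-/

set_option autoImplicit false

open Nat

universe u

namespace Pool.NR

theorem GRC_comm {A : Type u} [Group A] (h : ∀ a b : A, a * b = b * a) : Group.IsSolvable A := by
  let _ : CommGroup A := { (inferInstance : Group A) with mul_comm := h }
  infer_instance

theorem p_GRC : Stmt_GRC.{u} := by
  intro K _ H₀ hN hnil x hx
  have := hN
  have := hnil
  refine ⟨(Subgroup.center (K ⧸ H₀)).comap (QuotientGroup.mk' H₀), inferInstance, ?_, ?_⟩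
  · have hle : H₀ ≤ (Subgroup.center (K ⧸ H₀)).comap (QuotientGroup.mk' H₀) := by
      intro h hh
      rw [Subgroup.mem_comap, QuotientGroup.mk'_apply, (QuotientGroup.eq_one_iff h).2 hh]
      exact Subgroup.one_mem _
    have hc : Group.IsSolvable (Subgroup.center (K ⧸ H₀)) := by
      apply GRC_comm
      intro a b
      exact Subtype.ext (Subgroup.mem_center_iff.1 b.2 a)
    refine Group.isSolvable_of_ker_le_range (Subgroup.inclusion hle)
      ((QuotientGroup.mk' H₀).subgroupComap (Subgroup.center (K ⧸ H₀))) ?_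
    intro y hy
    rw [MonoidHom.mem_ker] at hy
    have h1 : QuotientGroup.mk' H₀ (y : K) = 1 := congrArg Subtype.val hy
    rw [QuotientGroup.mk'_apply, QuotientGroup.eq_one_iff] at h1
    exact ⟨⟨(y : K), h1⟩, Subtype.ext rfl⟩
  · rw [Subgroup.mem_comap, Subgroup.mem_center_iff]
    intro q
    obtain ⟨y, rfl⟩ := QuotientGroup.mk'_surjective H₀ q
    rw [← map_mul, ← map_mul]
    change ((y * x : K) : K ⧸ H₀) = ((x * y : K) : K ⧸ H₀)
    rw [QuotientGroup.eq_iff_div_mem]
    have h2 : y * x / (x * y) = y * x * y⁻¹ * x⁻¹ := by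
      rw [div_eq_mul_inv, mul_inv_rev]
      group
    rw [h2]
    exact hx y

end Pool.NR
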