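import Pool.Agent.Work.MP_3617d5_nr.Interface3

set_option autoImplicit false

universe u

namespace Pool.NR

theorem p_JLM : Stmt_JLM.{u} := by
  intro S S' _ _ π N x W T' hker hT hN hx hW
  refine ⟨{ carrier := {b | N • b = 0 ∧ π b ∈ T'}
            zero_mem' := ⟨smul_zero _, by rw [map_zero]; exact T'.zero_mem⟩
            add_mem' := ?_
            neg_mem' := ?_ }, ?_, ?_, ?_⟩
  · rintro a b ⟨ha, ha'⟩ ⟨hb, hb'⟩
    refine ⟨by rw [smul_add, ha, hb, add_zero], ?_⟩
    rw [map_add]
    exact T'.add_mem ha' hb'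
  · rintro a ⟨ha, ha'⟩
    refine ⟨by rw [smul_neg, ha, neg_zero], ?_⟩
    rw [map_neg]
    exact T'.neg_mem ha'
  · refine ⟨?_, ?_⟩
    · rintro a b ⟨hb, hb'⟩
      refine ⟨by rw [← mul_smul_comm, hb, mul_zero], ?_⟩
      rw [map_mul]
      exact hT.left _ _ hb'
    · rintro a b ⟨hb, hb'⟩
      refine ⟨by rw [← smul_mul_assoc, hb, zero_mul], ?_⟩
      rw [map_mul]
      exact hT.right _ _ hb'
  · obtain ⟨M, hM⟩ := hN
    refine ⟨M + 1, ?_⟩
    intro l hl hmem
    rcases List.eq_nil_or_concat l with h | ⟨l₁, j, h⟩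
    · rw [h] at hl
      simp at hl
    · subst h
      rw [List.concat_eq_append] at hl hmem ⊢
      rw [List.length_append] at hl
      have hl1 : l₁.length = M := by simpa using hl
      have h0 : π l₁.prod = 0 := by
        rw [map_list_prod]
        apply hM
        · rw [List.length_map, hl1]
        · intro b hb
          obtain ⟨c, hc, rfl⟩ := List.mem_map.1 hb
          exact (hmem c (List.mem_append_left _ hc)).2
      obtain ⟨s, hs⟩ := hker _ h0
      have hj := hmem j (List.mem_append_right _ (List.mem_singleton.2 rfl))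
      rw [List.prod_append, List.prod_singleton, hs, smul_mul_assoc, ← mul_smul_comm, hj.1, mul_zero]
  · intro s hs
    refine ⟨hW s hs, ?_⟩
    have e : π (s * x - x * s) = π s * (π x - 1) - (π x - 1) * π s := by
      rw [map_sub, map_mul, map_mul]
      noncomm_ring
    rw [e]
    exact T'.sub_mem (hT.left _ _ hx) (hT.right _ _ hx)

end Pool.NR
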