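import Pool.Agent.Work.MP_3617d5_nr.Interface3

/-!
# MP_3617d5_al, THEOREM NR, block LDE
-/

set_option autoImplicit false

open Nat

universe u

namespace Pool.NR

theorem LDE_rel {V : Type u} [AddCommGroup V] (Δ : AddMonoid.End V) (q : ℕ) (h : (1 + Δ) ^ q = 1) :
    ∑ t ∈ Finset.range q, Δ ^ (t + 1) * ((q.choose (t + 1) : ℕ) : AddMonoid.End V) = 0 := by
  have h1 : (Δ + 1) ^ q = ∑ t ∈ Finset.range (q + 1), Δ ^ t * 1 ^ (q - t) * ((q.choose t : ℕ) : AddMonoid.End V) :=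
    (Commute.one_right Δ).add_pow q
  rw [add_comm Δ 1, h, Finset.sum_range_succ'] at h1
  simp only [one_pow, mul_one, pow_zero, Nat.choose_zero_right, Nat.cast_one] at h1
  have h2 := h1.symm
  rwa [add_eq_right] at h2

theorem LDE_app {V : Type u} [AddCommGroup V] (Δ : AddMonoid.End V) (q i : ℕ) (h : (1 + Δ) ^ q = 1) (s : V) :
    ∑ t ∈ Finset.range q, (q.choose (t + 1)) • (Δ ^ (t + 1 + i)) s = 0 := by
  have h1 := LDE_rel Δ q h
  have h2 : (∑ t ∈ Finset.range q, Δ ^ (t + 1) * ((q.choose (t + 1) : ℕ) : AddMonoid.End V)) ((Δ ^ i) s) = 0 := by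
    rw [h1]
    rfl
  have h3 : ∀ (F : Finset ℕ) (g : ℕ → AddMonoid.End V) (v : V), (∑ t ∈ F, g t) v = ∑ t ∈ F, g t v := by
    intro F g v
    induction F using Finset.induction_on with
    | empty => rfl
    | insert a F ha ih =>
      rw [Finset.sum_insert ha, Finset.sum_insert ha, ← ih]
      rfl
  rw [h3] at h2
  rw [← h2]
  refine Finset.sum_congr rfl fun t _ => ?_
  rw [_root_.pow_add, AddMonoid.End.coe_mul, AddMonoid.End.coe_mul, Function.comp_apply, Function.comp_apply]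
  have h4 : (((q.choose (t + 1) : ℕ) : AddMonoid.End V)) ((Δ ^ i) s) = (q.choose (t + 1)) • ((Δ ^ i) s) := by
    rw [AddMonoid.End.natCast_apply]
  rw [h4, map_nsmul]

theorem LDE_ind {V : Type u} [AddCommGroup V] (Δ : AddMonoid.End V) (W T : AddSubgroup V) (q m : ℕ)
    (h : (1 + Δ) ^ q = 1) (hT : ∀ s ∈ W, ∀ i, m ≤ i → (Δ ^ i) s ∈ T) :
    ∀ j i : ℕ, 1 ≤ i → m ≤ i + j → ∀ s ∈ W, q ^ j • (Δ ^ i) s ∈ T := by
  intro j
  induction j with
  | zero =>
    intro i _ hm s hs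
    rw [pow_zero, one_nsmul]
    exact hT s hs i (by omega)
  | succ j ih =>
    intro i hi hm s hs
    rcases Nat.eq_zero_or_pos q with hq | hq
    · rw [hq, zero_pow (Nat.succ_ne_zero j), zero_nsmul]
      exact T.zero_mem
    · obtain ⟨r, rfl⟩ : ∃ r, q = r + 1 := ⟨q - 1, by omega⟩
      obtain ⟨k, rfl⟩ : ∃ k, i = k + 1 := ⟨i - 1, by omega⟩
      have h1 := LDE_app Δ (r + 1) k h s
      rw [Finset.sum_range_succ'] at h1
      simp only [Nat.zero_add, Nat.choose_one_right] at h1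
      have h2 : (r + 1) • (Δ ^ (1 + k)) s =
          - ∑ t ∈ Finset.range r, ((r + 1).choose (t + 1 + 1)) • (Δ ^ (t + 1 + 1 + k)) s := by
        rw [eq_neg_iff_add_eq_zero, add_comm]
        exact h1
      rw [add_comm k 1, _root_.pow_succ, mul_nsmul', h2, smul_neg, Finset.smul_sum]
      refine T.neg_mem (T.sum_mem fun t _ => ?_)
      rw [smul_comm]
      refine T.nsmul_mem ?_ _
      exact ih (t + 1 + 1 + k) (by omega) (by omega) s hs

theorem p_LDE : Stmt_LDE.{u} := by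
  intro V _ Δ W T q m h hT s hs
  have h1 := LDE_ind Δ W T q m h hT m 1 le_rfl (by omega) s hs
  rwa [pow_one] at h1

end Pool.NR
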