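import Pool.Agent.Work.MP_3617d5_nr.Interface3

/-!
# MP_3617d5_al, THEOREM NR, block LIE
-/

set_option autoImplicit false

open Nat

universe u

namespace Pool.NR

theorem LIE_conj {S : Type u} [Ring S] (x : Sˣ) (i : ℕ) (s : S) :
    ((1 + Del x) ^ i) s = ((x⁻¹ ^ i : Sˣ) : S) * s * ((x ^ i : Sˣ) : S) := by
  induction i generalizing s with
  | zero => simp
  | succ i ih =>
    rw [_root_.pow_succ, AddMonoid.End.coe_mul, Function.comp_apply, ih]
    have h1 : (1 + Del x) s = ((x⁻¹ : Sˣ) : S) * s * (x : S) := by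
      show s + Del x s = _
      rw [Del_apply]
      abel
    rw [h1, _root_.pow_succ x⁻¹ i, _root_.pow_succ' x i, Units.val_mul, Units.val_mul]
    simp only [mul_assoc]

theorem LIE_pow {S : Type u} [Ring S] (x : Sˣ) (i : ℕ) (s : S) :
    (Del x ^ i) s = ((x⁻¹ ^ i : Sˣ) : S) * (fun z : S => z * (x : S) - (x : S) * z)^[i] s := by
  induction i with
  | zero => simp
  | succ i ih =>
    rw [_root_.pow_succ', AddMonoid.End.coe_mul, Function.comp_apply, ih, Del_apply, Function.iterate_succ_apply',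
      _root_.pow_succ' x⁻¹ i, Units.val_mul]
    have hcomm : ((x⁻¹ : Sˣ) : S) * ((x⁻¹ ^ i : Sˣ) : S) =
        ((x⁻¹ ^ i : Sˣ) : S) * ((x⁻¹ : Sˣ) : S) := by
      rw [← Units.val_mul, ← Units.val_mul, ← _root_.pow_succ', ← _root_.pow_succ]
    rw [mul_sub]
    congr 1
    · simp only [mul_assoc]
    · rw [hcomm]
      simp only [mul_assoc]
      rw [Units.inv_mul_cancel_left]

theorem p_LIE (hLDE : Stmt_LDE.{u}) : Stmt_LIE.{u} := by
  intro S _ m q hL x hx s
  have h1 : (1 + Del x) ^ q = 1 := by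
    ext s
    rw [LIE_conj, hx, inv_pow, hx]
    simp
  have h2 : ∀ s ∈ (⊤ : AddSubgroup S), ∀ i, m ≤ i → (Del x ^ i) s ∈ (⊥ : AddSubgroup S) := by
    intro s _ i hi
    obtain ⟨j, rfl⟩ := Nat.exists_eq_add_of_le hi
    rw [LIE_pow, Function.iterate_add_apply, hL, mul_zero]
    exact AddSubgroup.zero_mem _
  have h3 := hLDE S (Del x) ⊤ ⊥ q m h1 h2 s (AddSubgroup.mem_top s)
  rw [AddSubgroup.mem_bot, Del_apply] at h3
  have h4 : q ^ m • (s * (x : S) - (x : S) * s) =
      (x : S) * (q ^ m • (((x⁻¹ : Sˣ) : S) * s * (x : S) - s)) := by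
    rw [mul_smul_comm, mul_sub]
    congr 2
    simp only [mul_assoc]
    rw [Units.mul_inv_cancel_left]
  rw [h4, h3, mul_zero]

end Pool.NR
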