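import Pool.Agent.Work.MP_3617d5_nr.Interface3

/-! # Block NOP -/

set_option autoImplicit false

open Nat

universe u

namespace Pool.NR

theorem p_NOP : Stmt_NOP.{u} := by
  intro S _ q I hI hu htf c hc hd
  obtain ⟨d, hdI, hd⟩ := hd
  have hcq : (c : S) ^ q = 1 := by
    have := congrArg (fun x : Sˣ => (x : S)) hc
    simpa using this
  set E : S := ∑ i ∈ Finset.range q, (c : S) ^ i with hE
  have h1 : (c : S) * E = E := by
    have h := mul_geom_sum (c : S) q
    rw [hcq, sub_self, ← hE, sub_mul, one_mul, sub_eq_zero] at h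
    exact h
  have h2 : ∀ i : ℕ, (c : S) ^ i * E = E := by
    intro i
    induction i with
    | zero => rw [pow_zero, one_mul]
    | succ i ih => rw [pow_succ, mul_assoc, h1, ih]
  have h3 : E * E = q • E := by
    conv_lhs => rw [hE, Finset.sum_mul]
    rw [Finset.sum_congr rfl fun i _ => h2 i, Finset.sum_const, Finset.card_range]
  set f : S := -∑ i ∈ Finset.range q, d * ∑ j ∈ Finset.range i, (c : S) ^ j with hf
  have hfI : -f ∈ I := by
    rw [hf, neg_neg]
    exact AddSubgroup.sum_mem _ fun i _ => hI.right _ _ hdI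
  have hfI' : f ∈ I := by
    have := I.neg_mem hfI
    rwa [neg_neg] at this
  have h4 : E = q • (1 - f) := by
    have h5 : ∀ i, (c : S) ^ i = 1 + q • (d * ∑ j ∈ Finset.range i, (c : S) ^ j) := by
      intro i
      have h6 := mul_geom_sum (c : S) i
      rw [hd, smul_mul_assoc] at h6
      rw [h6]
      abel
    rw [hE, Finset.sum_congr rfl fun i _ => h5 i, Finset.sum_add_distrib, Finset.sum_const,
      Finset.card_range, ← Finset.smul_sum, hf, sub_neg_eq_add, smul_add]
  have h5 : q • (q • (f * f - f)) = 0 := by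
    have h6 := h3
    rw [h4, smul_mul_assoc, mul_smul_comm] at h6
    have h7 : f * f - f = (1 - f) * (1 - f) - (1 - f) := by
      noncomm_ring
    rw [h7, smul_sub, smul_sub, h6, sub_self]
  have hffI : f * f - f ∈ I := I.sub_mem (hI.left _ _ hfI') hfI'
  have h6 : f * f - f = 0 := htf _ hffI (htf _ (I.nsmul_mem hffI q) h5)
  have h7 : f * (1 + -f) = 0 := by
    rw [mul_add, mul_one, mul_neg, ← sub_eq_add_neg, ← neg_sub, h6, neg_zero]
  obtain ⟨w, hw⟩ := hu _ hfI
  rw [← hw] at h7
  have h8 : f = 0 := (Units.mul_left_eq_zero w).1 h7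
  rw [h8, sub_zero] at h4
  rw [h4, mul_smul_comm, mul_one] at h1
  have h9 : q • ((c : S) - 1) = 0 := by
    rw [smul_sub, h1, sub_self]
  have h10 : (c : S) - 1 ∈ I := by
    rw [hd]
    exact I.nsmul_mem hdI q
  have h11 := htf _ h10 h9
  exact Units.ext (by rw [sub_eq_zero.1 h11, Units.val_one])

end Pool.NR
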