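import Pool.Agent.Work.MP_3617d5_nr.Interface3

/-!
# MP_3617d5_al, block PER: perturbation
-/

set_option autoImplicit false

open Nat

universe u

namespace Pool.NR

/-- `Del x` preserves an ideal. -/
theorem PER_mem {S : Type u} [Ring S] (I : AddSubgroup S) (hI : IdI I) (x : Sˣ) (s : S) (hs : s ∈ I) :
    Del x s ∈ I := by
  rw [Del_apply]
  exact I.sub_mem (hI.right (x : S) _ (hI.left ((x⁻¹ : Sˣ) : S) s hs)) hs

/-- The iterates. -/
theorem PER_iter {S : Type u} [Ring S] (N : ℕ) (I : AddSubgroup S) (hI : IdI I) (x : Sˣ) (s : S) (hs : s ∈ I)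
    (z : Sˣ) (hz : (z : S) = 1 + N • s) (k : ℕ) :
    ∃ d ∈ I, (((fun w : Sˣ => w⁻¹ * x⁻¹ * w * x)^[k] z : Sˣ) : S) = 1 + N • d ∧
      ∃ b ∈ I, d - (Del x ^ k) s = N • b := by
  induction k with
  | zero =>
    refine ⟨s, hs, hz, 0, I.zero_mem, ?_⟩
    have h0 : (Del x ^ 0) s = s := by
      rw [_root_.pow_zero]; rfl
    rw [h0, sub_self, smul_zero]
  | succ k ih =>
    obtain ⟨d, hd, hzd, b, hb, hdb⟩ := ih
    rw [Function.iterate_succ_apply']
    set w : Sˣ := (fun w : Sˣ => w⁻¹ * x⁻¹ * w * x)^[k] z with hw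
    have hDd : Del x d ∈ I := PER_mem I hI x d hd
    have hww : ((w⁻¹ : Sˣ) : S) * (w : S) = 1 := Units.inv_mul w
    have hxx : ((x⁻¹ : Sˣ) : S) * (x : S) = 1 := Units.inv_mul x
    refine ⟨((w⁻¹ : Sˣ) : S) * Del x d, hI.left _ _ hDd, ?_, ?_⟩
    · show ((w⁻¹ * x⁻¹ * w * x : Sˣ) : S) = 1 + N • (((w⁻¹ : Sˣ) : S) * Del x d)
      have h1 : ((w⁻¹ * x⁻¹ * w * x : Sˣ) : S)
          = ((w⁻¹ : Sˣ) : S) * (((x⁻¹ : Sˣ) : S) * (w : S) * (x : S)) := by
        simp only [Units.val_mul, mul_assoc]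
      have h2 : ((x⁻¹ : Sˣ) : S) * (w : S) * (x : S) = (w : S) + N • Del x d := by
        rw [hzd, Del_apply, mul_add, add_mul, mul_one, hxx, mul_smul_comm, smul_mul_assoc, smul_sub]
        abel
      rw [h1, h2, mul_add, hww, mul_smul_comm]
    · refine ⟨-(((w⁻¹ : Sˣ) : S) * (d * Del x d)) + Del x b, ?_, ?_⟩
      · exact I.add_mem (I.neg_mem (hI.left _ _ (hI.left _ _ hDd))) (PER_mem I hI x b hb)
      · have h3 : (Del x ^ (k + 1)) s = Del x ((Del x ^ k) s) := by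
          rw [_root_.pow_succ']; rfl
        have h4 : Del x d - Del x ((Del x ^ k) s) = N • Del x b := by
          rw [← map_sub, hdb, map_nsmul]
        have h5 : ((w⁻¹ : Sˣ) : S) = 1 - N • (((w⁻¹ : Sˣ) : S) * d) := by
          have h6 : ((w⁻¹ : Sˣ) : S) * (1 + N • d) = 1 := by rw [← hzd, hww]
          rw [mul_add, mul_one, mul_smul_comm] at h6
          exact eq_sub_of_add_eq h6
        have h7 : ((w⁻¹ : Sˣ) : S) * Del x d = Del x d - N • (((w⁻¹ : Sˣ) : S) * (d * Del x d)) := by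
          calc ((w⁻¹ : Sˣ) : S) * Del x d = (1 - N • (((w⁻¹ : Sˣ) : S) * d)) * Del x d := by rw [← h5]
            _ = Del x d - N • (((w⁻¹ : Sˣ) : S) * (d * Del x d)) := by
              rw [sub_mul, one_mul, smul_mul_assoc, mul_assoc]
        rw [h3, h7, smul_add, smul_neg]
        rw [← h4]
        abel

/-- **PER**. -/
theorem p_PER : Stmt_PER.{u} := by
  intro S _ m N I hI hU hE hN x hx s hs
  have hNs : N • s ∈ I := I.nsmul_mem hs N
  obtain ⟨z, hz⟩ := hU (N • s) hNs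
  obtain ⟨d, hd, hzd, b, hb, hdb⟩ := PER_iter N I hI x s hs z hz m
  have h1 : (fun w : Sˣ => w⁻¹ * x⁻¹ * w * x)^[m] z = 1 :=
    hE x z hx (by rw [hz, add_sub_cancel_left]; exact hNs)
  rw [h1, Units.val_one] at hzd
  have h2 : N • d = 0 := by
    have h3 : (1 : S) + 0 = 1 + N • d := by rw [add_zero]; exact hzd
    exact (add_left_cancel h3).symm
  have h4 : d = 0 := hN d hd h2
  refine ⟨-b, I.neg_mem hb, ?_⟩
  rw [h4, zero_sub] at hdb
  rw [smul_neg, ← hdb, neg_neg]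

end Pool.NR
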