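import Pool.Agent.Work.MP_3617d5_nr.Interface3

set_option autoImplicit false

open Nat

universe u

namespace Pool.NR

/-- The functions with values in `I`. -/
def UNF_pi {S : Type u} [Ring S] (I : AddSubgroup S) : AddSubgroup (ℕ → S) where
  carrier := {f | ∀ n, f n ∈ I}
  zero_mem' := fun _ => I.zero_mem
  add_mem' := fun ha hb n => I.add_mem (ha n) (hb n)
  neg_mem' := fun ha n => I.neg_mem (ha n)

theorem UNF_mem {S : Type u} [Ring S] (I : AddSubgroup S) (f : ℕ → S) : f ∈ UNF_pi I ↔ ∀ n, f n ∈ I :=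
  Iff.rfl

theorem UNF_idl {S : Type u} [Ring S] (I : AddSubgroup S) (h : IdI I) : IdI (UNF_pi I) where
  left := fun a b hb n => h.left (a n) (b n) (hb n)
  right := fun a b hb n => h.right (a n) (b n) (hb n)

theorem UNF_eng {S : Type u} [Ring S] (m : ℕ) (I : AddSubgroup S) (h : EngI m I) : EngI m (UNF_pi I) := by
  intro x y hx hy
  refine Units.ext (funext fun n => ?_)
  let ev : (ℕ → S)ˣ →* Sˣ := Units.map ((Pi.evalRingHom (fun _ : ℕ => S) n : (ℕ → S) →+* S) : (ℕ → S) →* S)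
  have hev : ∀ z : (ℕ → S)ˣ, ((ev z : Sˣ) : S) = (z : ℕ → S) n := fun z => rfl
  have hs : Function.Semiconj ev (fun z : (ℕ → S)ˣ => z⁻¹ * x⁻¹ * z * x) (fun z : Sˣ => z⁻¹ * (ev x)⁻¹ * z * ev x) := by
    intro z
    simp only [map_mul, map_inv]
  have h1 := hs.iterate_right m y
  have h2 := h (ev x) (ev y) (by rw [hev]; exact hx n) (by rw [hev]; exact hy n)
  rw [h2] at h1
  have h3 := hev ((fun z : (ℕ → S)ˣ => z⁻¹ * x⁻¹ * z * x)^[m] y)
  rw [h1] at h3
  rw [← h3]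
  rfl

theorem p_UNF (hTRA : Stmt_TRA.{u}) : Stmt_UNF.{u} := by
  intro S _ m p e I hI hu hE x hx hxq
  by_contra hcon
  push Not at hcon
  choose s hsI hs using hcon
  have hval : ∀ n : ℕ, ∀ j : ℕ, (((⟨fun _ => (x : S), fun _ => ((x⁻¹ : Sˣ) : S), funext fun _ => x.mul_inv, funext fun _ => x.inv_mul⟩ : (ℕ → S)ˣ) ^ j : (ℕ → S)ˣ) : ℕ → S) n = (x : S) ^ j := by
    intro n j
    rw [Units.val_pow_eq_pow_val]
    rfl
  obtain ⟨k, hk⟩ := hTRA (ℕ → S) m p e (UNF_pi I) (UNF_idl I hI)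
    (fun b hb => Pi.isUnit_iff.2 fun n => hu (b n) (hb n)) (UNF_eng m I hE)
    (⟨fun _ => (x : S), fun _ => ((x⁻¹ : Sˣ) : S), funext fun _ => x.mul_inv, funext fun _ => x.inv_mul⟩ : (ℕ → S)ˣ)
    (fun _ => hx)
    (by
      refine Units.ext (funext fun n => ?_)
      rw [hval, ← Units.val_pow_eq_pow_val, hxq]
      rfl)
    s hsI
  exact hs k (congrFun hk k)

end Pool.NR
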