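import Pool.Agent.Work.MP_3617d5_nr.Skel3
import Pool.Agent.Work.MP_3617d5_nr.B_LDE
import Pool.Agent.Work.MP_3617d5_nr.B_LIE
import Pool.Agent.Work.MP_3617d5_nr.B_PER
import Pool.Agent.Work.MP_3617d5_nr.B_NOP
import Pool.Agent.Work.MP_3617d5_nr.B_CIN
import Pool.Agent.Work.MP_3617d5_nr.B_CEN
import Pool.Agent.Work.MP_3617d5_nr.B_TRA
import Pool.Agent.Work.MP_3617d5_nr.B_UNF
import Pool.Agent.Work.MP_3617d5_nr.B_JLM
import Pool.Agent.Work.MP_3617d5_nr.B_GRC

/-!
# MP_3617d5_al, THEOREM NR: the two main theorems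
-/

set_option autoImplicit false

universe u

namespace Pool.NR

theorem all_unf : Stmt_UNF.{u} := p_UNF (p_TRA p_QUO (p_CEN p_LDE p_PER (p_CIN p_NOP)))

theorem nr_lie (p n m : ℕ) (hp : p.Prime) (hn : n < p) (hm : m < p) (G : Type u) [Group G] (hG : IsPGroup p G)
    (hE : Engel n G) (S : Type u) [Ring S] (hL : LieEngel m S) (f : G →* Sˣ)
    (hf : Group.IsSolvable f.ker) : Fitting G :=
  SK4_main_units (p_LIE p_LDE) p_JLM p_GRC p n m hp hn hm G hG hE S hL f hf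

theorem nr_adj (p n m : ℕ) (hp : p.Prime) (hn : n < p) (hm : m < p) (G : Type u) [Group G] (hG : IsPGroup p G)
    (hE : Engel n G) (R : Type u) [NonUnitalRing R] (hR : ∀ a : R, IsQuasiregular a)
    (hRE : Engel m (Adj R)) (f : G →* Adj R) (hf : Group.IsSolvable f.ker) : Fitting G :=
  SK4_main_adj all_unf p_JLM p_GRC p n m hp hn hm G hG hE R hR hRE f hf

end Pool.NR
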