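import Pool.Agent.Work.MP_3617d5_nr.Interface

/-! # Block IND of THEOREM NR -/

set_option autoImplicit false

open Nat

universe u

namespace Pool.NR

theorem IND_append {S : Type u} [Ring S] (z a : S) (l l' : List S) :
    zw z (l ++ a :: l') = zw z l * a * zw z l' := by
  induction l with
  | nil => rfl
  | cons b l ih =>
    rw [List.cons_append]
    change z * b * zw z (l ++ a :: l') = z * b * zw z l * a * zw z l'
    rw [ih]
    simp only [mul_assoc]

theorem IND_map {S S' : Type u} [Ring S] [Ring S'] (π : S →+* S') (z : S) (l : List S) :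
    π (zw z l) = zw (π z) (l.map π) := by
  induction l with
  | nil => rfl
  | cons b l ih =>
    change π (z * b * zw z l) = π z * π b * zw (π z) (l.map π)
    rw [map_mul, map_mul, ih]

theorem IND_factor {S : Type u} [Ring S] (T : AddSubgroup S) (hT : IdI T) (z : S) (N : ℕ)
    (hN : ∀ l : List S, l.length = N → zw z l ∈ T) (m : ℕ) :
    ∀ L : List S, L.length = m * (N + 1) + N →
      ∃ l : List S, l.length = m + 1 ∧ (∀ b ∈ l, b ∈ T) ∧ l.prod = zw z L := by
  induction m with
  | zero =>
    intro L hL
    refine ⟨[zw z L], rfl, ?_, by simp⟩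
    intro b hb
    rw [List.mem_singleton] at hb
    rw [hb]
    exact hN L (by simpa using hL)
  | succ m ih =>
    intro L hL
    have h1 : N < L.length := by
      rw [hL]
      nlinarith [Nat.zero_le (m * (N + 1))]
    have hsplit : L = L.take N ++ L[N] :: L.drop (N + 1) := by
      rw [← List.drop_eq_getElem_cons h1, List.take_append_drop]
    have hlen : (L.drop (N + 1)).length = m * (N + 1) + N := by
      rw [List.length_drop, hL]
      have : (m + 1) * (N + 1) + N = m * (N + 1) + N + (N + 1) := by ring
      omega
    obtain ⟨l, hl1, hl2, hl3⟩ := ih (L.drop (N + 1)) hlen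
    refine ⟨(zw z (L.take N) * L[N]) :: l, by simp [hl1], ?_, ?_⟩
    · intro b hb
      rcases List.mem_cons.1 hb with h | h
      · rw [h]
        exact hT.right _ _ (hN _ (by rw [List.length_take]; omega))
      · exact hl2 b h
    · rw [List.prod_cons, hl3]
      conv_rhs => rw [hsplit]
      rw [IND_append]

theorem p_IND (hTCL : Stmt_TCL.{u}) (hQUO : Stmt_QUO.{u}) : Stmt_IND.{u} := by
  intro n Good h1 h2 h3
  have key : ∀ k : ℕ, ∀ (S : Type u) [Ring S] (I : AddSubgroup S), Good S I → ∀ z ∈ I,
      z ^ k = 0 → NilGen z := by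
    intro k
    induction k with
    | zero =>
      intro S _ I _ z _ hz
      rw [pow_zero] at hz
      refine ⟨0, fun l _ => ?_⟩
      rw [← mul_one (zw z l), hz, mul_zero]
    | succ k ih =>
      intro S _ I hG z hzI hz
      rcases Nat.eq_zero_or_pos k with hk | hk
      · subst hk
        rw [zero_add, pow_one] at hz
        refine ⟨0, fun l hl => ?_⟩
        rw [List.length_eq_zero_iff] at hl
        subst hl
        exact hz
      · obtain ⟨hI, hTF⟩ := h1 S I hG
        have hyI : z ^ k ∈ I := by
          obtain ⟨j, rfl⟩ : ∃ j, k = j + 1 := ⟨k - 1, by omega⟩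
          rw [pow_succ]
          exact hI.left _ _ hzI
        have hyy : z ^ k * z ^ k = 0 := by
          have : k + k = (k + 1) + (k - 1) := by omega
          rw [← pow_add, this, pow_add, hz, zero_mul]
        have hy := h2 S I hG _ hyI hyy
        obtain ⟨T, hT, hyT, hTI, ⟨M, hM⟩, hsat⟩ := hTCL S n I hI hTF _ hyI hy
        obtain ⟨S', _, π, hπ, hker⟩ := hQUO S T hT
        have hTF' : TF n (I.map π.toAddMonoidHom) := by
          intro b hb hb2
          obtain ⟨c, hc, rfl⟩ := AddSubgroup.mem_map.1 hb
          have h4 : π (n ! • c) = 0 := by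
            rw [map_nsmul]
            exact hb2
          have h5 := hsat c hc ((hker _).1 h4)
          exact (hker c).2 h5
        have hG' := h3 S I S' π hπ hG hTF'
        have hzk : (π z) ^ k = 0 := by
          rw [← map_pow]
          exact (hker _).2 hyT
        obtain ⟨N, hN⟩ := ih S' _ hG' (π z) (AddSubgroup.mem_map.2 ⟨z, hzI, rfl⟩) hzk
        have hN' : ∀ l : List S, l.length = N → zw z l ∈ T := by
          intro l hl
          rw [← hker, IND_map]
          exact hN _ (by rw [List.length_map, hl])
        refine ⟨M * (N + 1) + N, fun L hL => ?_⟩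
        obtain ⟨l, hl1, hl2, hl3⟩ := IND_factor T hT z N hN' M L hL
        rw [← hl3]
        obtain ⟨b, l', rfl⟩ : ∃ b l', l = b :: l' := by
          cases l with
          | nil => simp at hl1
          | cons b l' => exact ⟨b, l', rfl⟩
        rw [List.prod_cons, hM l' (by simpa using hl1)
          (fun c hc => hl2 c (List.mem_cons_of_mem _ hc)), mul_zero]
  intro S _ I hG z hz hnil
  obtain ⟨k, hk⟩ := hnil
  exact key k S I hG z hz hk

end Pool.NR
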