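import Pool.Agent.Work.MP_3617d5_nr.Interface

set_option autoImplicit false

/-! # THEOREM NR, block ABE: commuting unipotent operators -/

open Nat

universe u

namespace Pool.NR

theorem ABE_coef (e : ℕ) :
    ∑ t ∈ Finset.range (e + 1), ((-1 : ℤ) ^ (e - t) * (e.choose t : ℤ)) * (t : ℤ) ^ e
      = (e ! : ℤ) := by
  have h1 := fwdDiff_iter_eq_sum_shift (1 : ℤ) (fun r : ℤ => r ^ e) e 0
  have h2 : ∑ t ∈ Finset.range (e + 1), ((-1 : ℤ) ^ (e - t) * (e.choose t : ℤ)) * (t : ℤ) ^ e
      = ∑ t ∈ Finset.range (e + 1), ((-1 : ℤ) ^ (e - t) * (e.choose t : ℤ)) •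
          (fun r : ℤ => r ^ e) (0 + t • (1 : ℤ)) := by
    refine Finset.sum_congr rfl fun t _ => ?_
    simp
  rw [h2, ← h1]
  have := fwdDiff_iter_eq_factorial (R := ℤ) (n := e)
  rw [this]
  rfl

theorem ABE_alt {Z A : Type u} [CommGroup Z] [CommRing A] (χ : Z →* A) (n : ℕ) (c : ℕ → A)
    (hc : ∀ g, ∑ k ∈ Finset.range (n + 1), c k * χ g ^ k = 0) : ∀ (l : List Z) (g : Z),
      ∑ k ∈ Finset.range (n + 1), c k * (l.map fun h => χ h ^ k - 1).prod * χ g ^ k = 0 := by
  intro l
  induction l with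
  | nil => intro g; simpa using hc g
  | cons h l ih =>
    intro g
    have h1 := ih (h * g)
    have h2 := ih g
    have h3 : ∑ k ∈ Finset.range (n + 1),
        c k * ((h :: l).map fun h => χ h ^ k - 1).prod * χ g ^ k
        = ∑ k ∈ Finset.range (n + 1), c k * (l.map fun h => χ h ^ k - 1).prod * χ (h * g) ^ k
          - ∑ k ∈ Finset.range (n + 1), c k * (l.map fun h => χ h ^ k - 1).prod * χ g ^ k := by
      rw [← Finset.sum_sub_distrib]
      refine Finset.sum_congr rfl fun k _ => ?_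
      rw [List.map_cons, List.prod_cons, map_mul, mul_pow]
      ring
    rw [h3, h1, h2, sub_zero]

theorem ABE_comm {Z A : Type u} [CommGroup Z] [CommRing A] (χ : Z →* A) (n : ℕ)
    (tf : ∀ a : A, n ! • a = 0 → a = 0) (hn : ∀ g, (χ g - 1) ^ n = 0) (l : List Z)
    (hl : l.length = n) : (l.map fun g => χ g - 1).prod = 0 := by
  set c : ℕ → A := fun k => (((-1 : ℤ) ^ (n - k) * (n.choose k : ℤ) : ℤ) : A) with hc
  set P : A := (l.map fun g => χ g - 1).prod with hP
  set Q : A := ∑ k ∈ Finset.range (n + 1),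
    c k * (l.map fun h => ∑ i ∈ Finset.range k, χ h ^ i).prod with hQ
  have h0 : ∀ g, ∑ k ∈ Finset.range (n + 1), c k * χ g ^ k = 0 := by
    intro g
    have h1 := hn g
    rw [sub_eq_add_neg, add_pow] at h1
    rw [← h1]
    refine Finset.sum_congr rfl fun k _ => ?_
    simp only [hc]
    push_cast
    ring
  have hPQ : P * Q = 0 := by
    have h1 := ABE_alt χ n c h0 l 1
    rw [← h1, hQ, Finset.mul_sum]
    refine Finset.sum_congr rfl fun k _ => ?_
    have h2 : (l.map fun h => χ h ^ k - 1).prod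
        = P * (l.map fun h => ∑ i ∈ Finset.range k, χ h ^ i).prod := by
      rw [hP, ← List.prod_map_mul]
      congr 1
      refine List.map_congr_left fun h _ => ?_
      rw [mul_geom_sum]
    rw [h2, map_one, one_pow, mul_one]
    ring
  have hnil : ∀ g, χ g - 1 ∈ nilradical A := fun g => mem_nilradical.2 ⟨n, hn g⟩
  have hw : Q - (n ! : A) ∈ nilradical A := by
    rw [← Ideal.Quotient.eq_zero_iff_mem]
    have hχ : ∀ g, Ideal.Quotient.mk (nilradical A) (χ g) = 1 := by
      intro g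
      have := Ideal.Quotient.eq_zero_iff_mem.2 (hnil g)
      rw [map_sub, map_one, sub_eq_zero] at this
      exact this
    rw [map_sub, sub_eq_zero, hQ, map_sum]
    have h1 : ∀ k ∈ Finset.range (n + 1), Ideal.Quotient.mk (nilradical A)
        (c k * (l.map fun h => ∑ i ∈ Finset.range k, χ h ^ i).prod)
        = ((((-1 : ℤ) ^ (n - k) * (n.choose k : ℤ)) * (k : ℤ) ^ n : ℤ) : A ⧸ nilradical A) := by
      intro k _
      rw [map_mul, map_list_prod, List.map_map]
      have h2 : ∀ h ∈ l, (⇑(Ideal.Quotient.mk (nilradical A)) ∘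
          fun h => ∑ i ∈ Finset.range k, χ h ^ i) h = (k : A ⧸ nilradical A) := by
        intro h _
        rw [Function.comp_apply, map_sum]
        simp only [map_pow, hχ, one_pow, Finset.sum_const, Finset.card_range, nsmul_eq_mul, mul_one]
      rw [List.map_congr_left h2, List.map_const', List.prod_replicate, hl, hc]
      push_cast
      simp only [map_mul, map_pow, map_neg, map_one, map_natCast]
    rw [Finset.sum_congr rfl h1, ← Int.cast_sum, ABE_coef n]
    simp
  obtain ⟨j, hj⟩ := mem_nilradical.1 hw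
  have hstep : ∀ i : ℕ, P * (n ! : A) ^ i = P * (-(Q - (n ! : A))) ^ i := by
    intro i
    induction i with
    | zero => simp
    | succ i ih =>
      have h3 : P * (n ! : A) = P * (-(Q - (n ! : A))) := by
        have : P * (-(Q - (n ! : A))) = P * (n ! : A) - P * Q := by ring
        rw [this, hPQ, sub_zero]
      calc P * (n ! : A) ^ (i + 1) = (P * (n ! : A) ^ i) * (n ! : A) := by ring
        _ = (P * (-(Q - (n ! : A))) ^ i) * (n ! : A) := by rw [ih]
        _ = (P * (n ! : A)) * (-(Q - (n ! : A))) ^ i := by ring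
        _ = (P * (-(Q - (n ! : A)))) * (-(Q - (n ! : A))) ^ i := by rw [h3]
        _ = P * (-(Q - (n ! : A))) ^ (i + 1) := by ring
  have hzero : P * (n ! : A) ^ j = 0 := by
    rw [hstep j, neg_pow, hj, mul_zero, mul_zero]
  have hdesc : ∀ i : ℕ, P * (n ! : A) ^ i = 0 → P = 0 := by
    intro i
    induction i with
    | zero => intro h; simpa using h
    | succ i ih =>
      intro h
      apply ih
      apply tf
      rw [nsmul_eq_mul, ← h]
      ring
  exact hdesc j hzero

theorem ABE_tor {V : Type u} [AddCommGroup V] (p n k : ℕ) (hp : p.Prime) (hn : n < p) (v : V)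
    (h1 : p ^ k • v = 0) (h2 : n ! • v = 0) : v = 0 := by
  have h3 := addOrderOf_dvd_of_nsmul_eq_zero h1
  have h4 := addOrderOf_dvd_of_nsmul_eq_zero h2
  have h5 : Nat.Coprime (p ^ k) (n !) := Nat.Coprime.pow_left k
    ((Nat.Prime.coprime_iff_not_dvd hp).2 fun h => by
      have := (hp.dvd_factorial).1 h
      omega)
  have h6 : addOrderOf v ∣ 1 := by
    have := Nat.dvd_gcd h3 h4
    rwa [Nat.Coprime.gcd_eq_one h5] at this
  exact AddMonoid.addOrderOf_eq_one_iff.1 (Nat.dvd_one.1 h6)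

/-- **Block ABE.** -/
theorem p_ABE : Stmt_ABE.{u} := by
  intro Z _ V _ ρ p n hp hnp hV hρ l hl
  let Φ : MonoidAlgebra ℤ Z →+* AddMonoid.End V :=
    (MonoidAlgebra.lift ℤ (AddMonoid.End V) Z ρ).toRingHom
  have hΦ : ∀ g, Φ (MonoidAlgebra.of ℤ Z g) = ρ g := by
    intro g
    change MonoidAlgebra.lift ℤ (AddMonoid.End V) Z ρ (MonoidAlgebra.of ℤ Z g) = ρ g
    exact MonoidAlgebra.lift_of ρ g
  let A := MonoidAlgebra ℤ Z ⧸ RingHom.ker Φ
  let Ψ : A →+* AddMonoid.End V := RingHom.kerLift Φ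
  have hinj : Function.Injective Ψ := RingHom.kerLift_injective Φ
  let χ : Z →* A := (Ideal.Quotient.mk (RingHom.ker Φ)).toMonoidHom.comp (MonoidAlgebra.of ℤ Z)
  have hχ : ∀ g, Ψ (χ g) = ρ g := by
    intro g
    rw [← hΦ g]
    exact RingHom.kerLift_mk Φ _
  have h1 : ∀ g, (χ g - 1) ^ n = 0 := by
    intro g
    apply hinj
    rw [map_pow, map_sub, map_one, hχ, map_zero]
    exact hρ g
  have h2 : ∀ a : A, n ! • a = 0 → a = 0 := by
    intro a ha
    apply hinj
    rw [map_zero]
    have h3 : n ! • Ψ a = 0 := by rw [← map_nsmul, ha, map_zero]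
    ext v
    obtain ⟨k, hk⟩ := hV (Ψ a v)
    refine ABE_tor p n k hp hnp _ hk ?_
    have h4 := DFunLike.congr_fun h3 v
    simpa using h4
  have h3 := ABE_comm χ n h2 h1 l hl
  have h4 := congrArg Ψ h3
  rw [map_list_prod, List.map_map, map_zero] at h4
  rw [← h4]
  congr 1
  refine List.map_congr_left fun g _ => ?_
  rw [Function.comp_apply, map_sub, map_one, hχ]

end Pool.NR
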