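import Pool.Agent.Work.MP_3617d5_nr.Interface

/-!
# MP_3617d5_al, THEOREM NR, block NAC: nilpotent groups of unipotent operators
-/

set_option autoImplicit false

open Nat

universe u

namespace Pool.NR

section

variable {Q : Type u} [Group Q] {V : Type u} [AddCommGroup V]

/-- the product of the operators along a list -/
def NAC_P (ρ : Q →* AddMonoid.End V) (l : List Q) : AddMonoid.End V :=
  (l.map fun g => ρ g - 1).prod

theorem NAC_nil (ρ : Q →* AddMonoid.End V) : NAC_P ρ [] = 1 := rfl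

theorem NAC_cons (ρ : Q →* AddMonoid.End V) (g : Q) (l : List Q) (v : V) :
    NAC_P ρ (g :: l) v = ρ g (NAC_P ρ l v) - NAC_P ρ l v := by
  unfold NAC_P
  rw [List.map_cons, List.prod_cons]
  rfl

theorem NAC_append (ρ : Q →* AddMonoid.End V) (l l' : List Q) (v : V) :
    NAC_P ρ (l ++ l') v = NAC_P ρ l (NAC_P ρ l' v) := by
  unfold NAC_P
  rw [List.map_append, List.prod_append]
  rfl

theorem NAC_center (ρ : Q →* AddMonoid.End V) (z g : Q) (hz : z ∈ Subgroup.center Q) :
    Commute (ρ z) (ρ g) := by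
  change ρ z * ρ g = ρ g * ρ z
  rw [← map_mul, ← map_mul, Subgroup.mem_center_iff.1 hz g]

theorem NAC_center' (ρ : Q →* AddMonoid.End V) (z g : Q) (hz : z ∈ Subgroup.center Q) :
    Commute (ρ z - 1) (ρ g) :=
  (NAC_center ρ z g hz).sub_left (Commute.one_left _)

/-- central products commute with the group -/
theorem NAC_comm (ρ : Q →* AddMonoid.End V) (l : List (Subgroup.center Q)) (g : Q) :
    Commute (NAC_P ρ (l.map Subtype.val)) (ρ g) := by
  unfold NAC_P
  apply Commute.list_prod_left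
  intro x hx
  rw [List.map_map, List.mem_map] at hx
  obtain ⟨z, -, rfl⟩ := hx
  exact NAC_center' ρ z g z.2

theorem NAC_comm' (ρ : Q →* AddMonoid.End V) (l : List (Subgroup.center Q)) (l' : List Q) :
    Commute (NAC_P ρ (l.map Subtype.val)) (NAC_P ρ l') := by
  have h : ∀ x ∈ l'.map (fun g => ρ g - 1), Commute (NAC_P ρ (l.map Subtype.val)) x := by
    intro x hx
    rw [List.mem_map] at hx
    obtain ⟨g, -, rfl⟩ := hx
    exact (NAC_comm ρ l g).sub_right (Commute.one_right _)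
  exact Commute.list_prod_right _ _ h

/-- the subgroup generated by the values of the products of `i` central operators -/
def NAC_W (ρ : Q →* AddMonoid.End V) (i : ℕ) : AddSubgroup V :=
  AddSubgroup.closure {w | ∃ l : List (Subgroup.center Q), l.length = i ∧
    ∃ v, NAC_P ρ (l.map Subtype.val) v = w}

theorem NAC_W_inv (ρ : Q →* AddMonoid.End V) (i : ℕ) (g : Q) :
    NAC_W ρ i ≤ (NAC_W ρ i).comap (ρ g : V →+ V) := by
  unfold NAC_W
  rw [AddSubgroup.closure_le]
  rintro w ⟨l, hl, v, rfl⟩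
  apply AddSubgroup.subset_closure
  refine ⟨l, hl, ρ g v, ?_⟩
  have h := (NAC_comm ρ l g).eq
  exact DFunLike.congr_fun h v

theorem NAC_W_central (ρ : Q →* AddMonoid.End V) (z : Subgroup.center Q) (v : V) :
    ρ (z : Q) v - v ∈ NAC_W ρ 1 := by
  apply AddSubgroup.subset_closure
  refine ⟨[z], rfl, v, ?_⟩
  rw [List.map_cons, List.map_nil, NAC_cons, NAC_nil]
  rfl

/-- the action on the quotient -/
def NAC_q1 (ρ : Q →* AddMonoid.End V) (U : AddSubgroup V)
    (hU : ∀ g : Q, U ≤ U.comap (ρ g : V →+ V)) : Q →* AddMonoid.End (V ⧸ U) where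
  toFun g := QuotientAddGroup.map U U (ρ g) (hU g)
  map_one' := by
    apply AddMonoidHom.ext
    intro x
    obtain ⟨v, rfl⟩ := QuotientAddGroup.mk_surjective x
    change ((ρ 1 v : V) : V ⧸ U) = (v : V ⧸ U)
    rw [map_one]
    rfl
  map_mul' g h := by
    apply AddMonoidHom.ext
    intro x
    obtain ⟨v, rfl⟩ := QuotientAddGroup.mk_surjective x
    change ((ρ (g * h) v : V) : V ⧸ U) = ((ρ g (ρ h v) : V) : V ⧸ U)
    rw [map_mul]
    rfl

theorem NAC_q1_apply (ρ : Q →* AddMonoid.End V) (U : AddSubgroup V)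
    (hU : ∀ g : Q, U ≤ U.comap (ρ g : V →+ V)) (g : Q) (v : V) :
    NAC_q1 ρ U hU g (v : V ⧸ U) = ((ρ g v : V) : V ⧸ U) := rfl

/-- Step 1: products of `N` operators map `V` to `W 1`. -/
theorem NAC_step1 (p n N : ℕ)
    (hN : ∀ (V : Type u) [AddCommGroup V] (ρ : (Q ⧸ Subgroup.center Q) →* AddMonoid.End V),
      (∀ v : V, ∃ k : ℕ, p ^ k • v = 0) → (∀ g, (ρ g - 1) ^ n = 0) →
      ∀ l : List (Q ⧸ Subgroup.center Q), l.length = N → (l.map fun g => ρ g - 1).prod = 0)
    (ρ : Q →* AddMonoid.End V) (hp : ∀ v : V, ∃ k : ℕ, p ^ k • v = 0)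
    (hn : ∀ g, (ρ g - 1) ^ n = 0) (l : List Q) (hl : l.length = N) (v : V) :
    NAC_P ρ l v ∈ NAC_W ρ 1 := by
  have hker : Subgroup.center Q ≤ (NAC_q1 ρ (NAC_W ρ 1) (NAC_W_inv ρ 1)).ker := by
    intro z hz
    rw [MonoidHom.mem_ker]
    apply AddMonoidHom.ext
    intro x
    obtain ⟨v, rfl⟩ := QuotientAddGroup.mk_surjective x
    change ((ρ z v : V) : V ⧸ NAC_W ρ 1) = (v : V ⧸ NAC_W ρ 1)
    rw [eq_comm, QuotientAddGroup.eq]
    have h1 := NAC_W_central ρ ⟨z, hz⟩ v
    have h2 : -v + ρ z v = ρ z v - v := by abel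
    rw [h2]
    exact h1
  have key : ∀ (l : List Q) (v : V),
      NAC_P (QuotientGroup.lift (Subgroup.center Q) _ hker)
        (l.map (QuotientGroup.mk : Q → Q ⧸ Subgroup.center Q)) (v : V ⧸ NAC_W ρ 1) = ((NAC_P ρ l v : V) : V ⧸ NAC_W ρ 1) := by
    intro l
    induction l with
    | nil => intro v; rfl
    | cons g l ih =>
      intro v
      rw [List.map_cons, NAC_cons, NAC_cons, ih]
      rfl
  have hz := hN (V ⧸ NAC_W ρ 1) (QuotientGroup.lift (Subgroup.center Q) _ hker) ?_ ?_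
    (l.map (QuotientGroup.mk : Q → Q ⧸ Subgroup.center Q)) (by rw [List.length_map, hl])
  · have h3 := key l v
    have h4 : NAC_P (QuotientGroup.lift (Subgroup.center Q) _ hker)
        (l.map (QuotientGroup.mk : Q → Q ⧸ Subgroup.center Q)) = 0 := hz
    rw [h4] at h3
    exact (QuotientAddGroup.eq_zero_iff _).1 h3.symm
  · intro x
    obtain ⟨v, rfl⟩ := QuotientAddGroup.mk_surjective x
    obtain ⟨k, hk⟩ := hp v
    refine ⟨k, ?_⟩
    have h5 : ((p ^ k • v : V) : V ⧸ NAC_W ρ 1) = 0 := by rw [hk]; rfl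
    exact h5
  · intro q
    obtain ⟨g, rfl⟩ := QuotientGroup.mk_surjective q
    apply AddMonoidHom.ext
    intro x
    obtain ⟨v, rfl⟩ := QuotientAddGroup.mk_surjective x
    have h6 := key (List.replicate n g) v
    have h7 : NAC_P ρ (List.replicate n g) = 0 := by
      unfold NAC_P
      rw [List.map_replicate, List.prod_replicate]
      exact hn g
    rw [h7, List.map_replicate] at h6
    unfold NAC_P at h6
    rw [List.map_replicate, List.prod_replicate] at h6
    exact h6

/-- Step 2: products of `N` operators map `W i` to `W (i + 1)`. -/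
theorem NAC_step2 (N : ℕ) (ρ : Q →* AddMonoid.End V)
    (h1 : ∀ (l : List Q), l.length = N → ∀ v : V, NAC_P ρ l v ∈ NAC_W ρ 1)
    (i : ℕ) (l : List Q) (hl : l.length = N) :
    ∀ v ∈ NAC_W ρ i, NAC_P ρ l v ∈ NAC_W ρ (i + 1) := by
  have hsub : NAC_W ρ i ≤ (NAC_W ρ (i + 1)).comap (NAC_P ρ l : V →+ V) := by
    conv_lhs => unfold NAC_W
    rw [AddSubgroup.closure_le]
    rintro w ⟨l', hl', v, rfl⟩
    change NAC_P ρ l (NAC_P ρ (l'.map Subtype.val) v) ∈ NAC_W ρ (i + 1)
    have h2 : NAC_P ρ l (NAC_P ρ (l'.map Subtype.val) v)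
        = NAC_P ρ (l'.map Subtype.val) (NAC_P ρ l v) :=
      DFunLike.congr_fun (NAC_comm' ρ l' l).eq.symm v
    rw [h2]
    have h3 : NAC_W ρ 1 ≤ (NAC_W ρ (i + 1)).comap (NAC_P ρ (l'.map Subtype.val) : V →+ V) := by
      conv_lhs => unfold NAC_W
      rw [AddSubgroup.closure_le]
      rintro w ⟨l'', hl'', v', rfl⟩
      change NAC_P ρ (l'.map Subtype.val) (NAC_P ρ (l''.map Subtype.val) v') ∈ NAC_W ρ (i + 1)
      rw [← NAC_append, ← List.map_append]
      apply AddSubgroup.subset_closure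
      refine ⟨l' ++ l'', ?_, v', rfl⟩
      rw [List.length_append, hl', hl'']
    exact h3 (h1 l hl v)
  intro v hv
  exact hsub hv

/-- Step 3: products of `i N` operators. -/
theorem NAC_step3 (N : ℕ) (ρ : Q →* AddMonoid.End V)
    (h1 : ∀ (l : List Q), l.length = N → ∀ v : V, NAC_P ρ l v ∈ NAC_W ρ 1) (v : V) :
    ∀ (i : ℕ) (l : List Q), l.length = i * N → NAC_P ρ l v ∈ NAC_W ρ i := by
  intro i
  induction i with
  | zero =>
    intro l hl
    apply AddSubgroup.subset_closure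
    exact ⟨[], rfl, _, rfl⟩
  | succ i ih =>
    intro l hl
    rw [← List.take_append_drop N l, NAC_append]
    apply NAC_step2 N ρ h1 i _ ?_ _ (ih _ ?_)
    · rw [List.length_take, hl]
      apply min_eq_left
      nlinarith
    · rw [List.length_drop, hl, Nat.succ_mul, Nat.add_sub_cancel]

end

theorem p_NAC (hABE : Stmt_ABE.{u}) : Stmt_NAC.{u} := by
  intro p n hp hnp Q _ _
  refine Group.nilpotent_center_quotient_ind (P := fun (Q : Type u) [Group Q] [Group.IsNilpotent Q] =>
    ∃ N : ℕ, ∀ (V : Type u) [AddCommGroup V] (ρ : Q →* AddMonoid.End V),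
      (∀ v : V, ∃ k : ℕ, p ^ k • v = 0) → (∀ g, (ρ g - 1) ^ n = 0) →
      ∀ l : List Q, l.length = N → (l.map fun g => ρ g - 1).prod = 0) Q ?_ ?_
  · intro G _ _
    refine ⟨1, ?_⟩
    intro V _ ρ _ _ l hl
    obtain ⟨g, rfl⟩ := List.length_eq_one_iff.1 hl
    have hg : g = 1 := Subsingleton.elim _ _
    rw [hg, List.map_cons, List.map_nil, List.prod_cons, List.prod_nil, map_one, sub_self,
      zero_mul]
  · intro G _ _ ih
    obtain ⟨N, hN⟩ := ih
    refine ⟨n * N, ?_⟩
    intro V _ ρ hpt hn l hl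
    apply AddMonoidHom.ext
    intro v
    have h1 : ∀ (l : List G), l.length = N → ∀ v : V, NAC_P ρ l v ∈ NAC_W ρ 1 :=
      fun l hl v => NAC_step1 p n N hN ρ hpt hn l hl v
    have h2 := NAC_step3 N ρ h1 v n l hl
    have h3 : NAC_W ρ n ≤ ⊥ := by
      unfold NAC_W
      rw [AddSubgroup.closure_le]
      rintro w ⟨l', hl', v', rfl⟩
      let _ : CommGroup (Subgroup.center G) :=
        { (inferInstance : Group (Subgroup.center G)) with
          mul_comm := fun a b => Subtype.ext (Subgroup.mem_center_iff.1 b.2 a) }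
      have h4 := hABE (Subgroup.center G) V (ρ.comp (Subgroup.center G).subtype) p n hp hnp hpt
        (fun g => hn g) l' hl'
      have h5 : NAC_P ρ (l'.map Subtype.val) = 0 := by
        unfold NAC_P
        rw [List.map_map]
        exact h4
      rw [h5]
      exact AddSubgroup.mem_bot.2 rfl
    exact AddSubgroup.mem_bot.1 (h3 h2)

end Pool.NR
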