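import Pool.Agent.Work.MP_3617d5_nr.Interface

set_option autoImplicit false

open Nat

universe u

namespace Pool.NR

/-- the elements `a * zw z l * b` with `l` of length `k` -/
def NGI_W {S : Type u} [Ring S] (z : S) (k : ℕ) : Set S :=
  {x : S | ∃ (a b : S) (l : List S), l.length = k ∧ x = a * zw z l * b}

theorem NGI_mul {S : Type u} [Ring S] (z : S) (k : ℕ) (t p : S)
    (ht : t ∈ AddSubgroup.closure {x : S | ∃ a b, x = a * z * b})
    (hp : p ∈ AddSubgroup.closure (NGI_W z k)) :
    t * p ∈ AddSubgroup.closure (NGI_W z (k + 1)) := by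
  induction ht using AddSubgroup.closure_induction with
  | mem x hx =>
    obtain ⟨a, b, rfl⟩ := hx
    induction hp using AddSubgroup.closure_induction with
    | mem y hy =>
      obtain ⟨a', b', l, hl, rfl⟩ := hy
      refine AddSubgroup.subset_closure ⟨a, b', (b * a') :: l, by simp [hl], ?_⟩
      simp only [zw, mul_assoc]
    | zero => rw [mul_zero]; exact zero_mem _
    | add y y' _ _ h h' => rw [mul_add]; exact add_mem h h'
    | neg y _ h => rw [mul_neg]; exact neg_mem h
  | zero => rw [zero_mul]; exact zero_mem _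
  | add x y _ _ h h' => rw [add_mul]; exact add_mem h h'
  | neg x _ h => rw [neg_mul]; exact neg_mem h

theorem NGI_prod {S : Type u} [Ring S] (z : S) (k : ℕ) : ∀ l : List S, l.length = k + 1 →
    (∀ b ∈ l, b ∈ AddSubgroup.closure {x : S | ∃ a b, x = a * z * b}) →
    l.prod ∈ AddSubgroup.closure (NGI_W z k) := by
  induction k with
  | zero =>
    intro l hl h
    obtain ⟨t, rfl⟩ := List.length_eq_one_iff.1 hl
    have ht := h t (by simp)
    rw [List.prod_singleton]
    refine AddSubgroup.closure_mono ?_ ht
    rintro x ⟨a, b, rfl⟩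
    exact ⟨a, b, [], rfl, rfl⟩
  | succ k ih =>
    intro l hl h
    match l, hl, h with
    | t :: l', hl, h =>
      rw [List.prod_cons]
      refine NGI_mul z k t _ (h t (by simp)) (ih l' (by simpa using hl) fun b hb => h b (by simp [hb]))

theorem p_NGI : Stmt_NGI.{u} := by
  intro S _ z hz
  refine ⟨⟨?_, ?_⟩, AddSubgroup.subset_closure ⟨1, 1, by simp⟩, ?_⟩
  · intro a b hb
    induction hb using AddSubgroup.closure_induction with
    | mem x hx =>
      obtain ⟨c, d, rfl⟩ := hx
      exact AddSubgroup.subset_closure ⟨a * c, d, by simp only [mul_assoc]⟩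
    | zero => rw [mul_zero]; exact zero_mem _
    | add y y' _ _ h h' => rw [mul_add]; exact add_mem h h'
    | neg y _ h => rw [mul_neg]; exact neg_mem h
  · intro a b hb
    induction hb using AddSubgroup.closure_induction with
    | mem x hx =>
      obtain ⟨c, d, rfl⟩ := hx
      exact AddSubgroup.subset_closure ⟨c, d * a, by simp only [mul_assoc]⟩
    | zero => rw [zero_mul]; exact zero_mem _
    | add y y' _ _ h h' => rw [add_mul]; exact add_mem h h'
    | neg y _ h => rw [neg_mul]; exact neg_mem h
  · obtain ⟨N, hN⟩ := hz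
    refine ⟨N + 1, fun l hl h => ?_⟩
    have h1 := NGI_prod z N l hl h
    have h2 : NGI_W z N ⊆ ((⊥ : AddSubgroup S) : Set S) := by
      rintro x ⟨a, b, l, hl, rfl⟩
      rw [hN l hl]
      simp
    have h3 := (AddSubgroup.closure_le _).2 h2 h1
    exact (AddSubgroup.mem_bot).1 h3

end Pool.NR
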