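import Pool.Agent.Work.MP_3617d5_nr.Interface

set_option autoImplicit false

/-! # THEOREM NR, block NHT: Nagata-Higman modulo an ideal -/

open Nat

universe u

namespace Pool.NR

/-- The part of degree `k` in `y` of `(x + y) ^ m`. -/
def NHT_P {S : Type u} [Ring S] (x y : S) : ℕ → ℕ → S
  | 0, 0 => 1
  | 0, _ + 1 => 0
  | m + 1, 0 => x * NHT_P x y m 0
  | m + 1, k + 1 => x * NHT_P x y m (k + 1) + y * NHT_P x y m k

theorem NHT_P_zero {S : Type u} [Ring S] (x y : S) (m : ℕ) : NHT_P x y m 0 = x ^ m := by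
  induction m with
  | zero => simp [NHT_P]
  | succ m ih => rw [NHT_P, ih, _root_.pow_succ']

theorem NHT_P_gt {S : Type u} [Ring S] (x y : S) : ∀ m k : ℕ, m < k → NHT_P x y m k = 0 := by
  intro m
  induction m with
  | zero =>
    intro k hk
    obtain ⟨k, rfl⟩ : ∃ j, k = j + 1 := ⟨k - 1, by omega⟩
    rfl
  | succ m ih =>
    intro k hk
    obtain ⟨k, rfl⟩ : ∃ j, k = j + 1 := ⟨k - 1, by omega⟩
    rw [NHT_P, ih (k + 1) (by omega), ih k (by omega)]
    simp

theorem NHT_P_pow {S : Type u} [Ring S] (x y : S) (t m : ℕ) :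
    (x + t • y) ^ m = ∑ k ∈ Finset.range (m + 1), (t ^ k) • NHT_P x y m k := by
  induction m with
  | zero => simp [NHT_P]
  | succ m ih =>
    rw [_root_.pow_succ', ih, add_mul, Finset.mul_sum, Finset.mul_sum, Finset.sum_range_succ' _ (m + 1)]
    have h1 : ∑ k ∈ Finset.range (m + 1), (t ^ (k + 1)) • NHT_P x y (m + 1) (k + 1)
        = ∑ k ∈ Finset.range (m + 1), (t ^ (k + 1)) • (x * NHT_P x y m (k + 1))
          + ∑ k ∈ Finset.range (m + 1), (t • y) * ((t ^ k) • NHT_P x y m k) := by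
      rw [← Finset.sum_add_distrib]
      refine Finset.sum_congr rfl fun k _ => ?_
      rw [NHT_P, smul_add, _root_.pow_succ', mul_smul t (t ^ k) (y * _)]
      congr 1
      rw [smul_mul_assoc, mul_smul_comm]
    have h2 : ∑ k ∈ Finset.range (m + 1), x * ((t ^ k) • NHT_P x y m k)
        = ∑ k ∈ Finset.range (m + 1), (t ^ (k + 1)) • (x * NHT_P x y m (k + 1))
          + (t ^ 0) • NHT_P x y (m + 1) 0 := by
      have h3 : ∑ k ∈ Finset.range (m + 1), (t ^ (k + 1)) • (x * NHT_P x y m (k + 1))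
          + (t ^ 0) • (x * NHT_P x y m 0)
          = ∑ k ∈ Finset.range (m + 1 + 1), (t ^ k) • (x * NHT_P x y m k) := by
        rw [Finset.sum_range_succ' _ (m + 1)]
      rw [NHT_P, h3, Finset.sum_range_succ _ (m + 1), NHT_P_gt x y m (m + 1) (by omega)]
      simp only [mul_zero, smul_zero, add_zero]
      refine Finset.sum_congr rfl fun k _ => ?_
      rw [mul_smul_comm]
    rw [h1, h2]
    abel

theorem NHT_P_mem {S : Type u} [Ring S] (B : AddSubgroup S) (hB : ∀ a ∈ B, ∀ b ∈ B, a * b ∈ B)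
    (x y : S) (hx : x ∈ B) (hy : y ∈ B) : ∀ m k : ℕ, NHT_P x y (m + 1) k ∈ B := by
  intro m
  induction m with
  | zero =>
    intro k
    rcases k with _ | k
    · rw [NHT_P, NHT_P, mul_one]; exact hx
    · rcases k with _ | k
      · rw [NHT_P, NHT_P, NHT_P, mul_one, mul_zero, zero_add]; exact hy
      · rw [NHT_P, NHT_P, NHT_P, mul_zero, mul_zero, zero_add]; exact B.zero_mem
  | succ m ih =>
    intro k
    rcases k with _ | k
    · rw [NHT_P]; exact hB _ hx _ (ih 0)
    · rw [NHT_P]; exact B.add_mem (hB _ hx _ (ih _)) (hB _ hy _ (ih _))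

theorem NHT_coef (e k : ℕ) (hk : k ≤ e) :
    ∑ t ∈ Finset.range (e + 1), ((-1 : ℤ) ^ (e - t) * (e.choose t : ℤ)) * (t : ℤ) ^ k
      = if k = e then (e ! : ℤ) else 0 := by
  have h1 := fwdDiff_iter_eq_sum_shift (1 : ℤ) (fun r : ℤ => r ^ k) e 0
  have h2 : ∑ t ∈ Finset.range (e + 1), ((-1 : ℤ) ^ (e - t) * (e.choose t : ℤ)) * (t : ℤ) ^ k
      = ∑ t ∈ Finset.range (e + 1), ((-1 : ℤ) ^ (e - t) * (e.choose t : ℤ)) •
          (fun r : ℤ => r ^ k) (0 + t • (1 : ℤ)) := by
    refine Finset.sum_congr rfl fun t _ => ?_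
    simp
  rw [h2, ← h1]
  split_ifs with h
  · subst h
    have := fwdDiff_iter_eq_factorial (R := ℤ) (n := k)
    rw [this]
    rfl
  · have := fwdDiff_iter_pow_eq_zero_of_lt (R := ℤ) (lt_of_le_of_ne hk h)
    rw [this]
    rfl

theorem NHT_top {S : Type u} [Ring S] (q : ℕ → S) (e : ℕ) :
    ∑ t ∈ Finset.range (e + 1), ((-1 : ℤ) ^ (e - t) * (e.choose t : ℤ)) •
      (∑ k ∈ Finset.range (e + 1), (t ^ k) • q k) = (e !) • q e := by
  have h1 : ∀ t ∈ Finset.range (e + 1), ((-1 : ℤ) ^ (e - t) * (e.choose t : ℤ)) •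
      (∑ k ∈ Finset.range (e + 1), (t ^ k) • q k)
      = ∑ k ∈ Finset.range (e + 1), (((-1 : ℤ) ^ (e - t) * (e.choose t : ℤ)) * (t : ℤ) ^ k) • q k := by
    intro t _
    rw [Finset.smul_sum]
    refine Finset.sum_congr rfl fun k _ => ?_
    rw [mul_smul _ ((t : ℤ) ^ k) (q k)]
    congr 1
    rw [← natCast_zsmul]
    push_cast
    rfl
  rw [Finset.sum_congr rfl h1, Finset.sum_comm]
  have h2 : ∀ k ∈ Finset.range (e + 1), ∑ t ∈ Finset.range (e + 1),
      (((-1 : ℤ) ^ (e - t) * (e.choose t : ℤ)) * (t : ℤ) ^ k) • q k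
      = if k = e then (e !) • q e else 0 := by
    intro k hk
    rw [← Finset.sum_smul, NHT_coef e k (by have := Finset.mem_range.1 hk; omega)]
    split_ifs with h
    · subst h
      rw [natCast_zsmul]
    · simp
  rw [Finset.sum_congr rfl h2, Finset.sum_ite_eq' (Finset.range (e + 1)) e]
  simp

theorem NHT_interp {S : Type u} [Ring S] (B T : AddSubgroup S) (N : ℕ)
    (hsat : ∀ b ∈ B, N ! • b ∈ T → b ∈ T) : ∀ d : ℕ, d ≤ N → ∀ q : ℕ → S, (∀ k, q k ∈ B) →
      (∀ t : ℕ, ∑ k ∈ Finset.range (d + 1), (t ^ k) • q k ∈ T) → ∀ k ≤ d, q k ∈ T := by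
  intro d
  induction d with
  | zero =>
    intro _ q _ hT k hk
    have := hT 0
    obtain rfl : k = 0 := by omega
    simpa using this
  | succ d ih =>
    intro hd q hq hT
    have htop : q (d + 1) ∈ T := by
      have h1 := NHT_top q (d + 1)
      have h2 : ((d + 1)!) • q (d + 1) ∈ T := by
        rw [← h1]
        exact T.sum_mem fun t _ => T.zsmul_mem (hT t) _
      apply hsat _ (hq _)
      obtain ⟨c, hc⟩ := Nat.factorial_dvd_factorial hd
      rw [hc, mul_comm, mul_smul]
      exact T.nsmul_mem h2 c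
    have hrest : ∀ k ≤ d, q k ∈ T := by
      apply ih (by omega) q hq
      intro t
      have h3 := hT t
      rw [Finset.sum_range_succ] at h3
      have h4 := T.sub_mem h3 (T.nsmul_mem htop (t ^ (d + 1)))
      rwa [add_sub_cancel_right] at h4
    intro k hk
    rcases Nat.lt_or_ge k (d + 1) with h | h
    · exact hrest k (by omega)
    · obtain rfl : k = d + 1 := by omega
      exact htop

/-- The linearisation. -/
theorem NHT_P_one {S : Type u} [Ring S] (x y : S) (m : ℕ) :
    NHT_P x y m 1 = ∑ i ∈ Finset.range m, x ^ i * y * x ^ (m - 1 - i) := by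
  induction m with
  | zero => simp [NHT_P]
  | succ m ih =>
    rw [NHT_P, ih, NHT_P_zero, Finset.sum_range_succ', Finset.mul_sum]
    congr 1
    · refine Finset.sum_congr rfl fun i hi => ?_
      have hi' := Finset.mem_range.1 hi
      rw [_root_.pow_succ', show m + 1 - 1 - (i + 1) = m - 1 - i by omega]
      simp only [mul_assoc]
    · simp

theorem NHT_lin {S : Type u} [Ring S] (B T : AddSubgroup S) (n : ℕ)
    (hB : ∀ a ∈ B, ∀ b ∈ B, a * b ∈ B)
    (hsat : ∀ b ∈ B, (n + 1)! • b ∈ T → b ∈ T) (hpow : ∀ x ∈ B, x ^ (n + 1) ∈ T)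
    (x y : S) (hx : x ∈ B) (hy : y ∈ B) :
    ∑ i ∈ Finset.range (n + 1), x ^ i * y * x ^ (n - i) ∈ T := by
  have h := NHT_interp B T (n + 1) hsat (n + 1) le_rfl (fun k => NHT_P x y (n + 1) k)
    (fun k => NHT_P_mem B hB x y hx hy n k) (fun t => by
      rw [← NHT_P_pow]
      exact hpow _ (B.add_mem hx (B.nsmul_mem hy t))) 1 (by omega)
  simpa [NHT_P_one] using h

theorem NHT_pow_mem {S : Type u} [Ring S] (B : AddSubgroup S) (hB : ∀ a ∈ B, ∀ b ∈ B, a * b ∈ B)
    (x : S) (hx : x ∈ B) (m : ℕ) : x ^ (m + 1) ∈ B := by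
  induction m with
  | zero => simpa using hx
  | succ m ih => rw [_root_.pow_succ]; exact hB _ ih _ hx

/-- For `x, y, z ∈ B` the element `x ^ n * z * y ^ n` is in `T`. -/
theorem NHT_key {S : Type u} [Ring S] (B T : AddSubgroup S) (n : ℕ)
    (hn : 1 ≤ n)
    (hB : ∀ a ∈ B, ∀ b ∈ B, a * b ∈ B) (hT : ∀ b ∈ B, ∀ t ∈ T, b * t ∈ T ∧ t * b ∈ T)
    (hsat : ∀ b ∈ B, (n + 1)! • b ∈ T → b ∈ T) (hpow : ∀ x ∈ B, x ^ (n + 1) ∈ T)
    (x y z : S) (hx : x ∈ B) (hy : y ∈ B) (hz : z ∈ B) : x ^ n * z * y ^ n ∈ T := by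
  have hxp : ∀ m, 1 ≤ m → x ^ m ∈ B := fun m hm => by
    obtain ⟨m, rfl⟩ : ∃ j, m = j + 1 := ⟨m - 1, by omega⟩
    exact NHT_pow_mem B hB x hx m
  have hyp : ∀ m, 1 ≤ m → y ^ m ∈ B := fun m hm => by
    obtain ⟨m, rfl⟩ : ∃ j, m = j + 1 := ⟨m - 1, by omega⟩
    exact NHT_pow_mem B hB y hy m
  -- the double sum
  set E : S := ∑ i ∈ Finset.range (n + 1), ∑ j ∈ Finset.range (n + 1),
    x ^ (n - i) * (z * y ^ j) * x ^ i * y ^ (n - j) with hE
  have h1 : E ∈ T := by
    rw [hE, Finset.sum_comm]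
    refine T.sum_mem fun j _ => ?_
    rw [← Finset.sum_mul]
    have hzy : z * y ^ j ∈ B := by
      rcases Nat.eq_zero_or_pos j with h | h
      · subst h; simpa using hz
      · exact hB _ hz _ (hyp j h)
    have h2 : ∑ i ∈ Finset.range (n + 1), x ^ (n - i) * (z * y ^ j) * x ^ i ∈ T := by
      have h3 := NHT_lin B T n hB hsat hpow x (z * y ^ j) hx hzy
      rw [← Finset.sum_range_reflect] at h3
      convert h3 using 1
      refine Finset.sum_congr rfl fun i hi => ?_
      have hi' := Finset.mem_range.1 hi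
      rw [show n + 1 - 1 - i = n - i by omega, show n - (n - i) = i by omega]
    rcases Nat.eq_zero_or_pos (n - j) with h | h
    · rw [h, pow_zero, mul_one]; exact h2
    · exact (hT _ (hyp _ h) _ h2).2
  have h4 : ∀ i ∈ Finset.range (n + 1), i ≠ 0 → ∑ j ∈ Finset.range (n + 1),
      x ^ (n - i) * (z * y ^ j) * x ^ i * y ^ (n - j) ∈ T := by
    intro i hi hi0
    have h5 : ∑ j ∈ Finset.range (n + 1), x ^ (n - i) * (z * y ^ j) * x ^ i * y ^ (n - j)
        = (x ^ (n - i) * z) * ∑ j ∈ Finset.range (n + 1), y ^ j * x ^ i * y ^ (n - j) := by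
      rw [Finset.mul_sum]
      refine Finset.sum_congr rfl fun j _ => ?_
      simp only [mul_assoc]
    rw [h5]
    have h6 := NHT_lin B T n hB hsat hpow y (x ^ i) hy (hxp i (by omega))
    have h7 : x ^ (n - i) * z ∈ B := by
      rcases Nat.eq_zero_or_pos (n - i) with h | h
      · rw [h, pow_zero, one_mul]; exact hz
      · exact hB _ (hxp _ h) _ hz
    exact (hT _ h7 _ h6).1
  have h8 : E = (∑ i ∈ Finset.range n, ∑ j ∈ Finset.range (n + 1),
      x ^ (n - (i + 1)) * (z * y ^ j) * x ^ (i + 1) * y ^ (n - j))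
      + (n + 1) • (x ^ n * z * y ^ n) := by
    rw [hE, Finset.sum_range_succ']
    congr 1
    have h9 : ∀ j ∈ Finset.range (n + 1), x ^ (n - 0) * (z * y ^ j) * x ^ 0 * y ^ (n - j)
        = x ^ n * z * y ^ n := by
      intro j hj
      have hj' := Finset.mem_range.1 hj
      have : y ^ n = y ^ j * y ^ (n - j) := by rw [← pow_add]; congr 1; omega
      rw [this]
      simp only [Nat.sub_zero, pow_zero, mul_one, mul_assoc]
    rw [Finset.sum_congr rfl h9, Finset.sum_const, Finset.card_range]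
  have h10 : (n + 1) • (x ^ n * z * y ^ n) ∈ T := by
    have h11 : (∑ i ∈ Finset.range n, ∑ j ∈ Finset.range (n + 1),
      x ^ (n - (i + 1)) * (z * y ^ j) * x ^ (i + 1) * y ^ (n - j)) ∈ T :=
      T.sum_mem fun i hi => h4 (i + 1) (by have := Finset.mem_range.1 hi; simp; omega) (by omega)
    have h12 := T.sub_mem h1 h11
    rwa [h8, add_sub_cancel_left] at h12
  apply hsat _ (hB _ (hB _ (hxp n hn) _ hz) _ (hyp n hn))
  rw [Nat.factorial_succ, mul_comm, mul_smul]
  exact T.nsmul_mem h10 _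

theorem NHT_prod_mem {S : Type u} [Ring S] (B : AddSubgroup S) (hB : ∀ a ∈ B, ∀ b ∈ B, a * b ∈ B) :
    ∀ l : List S, (∀ b ∈ l, b ∈ B) → ∀ z ∈ B, l.prod * z ∈ B := by
  intro l
  induction l with
  | nil => intro _ z hz; simpa using hz
  | cons a l ih =>
    intro hl z hz
    rw [List.prod_cons, mul_assoc]
    exact hB _ (hl a (by simp)) _ (ih (fun b hb => hl b (by simp [hb])) z hz)

/-- **Block NHT.** -/
theorem p_NHT : Stmt_NHT.{u} := by
  intro S _ B n hn hB
  induction n, hn using Nat.le_induction with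
  | base =>
    intro T _ _ hpow l hl hlB
    obtain ⟨a, rfl⟩ := List.length_eq_one_iff.1 (by simpa using hl)
    have := hpow a (hlB a (by simp))
    simpa using this
  | succ n hn ih =>
    intro T hT hsat hpow l hl hlB
    have key := NHT_key B T n hn hB hT hsat hpow
    have hfac : ∀ b, n ! • b ∈ T → (n + 1)! • b ∈ T := by
      intro b hb
      rw [Nat.factorial_succ, mul_smul]
      exact T.nsmul_mem hb _
    -- first step
    let V : AddSubgroup S :=
      { carrier := {v | ∀ z ∈ B, ∀ y ∈ B, v * z * y ^ n ∈ T}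
        zero_mem' := by intro z _ y _; simp
        add_mem' := by
          intro a b ha hb z hz y hy
          rw [add_mul, add_mul]
          exact T.add_mem (ha z hz y hy) (hb z hz y hy)
        neg_mem' := by
          intro a ha z hz y hy
          rw [neg_mul, neg_mul]
          exact T.neg_mem (ha z hz y hy) }
    have hyn : ∀ y ∈ B, y ^ n ∈ B := by
      intro y hy
      obtain ⟨m, rfl⟩ : ∃ j, n = j + 1 := ⟨n - 1, by omega⟩
      exact NHT_pow_mem B hB y hy m
    have hV : ∀ w : List S, w.length = 2 ^ n - 1 → (∀ b ∈ w, b ∈ B) → w.prod ∈ V := by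
      apply ih V
      · intro b hb t ht
        constructor
        · intro z hz y hy
          have := (hT b hb _ (ht z hz y hy)).1
          simpa only [mul_assoc] using this
        · intro z hz y hy
          have := ht (b * z) (hB _ hb _ hz) y hy
          simpa only [mul_assoc] using this
      · intro b hb hbV z hz y hy
        apply hsat _ (hB _ (hB _ hb _ hz) _ (hyn y hy))
        apply hfac
        have := hbV z hz y hy
        rwa [smul_mul_assoc, smul_mul_assoc] at this
      · intro x hx z hz y hy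
        exact key x y z hx hy hz
    let V' : AddSubgroup S :=
      { carrier := {v | ∀ w : List S, w.length = 2 ^ n - 1 → (∀ b ∈ w, b ∈ B) → ∀ z ∈ B,
          w.prod * z * v ∈ T}
        zero_mem' := by intro w _ _ z _; simp
        add_mem' := by
          intro a b ha hb w hw hwB z hz
          rw [mul_add]
          exact T.add_mem (ha w hw hwB z hz) (hb w hw hwB z hz)
        neg_mem' := by
          intro a ha w hw hwB z hz
          rw [mul_neg]
          exact T.neg_mem (ha w hw hwB z hz) }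
    have hV' : ∀ w : List S, w.length = 2 ^ n - 1 → (∀ b ∈ w, b ∈ B) → w.prod ∈ V' := by
      apply ih V'
      · intro b hb t ht
        constructor
        · intro w hw hwB z hz
          have := ht w hw hwB (z * b) (hB _ hz _ hb)
          simpa only [mul_assoc] using this
        · intro w hw hwB z hz
          have := (hT b hb _ (ht w hw hwB z hz)).2
          simpa only [mul_assoc] using this
      · intro b hb hbV w hw hwB z hz
        apply hsat _ (hB _ (NHT_prod_mem B hB w hwB z hz) _ hb)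
        apply hfac
        have := hbV w hw hwB z hz
        rwa [mul_smul_comm] at this
      · intro x hx w hw hwB z hz
        exact hV w hw hwB z hz x hx
    -- split the list
    have hpos : 1 ≤ 2 ^ n := Nat.one_le_two_pow
    have hlen : l.length = (2 ^ n - 1) + (1 + (2 ^ n - 1)) := by
      rw [hl, _root_.pow_succ]; omega
    obtain ⟨l1, l2, hl12, hl1⟩ : ∃ l1 l2 : List S, l = l1 ++ l2 ∧ l1.length = 2 ^ n - 1 :=
      ⟨l.take (2 ^ n - 1), l.drop (2 ^ n - 1), (List.take_append_drop _ _).symm, by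
        rw [List.length_take]; omega⟩
    have hl2 : l2.length = (2 ^ n - 1) + 1 := by
      rw [hl12, List.length_append] at hlen; omega
    obtain ⟨a, l3, rfl, hl3⟩ := List.exists_of_length_succ l2 hl2 |>.elim fun a h =>
      h.elim fun l3 h => (⟨a, l3, h, by rw [h] at hl2; simpa using hl2⟩ :
        ∃ a l3, l2 = a :: l3 ∧ l3.length = 2 ^ n - 1)
    rw [hl12, List.prod_append, List.prod_cons, ← mul_assoc]
    exact hV' l3 hl3 (fun b hb => hlB b (by rw [hl12]; simp [hb])) l1 hl1
      (fun b hb => hlB b (by rw [hl12]; simp [hb])) a (hlB a (by rw [hl12]; simp))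

end Pool.NR
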