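import Pool.Agent.Work.MP_3617d5_nr.Interface

/-!
# MP_3617d5_al, THEOREM NR: block QUO (the quotient ring)
-/

set_option autoImplicit false

open Nat

universe u

namespace Pool.NR

theorem p_QUO : Stmt_QUO.{u} := by
  intro S _ T hT
  let I : TwoSidedIdeal S := TwoSidedIdeal.mk' (T : Set S) T.zero_mem
    (fun {x y} hx hy => T.add_mem hx hy) (fun {x} hx => T.neg_mem hx)
    (fun {x y} hy => hT.left x y hy) (fun {x y} hx => hT.right y x hx)
  have hI : ∀ a, a ∈ I ↔ a ∈ T := by
    intro a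
    exact TwoSidedIdeal.mem_mk' _ _ _ _ _ _ _
  refine ⟨I.ringCon.Quotient, inferInstance, I.ringCon.mk', RingCon.mk'_surjective _, fun a => ?_⟩
  rw [← hI a, TwoSidedIdeal.mem_iff, ← map_zero I.ringCon.mk']
  exact RingCon.eq _

end Pool.NR
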