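import Pool.Agent.Work.MP_3617d5_nr.Interface

/-!
# MP_3617d5_al, THEOREM NR: block SOL (soluble Engel groups)
-/

set_option autoImplicit false

open Nat

universe u

namespace Pool.NR

theorem SOL_map {G H : Type u} [Group G] [Group H] (f : G →* H) (hf : Function.Surjective f)
    (n : ℕ) (h : Engel n G) : Engel n H := by
  intro x y
  obtain ⟨a, rfl⟩ := hf x
  obtain ⟨b, rfl⟩ := hf y
  have hs : Function.Semiconj f (fun z : G => z⁻¹ * a⁻¹ * z * a)
      (fun z : H => z⁻¹ * (f a)⁻¹ * z * f a) := by
    intro z
    simp only [map_mul, map_inv]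
  have h1 := (hs.iterate_right n) b
  rw [← h1, h a b, map_one]

theorem SOL_ind (hEXT : Stmt_EXT.{u}) (p n : ℕ) (hp : p.Prime) (hn : n < p) : ∀ (d : ℕ)
    (G : Type u) [Group G], IsPGroup p G → Engel n G → derivedSeries G d = ⊥ →
    Group.IsNilpotent G := by
  intro d
  induction d with
  | zero =>
    intro G _ hG hE hd
    rw [derivedSeries_zero] at hd
    have : Subsingleton G := Subgroup.subsingleton_iff.mp (subsingleton_of_top_eq_bot hd)
    infer_instance
  | succ d ih =>
    intro G _ hG hE hd
    have hN : (derivedSeries G d).Normal := inferInstance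
    rw [derivedSeries_succ, Subgroup.commutator_eq_bot_iff_le_centralizer] at hd
    refine hEXT G p n hp hn hG hE (derivedSeries G d) ?_ ?_
    · intro a ha b hb
      exact (Subgroup.mem_centralizer_iff.mp (hd ha) b hb).symm
    · refine ih (G ⧸ derivedSeries G d) (hG.to_quotient _)
        (SOL_map (QuotientGroup.mk' (derivedSeries G d)) (QuotientGroup.mk'_surjective _) n hE) ?_
      rw [← map_derivedSeries_eq (QuotientGroup.mk'_surjective (derivedSeries G d)) d]
      exact QuotientGroup.map_mk'_self _

theorem p_SOL (hEXT : Stmt_EXT.{u}) : Stmt_SOL.{u} := by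
  intro G _ p n hp hn hG hE hS
  obtain ⟨d, hd⟩ := hS.solvable
  exact SOL_ind hEXT p n hp hn d G hG hE hd

end Pool.NR
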