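import Pool.Agent.Work.MP_3617d5_nr.Interface

set_option autoImplicit false

open Nat

universe u

namespace Pool.NR

theorem EXT_iter {G : Type u} [Group G] {B : Type u} [CommGroup B] (ι : B →* G)
    (ρ : G →* AddMonoid.End (Additive B))
    (hρ : ∀ (g : G) (a : Additive B), ι (ρ g a).toMul = g * ι a.toMul * g⁻¹)
    (x : G) (k : ℕ) (a : Additive B) :
    (fun z : G => z⁻¹ * x⁻¹ * z * x)^[k] (ι a.toMul) = ι (((ρ x⁻¹ - 1) ^ k) a).toMul := by
  induction k with
  | zero => simp
  | succ k ih =>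
    rw [Function.iterate_succ_apply', ih, _root_.pow_succ']
    set b := ((ρ x⁻¹ - 1) ^ k) a with hb
    have e1 : ((ρ x⁻¹ - 1) * (ρ x⁻¹ - 1) ^ k) a = ρ x⁻¹ b - b := rfl
    rw [e1]
    have e2 : (ρ x⁻¹ b - b).toMul = (b.toMul)⁻¹ * (ρ x⁻¹ b).toMul := by
      rw [toMul_sub, div_eq_mul_inv, mul_comm]
    rw [e2, map_mul, hρ, map_inv, inv_inv]
    group

theorem EXT_main (hNAC : Stmt_NAC.{u}) {G : Type u} [Group G] (p n : ℕ) (hp : p.Prime) (hn : n < p)
    (hG : IsPGroup p G) (hE : Engel n G) {B : Type u} [CommGroup B] (ι : B →* G)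
    (hinj : Function.Injective ι) (A : Subgroup G) [A.Normal] (hA : ∀ g, g ∈ A ↔ ∃ b, ι b = g)
    (ρ : G →* AddMonoid.End (Additive B))
    (hρ : ∀ (g : G) (a : Additive B), ι (ρ g a).toMul = g * ι a.toMul * g⁻¹)
    (hnil : Group.IsNilpotent (G ⧸ A)) : Group.IsNilpotent G := by
  have hker : ∀ g ∈ A, ρ g = 1 := by
    intro g hg
    obtain ⟨b, rfl⟩ := (hA g).1 hg
    ext a
    apply hinj
    have := hρ (ι b) a
    have e : ι b * ι a.toMul * (ι b)⁻¹ = ι a.toMul := by
      rw [← map_mul, mul_comm, map_mul, mul_inv_cancel_right]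
    rw [e] at this
    exact this
  have hV : ∀ v : Additive B, ∃ k : ℕ, p ^ k • v = 0 := by
    intro v
    obtain ⟨k, hk⟩ := hG (ι v.toMul)
    refine ⟨k, ?_⟩
    have : (v.toMul) ^ (p ^ k) = 1 := by
      apply hinj
      rw [map_pow, hk, map_one]
    exact this
  have hpow : ∀ g, (ρ g - 1) ^ n = 0 := by
    intro g
    ext a
    apply hinj
    have h1 := EXT_iter ι ρ hρ g⁻¹ n a
    rw [inv_inv] at h1
    have h2 := hE g⁻¹ (ι a.toMul)
    rw [inv_inv] at h2
    rw [h2] at h1
    have h3 : ι (((ρ g - 1) ^ n) a).toMul = ι 1 := by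
      rw [← h1, map_one]
    exact h3
  obtain ⟨N, hN⟩ := hNAC p n hp hn (G ⧸ A)
  have hN' := hN (Additive B) (QuotientGroup.lift A ρ hker) hV (by
    intro q
    obtain ⟨g, rfl⟩ := QuotientGroup.mk_surjective q
    exact hpow g)
  have hprod : ∀ l : List G, l.length = N → (l.map fun g => ρ g - 1).prod = 0 := by
    intro l hl
    have := hN' (l.map (QuotientGroup.mk : G → G ⧸ A)) (by simpa using hl)
    rw [List.map_map] at this
    exact this
  -- the filtration
  let T : ℕ → AddSubgroup (Additive B) := fun i =>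
    AddSubgroup.closure {v | ∃ (l : List G) (a : Additive B), l.length = i ∧ v = (l.map fun g => ρ g - 1).prod a}
  have hstep : ∀ i (g : G), ∀ v ∈ T i, (ρ g - 1) v ∈ T (i + 1) := by
    intro i g v hv
    refine AddSubgroup.closure_induction (p := fun v _ => (ρ g - 1) v ∈ T (i + 1)) ?_ ?_ ?_ ?_ hv
    · rintro _ ⟨l, a, hl, rfl⟩
      refine AddSubgroup.subset_closure ⟨g :: l, a, by simp [hl], ?_⟩
      rw [List.map_cons, List.prod_cons]
      rfl
    · rw [map_zero]; exact zero_mem _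
    · intro v w _ _ h1 h2
      rw [map_add]; exact add_mem h1 h2
    · intro v _ h1
      rw [map_neg]; exact neg_mem h1
  have hTN : T N = ⊥ := by
    rw [eq_bot_iff]
    refine (AddSubgroup.closure_le _).2 ?_
    rintro _ ⟨l, a, hl, rfl⟩
    rw [hprod l hl]
    simp
  let K : ℕ → Subgroup G := fun i => (AddSubgroup.toSubgroup' (T i)).map ι
  have hK : ∀ i x, x ∈ K i ↔ ∃ v ∈ T i, ι v.toMul = x := by
    intro i x
    exact Iff.rfl
  obtain ⟨c, hc⟩ := Subgroup.nilpotent_iff_lowerCentralSeries.1 hnil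
  have hcA : Subgroup.lowerCentralSeries (⊤ : Subgroup G) c ≤ A := by
    have := Subgroup.map_lowerCentralSeries (⊤ : Subgroup G) (QuotientGroup.mk' A) c
    rw [← MonoidHom.range_eq_map, QuotientGroup.range_mk', hc, Subgroup.map_eq_bot_iff, QuotientGroup.ker_mk'] at this
    exact this
  have hlow : ∀ i, Subgroup.lowerCentralSeries (⊤ : Subgroup G) (c + i) ≤ K i := by
    intro i
    induction i with
    | zero =>
      intro x hx
      obtain ⟨b, rfl⟩ := (hA x).1 (hcA hx)
      exact (hK 0 _).2 ⟨Additive.ofMul b, AddSubgroup.subset_closure ⟨[], Additive.ofMul b, rfl, rfl⟩, rfl⟩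
    | succ i ih =>
      rw [← add_assoc, Subgroup.lowerCentralSeries_succ, Subgroup.commutator_le]
      intro x hx g _
      obtain ⟨v, hv, rfl⟩ := (hK i x).1 (ih hx)
      refine (hK (i + 1) _).2 ⟨-((ρ g - 1) v), neg_mem (hstep i g v hv), ?_⟩
      have e1 : (ρ g - 1) v = ρ g v - v := rfl
      rw [e1, neg_sub, toMul_sub, map_div, hρ, commutatorElement_def, div_eq_mul_inv]
      group
  refine Subgroup.nilpotent_iff_lowerCentralSeries.2 ⟨c + N, ?_⟩
  rw [eq_bot_iff]
  intro x hx
  obtain ⟨v, hv, rfl⟩ := (hK N x).1 (hlow N hx)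
  rw [hTN] at hv
  rw [AddSubgroup.mem_bot.1 hv]
  simp

/-- **EXT.** -/
theorem p_EXT (hNAC : Stmt_NAC.{u}) : Stmt_EXT.{u} := by
  intro G _ p n hp hn hG hE A _ hA hnil
  let iB : CommGroup A := { (inferInstance : Group A) with mul_comm := fun a b => Subtype.ext (hA a a.2 b b.2) }
  let ρ : G →* AddMonoid.End (Additive A) :=
    { toFun := fun g => MonoidHom.toAdditive (MulAut.conjNormal g).toMonoidHom
      map_one' := by
        rw [map_one]
        rfl
      map_mul' := by
        intro g h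
        rw [map_mul]
        rfl }
  refine EXT_main hNAC p n hp hn hG hE (B := A) A.subtype A.subtype_injective A ?_ ρ ?_ hnil
  · intro g
    constructor
    · intro hg
      exact ⟨⟨g, hg⟩, rfl⟩
    · rintro ⟨b, rfl⟩
      exact b.2
  · intro g a
    rfl

end Pool.NR
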