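import Pool.Agent.Work.MP_3617d5_nr.Interface

/-!
# MP_3617d5_al, THEOREM NR: block KLI (the Lie identity)
-/

set_option autoImplicit false

open Nat

universe u

namespace Pool.NR

theorem KLI_iter {S : Type u} [Ring S] (y v : S) (k : ℕ) :
    ∃ c : S, (fun x : S => x * y - y * x)^[k] v = v * y ^ k + y * c := by
  induction k with
  | zero => exact ⟨0, by simp⟩
  | succ k ih =>
    obtain ⟨c, hc⟩ := ih
    refine ⟨c * y - (v * y ^ k + y * c), ?_⟩
    rw [Function.iterate_succ_apply', hc, pow_succ]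
    noncomm_ring

theorem p_KLI : Stmt_KLI.{u} := by
  intro S _ n hL z a u hz
  obtain ⟨c, hc⟩ := KLI_iter (z * a) u n
  rw [hL u (z * a)] at hc
  have h1 : z * (u * (z * a) ^ n + z * a * c) = 0 := by rw [← hc, mul_zero]
  have h2 : z * (z * a * c) = 0 := by
    rw [← mul_assoc, ← mul_assoc, hz, zero_mul, zero_mul]
  rw [mul_add, h2, add_zero, ← mul_assoc] at h1
  exact h1

end Pool.NR
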