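import Pool.Agent.Work.MP_3617d5_nr.Interface

/-!
# MP_3617d5_al, THEOREM NR: block QIL (quotients of Good2)
-/

set_option autoImplicit false

open Nat

universe u

namespace Pool.NR

theorem QIL_ideal {S S' : Type u} [Ring S] [Ring S'] (I : AddSubgroup S) (π : S →+* S')
    (hπ : Function.Surjective π) (hI : IdI I) : IdI (I.map π.toAddMonoidHom) := by
  constructor
  · rintro a' _ ⟨b, hb, rfl⟩
    obtain ⟨a, rfl⟩ := hπ a'
    exact ⟨a * b, hI.left a b hb, map_mul π a b⟩
  · rintro a' _ ⟨b, hb, rfl⟩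
    obtain ⟨a, rfl⟩ := hπ a'
    exact ⟨b * a, hI.right a b hb, map_mul π b a⟩

theorem QIL_iter {S S' : Type u} [Ring S] [Ring S'] (π : S →+* S') (x y : S) (n : ℕ) :
    π ((fun z : S => z * y - y * z)^[n] x) = (fun z : S' => z * π y - π y * z)^[n] (π x) := by
  induction n with
  | zero => rfl
  | succ n ih =>
    rw [Function.iterate_succ_apply', Function.iterate_succ_apply', ← ih, map_sub, map_mul, map_mul]

theorem p_QIL : Stmt_QIL.{u} := by
  intro S _ n I S' _ π hπ hG hT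
  refine ⟨QIL_ideal I π hπ hG.idl, ?_, hT⟩
  intro x' y'
  obtain ⟨x, rfl⟩ := hπ x'
  obtain ⟨y, rfl⟩ := hπ y'
  rw [← QIL_iter, hG.lie x y, map_zero]

end Pool.NR
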