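import Pool.Agent.Work.MP_3617d5_nr.Interface

set_option autoImplicit false

open Nat

universe u

namespace Pool.NR

theorem SQL_zw {S : Type u} [Ring S] (z : S) (l : List S) :
    zw z l = (l.map fun a => z * a).prod * z := by
  induction l with
  | nil => simp [zw]
  | cons a l ih => rw [zw, ih, List.map_cons, List.prod_cons, mul_assoc (z * a)]

/-- the multiples of `z` -/
def SQL_B {S : Type u} [Ring S] (z : S) : AddSubgroup S where
  carrier := {b | ∃ a, b = z * a}
  zero_mem' := ⟨0, by rw [mul_zero]⟩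
  add_mem' := by
    rintro _ _ ⟨a, rfl⟩ ⟨b, rfl⟩
    exact ⟨a + b, by rw [mul_add]⟩
  neg_mem' := by
    rintro _ ⟨a, rfl⟩
    exact ⟨-a, by rw [mul_neg]⟩

/-- the elements annihilated by `z S` -/
def SQL_T {S : Type u} [Ring S] (z : S) : AddSubgroup S where
  carrier := {t | ∀ a, z * a * t = 0}
  zero_mem' := fun a => by rw [mul_zero]
  add_mem' := by
    intro s t hs ht a
    rw [mul_add, hs a, ht a, add_zero]
  neg_mem' := by
    intro t ht a
    rw [mul_neg, ht a, neg_zero]

theorem p_SQL (hNHT : Stmt_NHT.{u}) (hKLI : Stmt_KLI.{u}) : Stmt_SQL.{u} := by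
  intro S _ n I hn hG z hz hzz
  refine ⟨2 ^ n, ?_⟩
  intro l hl
  have hpos : 0 < 2 ^ n := Nat.two_pow_pos n
  cases l with
  | nil =>
    rw [List.length_nil] at hl
    omega
  | cons a l =>
    have hl' : l.length = 2 ^ n - 1 := by
      rw [List.length_cons] at hl
      omega
    have h1 := hNHT S (SQL_B z) n hn (by
      rintro _ ⟨a, rfl⟩ _ ⟨b, rfl⟩
      exact ⟨a * (z * b), by rw [mul_assoc]⟩) (SQL_T z) (by
      rintro _ ⟨a, rfl⟩ t ht
      refine ⟨fun c => ?_, fun c => ?_⟩
      · rw [ht a, mul_zero]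
      · rw [← mul_assoc, ht c, zero_mul]) (by
      rintro _ ⟨a, rfl⟩ hb c
      refine hG.tf _ (hG.idl.left _ _ (hG.idl.right a z hz)) ?_
      have h3 := hb c
      rwa [mul_smul_comm] at h3) (by
      rintro _ ⟨a, rfl⟩ c
      exact hKLI S n hG.lie z a c hzz) (l.map fun a => z * a) (by rw [List.length_map, hl']) (by
      intro b hb
      obtain ⟨a, -, rfl⟩ := List.mem_map.1 hb
      exact ⟨a, rfl⟩)
    have h2 : z * a * (l.map fun a => z * a).prod = 0 := h1 a
    rw [SQL_zw, List.map_cons, List.prod_cons, h2, zero_mul]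

end Pool.NR
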