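import Pool.Agent.Work.MP_3617d5_nr.Interface

/-!
# MP_3617d5_al, THEOREM NR, block TCL
-/

set_option autoImplicit false

open Nat

universe u

namespace Pool.NR

theorem TCL_tf {S : Type u} [Ring S] {n : ℕ} {I : AddSubgroup S} (hT : TF n I) (j : ℕ) :
    ∀ b ∈ I, (n !) ^ j • b = 0 → b = 0 := by
  induction j with
  | zero =>
    intro b _ h
    simpa using h
  | succ j ih =>
    intro b hb h
    apply ih b hb
    apply hT _ (I.nsmul_mem hb _)
    rw [smul_smul, ← pow_succ']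
    exact h

theorem TCL_list {S : Type u} [Ring S] (n : ℕ) (T₀ : AddSubgroup S) (l : List S)
    (hl : ∀ b ∈ l, ∃ j, (n !) ^ j • b ∈ T₀) :
    ∃ (J : ℕ) (l' : List S), l'.length = l.length ∧ (∀ b ∈ l', b ∈ T₀) ∧
      (n !) ^ J • l.prod = l'.prod := by
  induction l with
  | nil => exact ⟨0, [], rfl, by simp, by simp⟩
  | cons b l ih =>
    obtain ⟨J, l', h1, h2, h3⟩ := ih (fun b hb => hl b (List.mem_cons_of_mem _ hb))
    obtain ⟨j, hj⟩ := hl b List.mem_cons_self
    refine ⟨j + J, ((n !) ^ j • b) :: l', by simp [h1], ?_, ?_⟩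
    · intro c hc
      rcases List.mem_cons.mp hc with rfl | hc
      · exact hj
      · exact h2 c hc
    · rw [List.prod_cons, List.prod_cons, ← h3, smul_mul_smul_comm, pow_add]

theorem p_TCL (hNGI : Stmt_NGI.{u}) : Stmt_TCL.{u} := by
  intro S _ n I hI hTF z hz hN
  obtain ⟨h1, h2, M, hM⟩ := hNGI S z hN
  obtain ⟨T₀, hT₀⟩ : ∃ T₀ : AddSubgroup S,
      T₀ = AddSubgroup.closure {x : S | ∃ a b, x = a * z * b} := ⟨_, rfl⟩
  rw [← hT₀] at h1 h2 hM
  let T : AddSubgroup S :=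
    { carrier := {b | b ∈ I ∧ ∃ j, (n !) ^ j • b ∈ T₀}
      add_mem' := by
        rintro a b ⟨ha, j, hj⟩ ⟨hb, k, hk⟩
        refine ⟨I.add_mem ha hb, j + k, ?_⟩
        rw [smul_add]
        apply T₀.add_mem
        · rw [add_comm j k, pow_add, mul_smul]
          exact T₀.nsmul_mem hj _
        · rw [pow_add, mul_smul]
          exact T₀.nsmul_mem hk _
      zero_mem' := ⟨I.zero_mem, 0, by rw [smul_zero]; exact T₀.zero_mem⟩
      neg_mem' := by
        rintro a ⟨ha, j, hj⟩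
        exact ⟨I.neg_mem ha, j, by rw [smul_neg]; exact T₀.neg_mem hj⟩ }
  refine ⟨T, ⟨?_, ?_⟩, ⟨hz, 0, by simpa using h2⟩, fun b hb => hb.1, ⟨M + 1, ?_⟩, ?_⟩
  · rintro a b ⟨hb, j, hj⟩
    refine ⟨hI.left a b hb, j, ?_⟩
    rw [← mul_smul_comm]
    exact h1.left a _ hj
  · rintro a b ⟨hb, j, hj⟩
    refine ⟨hI.right a b hb, j, ?_⟩
    rw [← smul_mul_assoc]
    exact h1.right a _ hj
  · intro l hl hlT
    obtain ⟨J, l', h3, h4, h5⟩ := TCL_list n T₀ l (fun b hb => (hlT b hb).2)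
    have h6 : l'.prod = 0 := by
      rw [hl] at h3
      match l', h3, h4 with
      | b :: l'', h3, h4 =>
        rw [List.prod_cons, hM l'' (by simpa using h3)
          (fun c hc => h4 c (List.mem_cons_of_mem _ hc)), mul_zero]
    have h7 : l.prod ∈ I := by
      match l, hl, hlT with
      | b :: l'', hl, hlT =>
        rw [List.prod_cons]
        exact hI.right _ b (hlT b List.mem_cons_self).1
    exact TCL_tf hTF J _ h7 (by rw [h5, h6])
  · rintro b hb ⟨-, j, hj⟩
    refine ⟨hb, j + 1, ?_⟩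
    rw [pow_succ, mul_smul]
    exact hj

end Pool.NR
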