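import Pool.Agent.Work.MP_3617d5_nr.Skel
import Pool.Agent.Work.MP_3617d5_nr.B_NHT
import Pool.Agent.Work.MP_3617d5_nr.B_KLI
import Pool.Agent.Work.MP_3617d5_nr.B_SQL
import Pool.Agent.Work.MP_3617d5_nr.B_NGI
import Pool.Agent.Work.MP_3617d5_nr.B_TCL
import Pool.Agent.Work.MP_3617d5_nr.B_QUO
import Pool.Agent.Work.MP_3617d5_nr.B_IND
import Pool.Agent.Work.MP_3617d5_nr.B_QIL
import Pool.Agent.Work.MP_3617d5_nr.B_GEN
import Pool.Agent.Work.MP_3617d5_nr.B_UNP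
import Pool.Agent.Work.MP_3617d5_nr.B_ABE
import Pool.Agent.Work.MP_3617d5_nr.B_NAC
import Pool.Agent.Work.MP_3617d5_nr.B_EXT
import Pool.Agent.Work.MP_3617d5_nr.B_SOL
import Pool.Agent.Work.MP_3617d5_nr.B_PUL

/-!
# MP_3617d5_al, THEOREM NR (2): units of Lie Engel rings
-/

set_option autoImplicit false

universe u

namespace Pool.NR

theorem all_pul : Stmt_PUL.{u} := p_PUL (p_SOL (p_EXT (p_NAC p_ABE)))

theorem all_ind : Stmt_IND.{u} := p_IND (p_TCL p_NGI) p_QUO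

theorem main_units (p n m k : ℕ) (hp : p.Prime) (hn : n < p) (hm : m < p) (G : Type u) [Group G] (hG : IsPGroup p G)
    (hE : Engel n G) (S : Type u) [Ring S] (hS : (p : S) ^ k = 0) (hL : LieEngel m S) (f : G →* Sˣ)
    (hf : Group.IsSolvable f.ker) : Fitting G := by
  refine all_pul G Sˣ p n hp hn hG hE f hf ?_
  intro x
  obtain ⟨e, he⟩ := hG x
  exact SK_two p_NHT p_KLI p_SQL all_ind p_QIL p_NGI p_GEN p_UNP hp hm S hS hL (f x) e (by rw [← map_pow, he, map_one])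

end Pool.NR
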