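import Pool.Agent.Work.MP_3617d5_nr.Interface2

/-!
# MP_3617d5_al, block KG3: the group identity for radical ideals
-/

set_option autoImplicit false

open Nat

universe u

namespace Pool.NR

/-- One commutator step. -/
theorem KG3_step {S : Type u} [Ring S] (z c : S) (hz : z * z = 0) (x : Sˣ) (hzx : z * (x : S) = z)
    (hxz : ((x⁻¹ : Sˣ) : S) * z = z * c) (y : Sˣ) (v : S) (hy : (y : S) = 1 + z * v * z) :
    ((y⁻¹ * x⁻¹ * y * x : Sˣ) : S) = 1 + (((x⁻¹ : Sˣ) : S) - 1) * (z * v * z) := by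
  have hww : (z * v * z) * (z * v * z) = 0 := by
    calc (z * v * z) * (z * v * z) = z * v * (z * z) * v * z := by noncomm_ring
      _ = 0 := by rw [hz]; simp
  have hyi : ((y⁻¹ : Sˣ) : S) = 1 - z * v * z := by
    have h1 : (y : S) * (1 - z * v * z) = 1 := by
      rw [hy]
      calc (1 + z * v * z) * (1 - z * v * z) = 1 - (z * v * z) * (z * v * z) := by noncomm_ring
        _ = 1 := by rw [hww, sub_zero]
    calc ((y⁻¹ : Sˣ) : S) = ((y⁻¹ : Sˣ) : S) * ((y : S) * (1 - z * v * z)) := by rw [h1, mul_one]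
      _ = (((y⁻¹ : Sˣ) : S) * (y : S)) * (1 - z * v * z) :=
          (mul_assoc ((y⁻¹ : Sˣ) : S) (y : S) (1 - z * v * z)).symm
      _ = 1 - z * v * z := by rw [Units.inv_mul, one_mul]
  have hwx : (z * v * z) * (x : S) = z * v * z := by rw [mul_assoc, hzx]
  have hwxw : (z * v * z) * ((x⁻¹ : Sˣ) : S) * (z * v * z) = 0 := by
    calc (z * v * z) * ((x⁻¹ : Sˣ) : S) * (z * v * z)
        = (z * v * z) * (((x⁻¹ : Sˣ) : S) * z) * v * z := by noncomm_ring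
      _ = (z * v * z) * (z * c) * v * z := by rw [hxz]
      _ = z * v * (z * z) * c * v * z := by noncomm_ring
      _ = 0 := by rw [hz]; simp
  have hxx : ((x⁻¹ : Sˣ) : S) * (x : S) = 1 := Units.inv_mul x
  calc ((y⁻¹ * x⁻¹ * y * x : Sˣ) : S)
      = ((y⁻¹ : Sˣ) : S) * ((x⁻¹ : Sˣ) : S) * (y : S) * (x : S) := by simp only [Units.val_mul]
    _ = (1 - z * v * z) * ((x⁻¹ : Sˣ) : S) * (1 + z * v * z) * (x : S) := by rw [hyi, hy]
    _ = (1 - z * v * z) * (((x⁻¹ : Sˣ) : S) * (x : S) + ((x⁻¹ : Sˣ) : S) * ((z * v * z) * (x : S))) := by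
        noncomm_ring
    _ = (1 - z * v * z) * (1 + ((x⁻¹ : Sˣ) : S) * (z * v * z)) := by rw [hxx, hwx]
    _ = 1 + (((x⁻¹ : Sˣ) : S) - 1) * (z * v * z) - (z * v * z) * ((x⁻¹ : Sˣ) : S) * (z * v * z) := by
        noncomm_ring
    _ = 1 + (((x⁻¹ : Sˣ) : S) - 1) * (z * v * z) := by rw [hwxw, sub_zero]

/-- All iterates. -/
theorem KG3_iter {S : Type u} [Ring S] (z c : S) (hz : z * z = 0) (x : Sˣ) (hzx : z * (x : S) = z)
    (hxz : ((x⁻¹ : Sˣ) : S) * z = z * c) (y : Sˣ) (v : S) (hy : (y : S) = 1 + z * v * z) (k : ℕ) :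
    (((fun z : Sˣ => z⁻¹ * x⁻¹ * z * x)^[k] y : Sˣ) : S) = 1 + (((x⁻¹ : Sˣ) : S) - 1) ^ k * (z * v * z) ∧
      ∃ v' : S, (((x⁻¹ : Sˣ) : S) - 1) ^ k * (z * v * z) = z * v' * z := by
  induction k with
  | zero => exact ⟨by simpa using hy, v, by simp⟩
  | succ k ih =>
    obtain ⟨h1, v', h2⟩ := ih
    have h3 : (((x⁻¹ : Sˣ) : S) - 1) ^ (k + 1) * (z * v * z) = (((x⁻¹ : Sˣ) : S) - 1) * (z * v' * z) := by
      rw [_root_.pow_succ', mul_assoc, h2]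
    refine ⟨?_, c * v' - v', ?_⟩
    · rw [Function.iterate_succ_apply']
      rw [h2] at h1
      have h4 := KG3_step z c hz x hzx hxz ((fun z : Sˣ => z⁻¹ * x⁻¹ * z * x)^[k] y) v' h1
      rw [h3]
      exact h4
    · rw [h3]
      calc (((x⁻¹ : Sˣ) : S) - 1) * (z * v' * z)
          = (((x⁻¹ : Sˣ) : S) * z) * v' * z - z * v' * z := by noncomm_ring
        _ = (z * c) * v' * z - z * v' * z := by rw [hxz]
        _ = z * (c * v' - v') * z := by noncomm_ring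

/-- **KG3**. -/
theorem p_KG3 : Stmt_KG3.{u} := by
  intro S _ n I hI hU hE z hzI hz a u
  have hta : z * a ∈ I := hI.right a z hzI
  have hat : a * z ∈ I := hI.left a z hzI
  obtain ⟨x, hx⟩ := hU (z * a) hta
  obtain ⟨x', hx'⟩ := hU (a * z) hat
  have hzx : z * (x : S) = z := by
    rw [hx, mul_add, mul_one, ← mul_assoc, hz, zero_mul, add_zero]
  have hxz0 : (x : S) * z = z * (x' : S) := by
    rw [hx, hx']; noncomm_ring
  have hxz : ((x⁻¹ : Sˣ) : S) * z = z * ((x'⁻¹ : Sˣ) : S) := by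
    calc ((x⁻¹ : Sˣ) : S) * z = ((x⁻¹ : Sˣ) : S) * z * ((x' : S) * ((x'⁻¹ : Sˣ) : S)) := by
          rw [Units.mul_inv, mul_one]
      _ = ((x⁻¹ : Sˣ) : S) * (z * (x' : S)) * ((x'⁻¹ : Sˣ) : S) := by noncomm_ring
      _ = ((x⁻¹ : Sˣ) : S) * ((x : S) * z) * ((x'⁻¹ : Sˣ) : S) := by rw [hxz0]
      _ = (((x⁻¹ : Sˣ) : S) * (x : S)) * z * ((x'⁻¹ : Sˣ) : S) := by noncomm_ring
      _ = z * ((x'⁻¹ : Sˣ) : S) := by rw [Units.inv_mul, one_mul]
  have hwI : z * u * z ∈ I := hI.left (z * u) z hzI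
  obtain ⟨y, hy⟩ := hU (z * u * z) hwI
  have h1 := (KG3_iter z ((x'⁻¹ : Sˣ) : S) hz x hzx hxz y u hy n).1
  have h2 : (fun z : Sˣ => z⁻¹ * x⁻¹ * z * x)^[n] y = 1 :=
    hE x y (by rw [hx, add_sub_cancel_left]; exact hta) (by rw [hy, add_sub_cancel_left]; exact hwI)
  rw [h2, Units.val_one] at h1
  have h3 : (((x⁻¹ : Sˣ) : S) - 1) ^ n * (z * u * z) = 0 := by
    have h4 : (1 : S) + 0 = 1 + (((x⁻¹ : Sˣ) : S) - 1) ^ n * (z * u * z) := by rw [add_zero]; exact h1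
    exact (add_left_cancel h4).symm
  have h5 : z * a = (-(x : S)) * (((x⁻¹ : Sˣ) : S) - 1) := by
    have h6 : (x : S) * ((x⁻¹ : Sˣ) : S) = 1 := Units.mul_inv x
    calc z * a = (x : S) - 1 := by rw [hx, add_sub_cancel_left]
      _ = (x : S) - (x : S) * ((x⁻¹ : Sˣ) : S) := by rw [h6]
      _ = (-(x : S)) * (((x⁻¹ : Sˣ) : S) - 1) := by noncomm_ring
  have hc : Commute (-(x : S)) (((x⁻¹ : Sˣ) : S) - 1) := by
    have h7 : Commute (x : S) ((x⁻¹ : Sˣ) : S) := by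
      show (x : S) * ((x⁻¹ : Sˣ) : S) = ((x⁻¹ : Sˣ) : S) * (x : S)
      rw [Units.mul_inv, Units.inv_mul]
    exact (h7.sub_right (Commute.one_right _)).neg_left
  rw [h5, hc.mul_pow, mul_assoc, h3, mul_zero]

end Pool.NR
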