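import Pool.Agent.Work.MP_3617d5_nr.Interface

set_option autoImplicit false

open Nat

universe u

namespace Pool.NR

theorem PTF_pow {S : Type u} [Ring S] (c : S) (hc : c * c = 0) (m : ℕ) : (1 + c) ^ m = 1 + m • c := by
  induction m with
  | zero => simp
  | succ m ih =>
    rw [pow_succ, ih, succ_nsmul, mul_add, mul_one, add_mul, one_mul, smul_mul_assoc, hc, smul_zero,
      add_zero]
    abel

theorem PTF_cop {S : Type u} [Ring S] (c : S) (a b : ℕ) (h : Nat.Coprime a b) (ha : a • c = 0)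
    (hb : b • c = 0) : c = 0 := by
  have h1 := Nat.gcd_eq_gcd_ab a b
  have h2 : Nat.gcd a b = 1 := h
  rw [h2] at h1
  have h3 : ((1 : ℤ)) • c = 0 := by
    have h4 : ((1 : ℕ) : ℤ) = (1 : ℤ) := rfl
    rw [← h4, h1, add_smul, mul_comm, mul_comm (b : ℤ), mul_smul, mul_smul, natCast_zsmul,
      natCast_zsmul, ha, hb, smul_zero, smul_zero, add_zero]
  rwa [one_smul] at h3

theorem PTF_exists {S : Type u} [Ring S] (b : S) (hb : IsNilpotent b) (h0 : b ≠ 0) :
    ∃ j, 1 ≤ j ∧ b ^ j ≠ 0 ∧ b ^ (j + 1) = 0 := by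
  classical
  obtain ⟨k, hk⟩ := hb
  have hex : ∃ k, b ^ (k + 1) = 0 := ⟨k, by rw [pow_succ, hk, zero_mul]⟩
  have h1 := Nat.find_spec hex
  rcases Nat.eq_zero_or_pos (Nat.find hex) with h2 | h2
  · rw [h2, zero_add, pow_one] at h1
    exact absurd h1 h0
  · refine ⟨Nat.find hex, h2, ?_, h1⟩
    have h3 := Nat.find_min hex (m := Nat.find hex - 1) (by omega)
    rwa [Nat.sub_add_cancel h2] at h3

theorem p_PTF : Stmt_PTF.{u} := by
  intro S _ I p n hp hn hI hnil hx b hb hb0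
  by_contra hne
  obtain ⟨j, hj, h1, h2⟩ := PTF_exists b (hnil b hb) hne
  obtain ⟨i, rfl⟩ := Nat.exists_eq_add_of_le hj
  rw [Nat.add_comm] at h1 h2
  have e1 : b ^ (i + 1) = b ^ i * b := pow_succ b i
  have hc : b ^ (i + 1) ∈ I := by
    rw [e1]
    exact hI.left _ _ hb
  have hc0 : n ! • b ^ (i + 1) = 0 := by
    rw [e1, ← mul_smul_comm, hb0, mul_zero]
  have hcc : b ^ (i + 1) * b ^ (i + 1) = 0 := by
    rw [← pow_add]
    have : i + 1 + (i + 1) = (1 + (1 + i)) + i := by ring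
    rw [this, pow_add, h2, zero_mul]
  let x : Sˣ := ⟨1 + b ^ (i + 1), 1 - b ^ (i + 1),
    by rw [mul_sub, mul_one, add_mul, one_mul, hcc]; abel,
    by rw [mul_add, mul_one, sub_mul, one_mul, hcc]; abel⟩
  have hxv : (x : S) = 1 + b ^ (i + 1) := rfl
  obtain ⟨k, hk⟩ := hx x (by rw [hxv, add_sub_cancel_left]; exact hc)
  have h3 : (1 + b ^ (i + 1)) ^ p ^ k = 1 := by
    have := congrArg (fun u : Sˣ => (u : S)) hk
    simpa [hxv] using this
  rw [PTF_pow _ hcc] at h3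
  have h4 : p ^ k • b ^ (i + 1) = 0 := by
    have := congrArg (fun t => t - 1) h3
    simpa using this
  have hcop : Nat.Coprime (n !) (p ^ k) := by
    apply Nat.Coprime.pow_right
    rw [Nat.coprime_comm, hp.coprime_iff_not_dvd, hp.dvd_factorial]
    omega
  exact h1 (PTF_cop _ _ _ hcop hc0 h4)

end Pool.NR
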