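import Pool.Agent.Work.MP_3617d5_nr.Interface3
import Pool.Agent.Work.MP_3617d5_nr.B_PUL

/-!
# MP_3617d5_al, THEOREM NR, block PU2
-/

set_option autoImplicit false

open Nat

universe u

namespace Pool.NR

theorem p_PU2 (hSOL : Stmt_SOL.{u}) : Stmt_PU2.{u} := by
  intro G K _ _ p n hp hn hG hE f hker hloc g
  obtain ⟨H, hH, hHs, hgH⟩ := hloc g
  refine ⟨H.comap f, hH.comap f, ?_, hgH⟩
  have hsol : Group.IsSolvable (H.comap f) := by
    let i : f.ker →* (H.comap f) := Subgroup.inclusion (fun x hx => by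
      rw [Subgroup.mem_comap, MonoidHom.mem_ker.mp hx]
      exact H.one_mem)
    let q : (H.comap f) →* H := (f.comp (H.comap f).subtype).codRestrict H (fun x => x.2)
    refine solvable_of_ker_le_range i q ?_
    intro x hx
    have h1 : f (x : G) = 1 := congrArg Subtype.val (MonoidHom.mem_ker.mp hx)
    exact ⟨⟨(x : G), MonoidHom.mem_ker.mpr h1⟩, Subtype.ext rfl⟩
  exact hSOL (H.comap f) p n hp hn (hG.to_subgroup _) (PUL_engel hE _) hsol

end Pool.NR
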