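import Pool.Agent.Work.MP_3617d5_nr.Interface2

/-! # Block SQ3 -/

set_option autoImplicit false

open Nat

universe u

namespace Pool.NR

theorem SQ3_zw {S : Type u} [Ring S] (z : S) (l : List S) :
    zw z l = (l.map (fun a => z * a)).prod * z := by
  induction l with
  | nil => simp [zw]
  | cons a l ih => rw [zw, ih, List.map_cons, List.prod_cons]; simp only [mul_assoc]

theorem p_SQ3 (hNHT : Stmt_NHT.{u}) (hKG3 : Stmt_KG3.{u}) : Stmt_SQ3.{u} := by
  intro S _ n I hn hG z hz hzz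
  let B : AddSubgroup S := (AddMonoidHom.mulLeft z).range
  have hB : ∀ b, b ∈ B ↔ ∃ c, z * c = b := fun b => Iff.rfl
  have hBI : ∀ b ∈ B, b ∈ I := by
    rintro b ⟨c, rfl⟩
    exact hG.idl.right c z hz
  have hBB : ∀ a ∈ B, ∀ b ∈ B, a * b ∈ B := by
    rintro a ⟨c, rfl⟩ b ⟨d, rfl⟩
    refine ⟨c * z * d, ?_⟩
    show z * (c * z * d) = z * c * (z * d)
    simp only [mul_assoc]
  let T : AddSubgroup S :=
    { carrier := {t | ∀ b ∈ B, ∀ b' ∈ B, t * b * b' = 0}
      zero_mem' := fun b _ b' _ => by rw [zero_mul, zero_mul]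
      add_mem' := fun {s t} hs ht b hb b' hb' => by
        rw [add_mul, add_mul, hs b hb b' hb', ht b hb b' hb', add_zero]
      neg_mem' := fun {t} ht b hb b' hb' => by
        rw [neg_mul, neg_mul, ht b hb b' hb', neg_zero] }
  have hT : ∀ t, t ∈ T ↔ ∀ b ∈ B, ∀ b' ∈ B, t * b * b' = 0 := fun t => Iff.rfl
  have key := hNHT S B n hn hBB T ?_ ?_ ?_
  · refine ⟨2 ^ n - 1 + 2, fun l hl => ?_⟩
    have hl1 : (l.take (2 ^ n - 1)).length = 2 ^ n - 1 := by
      rw [List.length_take, hl]; omega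
    have hl2 : (l.drop (2 ^ n - 1)).length = 2 := by
      rw [List.length_drop, hl]; omega
    obtain ⟨a, b, hab⟩ := List.length_eq_two.1 hl2
    have h1 : ((l.take (2 ^ n - 1)).map (fun a => z * a)).prod ∈ T := by
      refine key _ (by rw [List.length_map, hl1]) ?_
      intro x hx
      rw [List.mem_map] at hx
      obtain ⟨c, _, rfl⟩ := hx
      exact ⟨c, rfl⟩
    have h2 := (hT _).1 h1 (z * a) ⟨a, rfl⟩ (z * b) ⟨b, rfl⟩
    rw [SQ3_zw]
    have h3 : (l.map (fun a => z * a)).prod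
        = ((l.take (2 ^ n - 1)).map (fun a => z * a)).prod * (z * a) * (z * b) := by
      conv_lhs => rw [← List.take_append_drop (2 ^ n - 1) l, hab]
      rw [List.map_append, List.prod_append]
      simp only [List.map_cons, List.map_nil, List.prod_cons, List.prod_nil, mul_one, mul_assoc]
    rw [h3, h2, zero_mul]
  · intro b hb t ht
    constructor
    · intro b' hb' b'' hb''
      rw [mul_assoc b, mul_assoc b, (hT t).1 ht b' hb' b'' hb'', mul_zero]
    · intro b' hb' b'' hb''
      rw [mul_assoc t]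
      exact (hT t).1 ht _ (hBB b hb b' hb') b'' hb''
  · intro b hb hb1 b' hb' b'' hb''
    apply hG.tf
    · exact hG.idl.right _ _ (hG.idl.right _ _ (hBI b hb))
    · rw [← smul_mul_assoc, ← smul_mul_assoc]
      exact (hT _).1 hb1 b' hb' b'' hb''
  · rintro x ⟨a, rfl⟩ b ⟨c, rfl⟩ b' ⟨d, rfl⟩
    show (z * a) ^ n * (z * c) * (z * d) = 0
    have h := hKG3 S n I hG.idl hG.uni hG.eng z hz hzz a c
    calc (z * a) ^ n * (z * c) * (z * d) = ((z * a) ^ n * (z * c * z)) * d := by
          simp only [mul_assoc]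
      _ = 0 := by rw [h, zero_mul]

end Pool.NR
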