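import Pool.Agent.Work.MP_3617d5_nr.Interface2

/-! # Block UN3: the unitization of a radical ring -/

set_option autoImplicit false

open Nat

universe u

namespace Pool.NR

/-- the ideal of the elements with scalar part zero -/
def UN3_I (R : Type u) [NonUnitalRing R] : AddSubgroup (Unitization ℤ R) where
  carrier := {x | x.fst = 0}
  zero_mem' := rfl
  add_mem' := by
    intro x y hx hy
    have hx' : x.fst = 0 := hx
    have hy' : y.fst = 0 := hy
    show (x + y).fst = 0
    rw [Unitization.fst_add, hx', hy', add_zero]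
  neg_mem' := by
    intro x hx
    have hx' : x.fst = 0 := hx
    show (-x).fst = 0
    rw [Unitization.fst_neg, hx', neg_zero]

theorem UN3_mem {R : Type u} [NonUnitalRing R] (x : Unitization ℤ R) :
    x ∈ UN3_I R ↔ x.fst = 0 := Iff.rfl

theorem UN3_eq {R : Type u} [NonUnitalRing R] (x : Unitization ℤ R) (h : x.fst = 0) :
    (Unitization.inr x.snd : Unitization ℤ R) = x := by
  ext
  · rw [Unitization.fst_inr, h]
  · rw [Unitization.snd_inr]

/-- BLOCK UN3. -/
theorem p_UN3 : Stmt_UN3.{u} := by
  intro R _ hR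
  refine ⟨Unitization ℤ R, inferInstance, UN3_I R, fun a => Unitization.inr a,
    (Unitization.unitsFstOne ℤ R).subtype.comp
      (Unitization.unitsFstOne_mulEquiv_quasiregular ℤ (A := R)).symm.toMonoidHom,
    ⟨?_, ?_⟩, ?_, Unitization.inr_injective, ?_, ?_, ?_, ?_, ?_, ?_⟩
  · intro a b hb
    rw [UN3_mem] at hb ⊢
    rw [Unitization.fst_mul, hb, mul_zero]
  · intro a b hb
    rw [UN3_mem] at hb ⊢
    rw [Unitization.fst_mul, hb, zero_mul]
  · intro b hb
    have h1 := (isQuasiregular_iff_isUnit' ℤ).1 (hR b.snd)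
    rw [UN3_eq b hb] at h1
    exact h1
  · intro a
    exact Unitization.fst_inr ℤ a
  · intro b hb
    exact ⟨b.snd, UN3_eq b hb⟩
  · intro a b
    exact Unitization.inr_mul ℤ a b
  · intro a b
    exact Unitization.inr_add ℤ a b
  · exact (Subtype.val_injective).comp
      (Unitization.unitsFstOne_mulEquiv_quasiregular ℤ (A := R)).symm.injective
  · intro x
    have h1 : (x : Unitization ℤ R) - 1 ∈ UN3_I R ↔ x ∈ Unitization.unitsFstOne ℤ R := by
      rw [UN3_mem, Unitization.mem_unitsFstOne, sub_eq_add_neg, Unitization.fst_add,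
        Unitization.fst_neg, Unitization.fst_one, ← sub_eq_add_neg, sub_eq_zero]
    rw [h1]
    constructor
    · intro hx
      refine ⟨(Unitization.unitsFstOne_mulEquiv_quasiregular ℤ (A := R)) ⟨x, hx⟩, ?_⟩
      show (((Unitization.unitsFstOne_mulEquiv_quasiregular ℤ (A := R)).symm
        ((Unitization.unitsFstOne_mulEquiv_quasiregular ℤ (A := R)) ⟨x, hx⟩)) :
          (Unitization ℤ R)ˣ) = x
      rw [MulEquiv.symm_apply_apply]
    · rintro ⟨y, rfl⟩
      exact ((Unitization.unitsFstOne_mulEquiv_quasiregular ℤ (A := R)).symm y).2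

end Pool.NR
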