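import Pool.Agent.Work.MP_3617d5_nr.Interface

open Nat

universe u

namespace Pool.NR

theorem UNP_aux {S : Type u} [Ring S] {p k N : ℕ} (hk : (p : S) ^ k = 0) (z c : S)
    (h : z ^ N = (p : S) * c) : IsNilpotent z := by
  refine ⟨N * k, ?_⟩
  rw [pow_mul, h, (Nat.cast_commute p c).mul_pow, hk, zero_mul]

theorem p_UNP : Stmt_UNP.{u} := by
  intro S _ p k e hp hk x hx
  have hx' : (x : S) ^ p ^ e = 1 := by
    have := congrArg (fun y : Sˣ => (y : S)) hx
    simpa using this
  rcases Nat.eq_zero_or_pos e with he | he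
  · subst he
    simp only [pow_zero, pow_one] at hx'
    rw [hx', sub_self]
    exact IsNilpotent.zero
  · obtain ⟨r, hr⟩ := (Commute.neg_one_right (x : S)).exists_add_pow_prime_pow_eq hp e
    rw [← sub_eq_add_neg, hx'] at hr
    rcases hp.eq_two_or_odd' with h2 | hodd
    · subst h2
      have hev : Even (2 ^ e) := (Nat.even_pow).2 ⟨even_two, he.ne'⟩
      rw [hev.neg_one_pow] at hr
      refine UNP_aux (p := 2) (N := 2 ^ e) hk _ (1 + (x : S) * (-1) * r) ?_
      rw [hr]
      push_cast
      noncomm_ring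
    · have ho : Odd (p ^ e) := hodd.pow
      rw [ho.neg_one_pow] at hr
      refine UNP_aux (p := p) (N := p ^ e) hk _ ((x : S) * (-1) * r) ?_
      rw [hr]
      simp only [mul_assoc, add_neg_cancel, zero_add]

end Pool.NR
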