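import Pool.Agent.Work.MP_3617d5_nr.Interface2

set_option autoImplicit false

open Nat

universe u

namespace Pool.NR

theorem p_UP3 : Stmt_UP3.{u} := by
  intro S _ p k e hp x hx hz
  set z : S := (x : S) - 1 with hzdef
  have hx' : (1 + z) ^ p ^ e = 1 := by
    have h := congrArg (fun y : Sˣ => (y : S)) hx
    have h2 : (1 : S) + z = x := by rw [hzdef]; abel
    rw [h2]
    simpa using h
  obtain ⟨r, hr⟩ := exists_add_pow_prime_pow_eq hp (1 : Polynomial ℤ) Polynomial.X e
  have h1 := congrArg (Polynomial.aeval z) hr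
  simp only [map_pow, map_add, map_one, Polynomial.aeval_X, one_pow] at h1
  rw [hx'] at h1
  have h3 : z ^ p ^ e = Polynomial.aeval z (-((p : Polynomial ℤ) * 1 * Polynomial.X * r)) := by
    rw [map_neg, eq_neg_iff_add_eq_zero]
    have h4 := h1.symm
    rw [add_assoc] at h4
    exact left_eq_add.mp h4.symm
  refine ⟨p ^ e * (k + 1), ?_⟩
  rw [pow_mul, h3, ← map_pow]
  have h5 : (-((p : Polynomial ℤ) * 1 * Polynomial.X * r)) ^ (k + 1) =
      ((p : Polynomial ℤ) ^ k * Polynomial.X) *
        ((-1) ^ (k + 1) * (p : Polynomial ℤ) * Polynomial.X ^ k * r ^ (k + 1)) := by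
    rw [neg_pow]
    ring
  rw [h5, map_mul]
  have h6 : Polynomial.aeval z ((p : Polynomial ℤ) ^ k * Polynomial.X) = 0 := by
    rw [map_mul, map_pow, map_natCast, Polynomial.aeval_X]
    have h7 : ((p : S) ^ k) * z = p ^ k • z := by
      rw [nsmul_eq_mul, Nat.cast_pow]
    rw [h7]
    exact hz
  rw [h6, zero_mul]

end Pool.NR
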