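import Mathlib

/-!
# MP_3617d5_al, THEOREM NR: definitions

`n`-Engel `p`-groups (`p > n`) which are, modulo a soluble normal subgroup, adjoint groups of nil rings
or groups of units of Lie Engel rings.
-/

set_option autoImplicit false

universe u v

namespace Pool.NR

/-- `n`-Engel groups: `[y, x, ..., x] = 1` (`n` times `x`), `[z, x] = z⁻¹ x⁻¹ z x`. -/
def Engel (n : ℕ) (G : Type u) [Group G] : Prop :=
  ∀ x y : G, (fun z : G => z⁻¹ * x⁻¹ * z * x)^[n] y = 1

/-- Every element lies in a nilpotent normal subgroup. -/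
def Fitting (G : Type u) [Group G] : Prop :=
  ∀ g : G, ∃ H : Subgroup G, H.Normal ∧ Group.IsNilpotent H ∧ g ∈ H

/-- The product `f 0 * f 1 * ... * f k` (rings without identity). -/
def mprod {R : Type u} [Mul R] (f : ℕ → R) : ℕ → R
  | 0 => f 0
  | k + 1 => mprod f k * f (k + 1)

/-- Nil rings: some power of every element is zero. -/
def NilRing (R : Type u) [NonUnitalRing R] : Prop := ∀ a : R, ∃ k, mprod (fun _ => a) k = 0

/-- The adjoint group of a ring `R` (with or without identity): the quasi-regular elements with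
the operation `x + y + x y`. -/
abbrev Adj (R : Type u) [NonUnitalRing R] : Type u := (PreQuasiregular R)ˣ

/-- `J` is a nilpotent two-sided ideal. -/
def NilpotentIdeal {R : Type u} [NonUnitalRing R] (J : AddSubgroup R) : Prop :=
  (∀ a, ∀ b ∈ J, a * b ∈ J ∧ b * a ∈ J) ∧ ∃ k, ∀ f : ℕ → R, (∀ i, f i ∈ J) → mprod f k = 0

/-- Lie `m`-Engel rings: `[x, y, ..., y] = 0` (`m` times `y`), `[z, y] = z y - y z`. -/
def LieEngel (m : ℕ) (S : Type u) [Ring S] : Prop :=
  ∀ x y : S, (fun z : S => z * y - y * z)^[m] x = 0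

end Pool.NR
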