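import Pool.Agent.Work.MP_3617d5_nr.Defs

/-!
# MP_3617d5_al, THEOREM NR: the blocks

Files `B_X.lean` in `Pool/Agent/Work/MP_3617d5_nr`, `import Pool.Agent.Work.MP_3617d5_nr.Interface`, `universe u`,
namespace `Pool.NR`, `theorem p_X (hA : Stmt_A.{u}) .. : Stmt_X.{u}` with exactly the blocks named after `uses` as hypotheses in that
order (`Stmt_UNP`, `Stmt_UNI` also have the universe `u`). Auxiliary lemmas with the prefix `X_`. No straight double quotes.

THE THEOREM. `n, m < p`, `G` an `n`-Engel `p`-group, `f : G → H` a homomorphism with soluble kernel. `G` is a Fitting group if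
(1) `H` is the adjoint group of a nil ring and an `m`-Engel `p`-group, or
(2) `H` is the group of units of a ring of characteristic `p ^ k` which is Lie `m`-Engel.

IDEA. `z * z = 0`. The abelian group `1 + z S z` and the elements `1 + z a` give `(z a) ^ m (z u z) = 0` (KGR); Nagata-Higman (NHT)
for the ring `z S` gives: `z` generates a nilpotent ideal. Induction on the exponent of `z` (IND).
-/

set_option autoImplicit false

open Nat

universe u

namespace Pool.NR

/-! ## Notions -/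

/-- `I` is a two-sided ideal. -/
structure IdI {S : Type u} [Ring S] (I : AddSubgroup S) : Prop where
  left : ∀ a, ∀ b ∈ I, a * b ∈ I
  right : ∀ a, ∀ b ∈ I, b * a ∈ I

/-- No torsion for the primes `≤ n`. -/
def TF {S : Type u} [Ring S] (n : ℕ) (I : AddSubgroup S) : Prop := ∀ b ∈ I, n ! • b = 0 → b = 0

/-- `z a₁ z a₂ ⋯ z a_k z` for the list `[a₁, …, a_k]`. -/
def zw {S : Type u} [Ring S] (z : S) : List S → S
  | [] => z
  | a :: l => z * a * zw z l

/-- The two-sided ideal generated by `z` is nilpotent. -/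
def NilGen {S : Type u} [Ring S] (z : S) : Prop := ∃ N : ℕ, ∀ l : List S, l.length = N → zw z l = 0

/-- Products of `M` elements of `T` are zero. -/
def NilT {S : Type u} [Ring S] (T : AddSubgroup S) : Prop :=
  ∃ M : ℕ, ∀ l : List S, l.length = M → (∀ b ∈ l, b ∈ T) → l.prod = 0

/-- The group `1 + I` is `n`-Engel. -/
def EngI {S : Type u} [Ring S] (n : ℕ) (I : AddSubgroup S) : Prop :=
  ∀ x y : Sˣ, (x : S) - 1 ∈ I → (y : S) - 1 ∈ I → (fun z : Sˣ => z⁻¹ * x⁻¹ * z * x)^[n] y = 1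

/-- `I` is a nil ideal without torsion for the primes `≤ n`, and `1 + I` is `n`-Engel. -/
structure Good1 {S : Type u} [Ring S] (n : ℕ) (I : AddSubgroup S) : Prop where
  idl : IdI I
  nil : ∀ b ∈ I, IsNilpotent b
  eng : EngI n I
  tf : TF n I

/-- `S` is Lie `n`-Engel without torsion for the primes `≤ n` (and `I` is an ideal). -/
structure Good2 {S : Type u} [Ring S] (n : ℕ) (I : AddSubgroup S) : Prop where
  idl : IdI I
  lie : LieEngel n S
  tf : TF n I

/-! ## Rings -/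

/-- **NHT** (250). Nagata-Higman modulo `T`. Induction on `n` (for all `T`, `B` fixed). `n = 1`: `2 ^ 1 - 1 = 1`, clear. `n ≥ 2`:
(a) LINEARISATION: `L(x, y) = ∑_{i < n} x ^ i * y * x ^ (n - 1 - i) ∈ T` for `x, y ∈ B`. Let `P_k(x, y)` be the part of degree `k` in `y` of
`(x + y) ^ n`, `(x + t y) ^ n = ∑_k t ^ k P_k`. All `P_k` are in `B` (they are sums of words), `P_0 = x ^ n` and `P_n = y ^ n` are in `T`, so
`∑_{1 ≤ k < n} t ^ k P_k ∈ T` for `t = 1, …, n - 1`. Eliminate: by induction one gets for `j < n`, for all `t` with `t + j ≤ n`,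
`∑_{1 ≤ k < n} [forward differences] …`, or use the Vandermonde determinant of `1, …, n - 1` (adjugate matrix over `ℤ`):
its value is `± ∏_{s < t} (t - s) ∏ t`, a product of numbers `< n`, so a divisor of a power of `n !`; hence `P_1 ∈ T`. (Other way: only
`P_1` is needed; `∑_{j=1}^{n} (-1) ^ (j-1) C(n, j) (1 / j) (j ^ k) = 0` for `2 ≤ k ≤ n` and `= 1` for `k = 1`, so
`∑_{j=1}^{n} (-1) ^ (j-1) (n ! / j) C(n, j) ((x + j y) ^ n - x ^ n) = n ! P_1`.)
(b) For `x, y, z ∈ B`: `∑_{i, j < n} x ^ (n-1-i) (z y ^ j) x ^ i y ^ (n-1-j)`. Sum over `i` first: `L(x, z y ^ j) y ^ (n-1-j) ∈ T`. Sum over `j`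
first: `x ^ (n-1-i) z L(y, x ^ i) ∈ T` for `i ≥ 1`, and `n x ^ (n-1) z y ^ (n-1)` for `i = 0`. So `x ^ (n-1) z y ^ (n-1) ∈ T`
(multiply by `(n-1)!`). (c) Let `T₀` be the additive subgroup generated by the `a x ^ (n-1) b` with `x ∈ B`, `a, b ∈ B ∪ {1}` (words: at most one
factor of `B` on each side), and `T' = {b ∈ B | ∃ k, (n !) ^ k • b ∈ T₀ + T}`. Then `T₀ * B * T₀ ⊆ T` by (b) (`z` replaced by products), so
`T' * B * T' ⊆ T` (torsion: `T` is `n !`-saturated in `B`; note `T₀ ⊆ B`, take `T ⊓ B` in place of `T` first). `T'` satisfies the hypotheses for `n - 1`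
(`(n-1)! • b ∈ T'` implies `n ! • b ∈ T'`), so products of `2 ^ (n-1) - 1` elements of `B` are in `T'`, and
`2 ^ n - 1 = (2 ^ (n-1) - 1) + 1 + (2 ^ (n-1) - 1)`. -/
def Stmt_NHT : Prop := ∀ (S : Type u) [Ring S] (B : AddSubgroup S) (n : ℕ), 1 ≤ n → (∀ a ∈ B, ∀ b ∈ B, a * b ∈ B) →
  ∀ T : AddSubgroup S, (∀ b ∈ B, ∀ t ∈ T, b * t ∈ T ∧ t * b ∈ T) → (∀ b ∈ B, n ! • b ∈ T → b ∈ T) → (∀ x ∈ B, x ^ n ∈ T) →
  ∀ l : List S, l.length = 2 ^ n - 1 → (∀ b ∈ l, b ∈ B) → l.prod ∈ T

/-- **KGR** (150). The group identity. Let `t = z * a ∈ I`, nilpotent, `x` the unit `1 + t` (`IsNilpotent.isUnit_one_add` or similar), `W` the set of the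
`z * u * z`. For `w ∈ W`: `w * x = w` (`z * z = 0`), `x⁻¹ * w ∈ W` (`z * a` nilpotent, so `a * z` too, `(a z) ^ (k+1) = a (z a) ^ k z`;
`x * z = z * (1 + a * z)`, so `x⁻¹ * z = z * (1 + a * z)⁻¹`), `w * w' = 0` for `w, w' ∈ W`. The unit `1 + w` has the inverse `1 - w`, and
`(1 + w)⁻¹ * x⁻¹ * (1 + w) * x = (1 - w) (1 + x⁻¹ w) = 1 + (x⁻¹ - 1) w`, with `(x⁻¹ - 1) w = x⁻¹ w - w ∈ W`. So the
`n`-th iterate at `1 + w` is `1 + (x⁻¹ - 1) ^ n * w`, and `EngI` (`x - 1 = t ∈ I`, `w ∈ I`) gives `(x⁻¹ - 1) ^ n * w = 0`. As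
`x⁻¹ - 1 = - x⁻¹ * t` and `x⁻¹` commutes with `t`, multiply by `(-x) ^ n`: `t ^ n * w = 0`. -/
def Stmt_KGR : Prop := ∀ (S : Type u) [Ring S] (n : ℕ) (I : AddSubgroup S), IdI I → (∀ b ∈ I, IsNilpotent b) → EngI n I →
  ∀ z ∈ I, z * z = 0 → ∀ a u : S, (z * a) ^ n * (z * u * z) = 0

/-- **KLI** (60). The Lie identity. `(fun x => x * y - y * x)^[n] v = ∑ i, (-1) ^ i * C(n, i) * y ^ i * v * y ^ (n - i)` (or: prove by induction that
it is `v * y ^ n + ∑` of terms beginning with `y`, i.e. `v * y ^ n + y * c` for some `c`). With `y = z * a`, `v = u`: multiply by `z` on the left,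
`z * y = 0`, so `z * u * (z * a) ^ n = 0`. -/
def Stmt_KLI : Prop := ∀ (S : Type u) [Ring S] (n : ℕ), LieEngel n S → ∀ z a u : S, z * z = 0 → z * u * (z * a) ^ n = 0

/-- **SQG** (80), uses NHT KGR. `B = {z * a}` (`AddSubgroup`, range of the left multiplication by `z`), contained in `I`;
`T = {t | ∀ b b' ∈ B, t * b * b' = 0}`. KGR: `(z * a) ^ n * (z * c) * (z * d) = ((z * a) ^ n * (z * c * z)) * d = 0`. Saturated: `n ! • b ∈ T` gives
`n ! • (b * b' * b'') = 0`, so `b * b' * b'' = 0` (`TF`, in `I`). NHT: products of `2 ^ n - 1` elements of `B` are in `T`, so products of `2 ^ n + 1`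
elements are zero, and `zw z l = (z * a₁) ⋯ (z * a_k) * z`. `N = 2 ^ n + 1`. -/
def Stmt_SQG : Prop := ∀ (S : Type u) [Ring S] (n : ℕ) (I : AddSubgroup S), 1 ≤ n → Good1 n I → ∀ z ∈ I, z * z = 0 → NilGen z

/-- **SQL** (60), uses NHT KLI. As SQG with `T = {t | ∀ b ∈ B, b * t = 0}`: `(z * u) * (z * a) ^ n = 0`. -/
def Stmt_SQL : Prop := ∀ (S : Type u) [Ring S] (n : ℕ) (I : AddSubgroup S), 1 ≤ n → Good2 n I → ∀ z ∈ I, z * z = 0 → NilGen z

/-- **NGI** (80). `T` = the additive subgroup generated by the `a * z * b`. A product of `M` elements: by `AddSubgroup.closure_induction` in every factor it is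
enough to treat the generators, and `(a₁ z b₁)(a₂ z b₂) ⋯ (a_M z b_M) = a₁ * zw z [b₁ a₂, …, b_(M-1) a_M] * b_M`; `M = N + 1`. -/
def Stmt_NGI : Prop := ∀ (S : Type u) [Ring S] (z : S), NilGen z →
  IdI (AddSubgroup.closure {x : S | ∃ a b, x = a * z * b}) ∧ z ∈ AddSubgroup.closure {x : S | ∃ a b, x = a * z * b} ∧
    NilT (AddSubgroup.closure {x : S | ∃ a b, x = a * z * b})

/-- **TCL** (80), uses NGI. `T = {b ∈ I | ∃ j, (n !) ^ j • b ∈ T₀}`, `T₀` the ideal generated by `z` (NGI). Nilpotent: for `b₁, …, b_M ∈ T` with exponents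
`j₁, …, j_M`, `(n !) ^ (∑ j) • (b₁ ⋯ b_M) = ∏ ((n !) ^ (j i) • b i) = 0`, and the product is in `I` (`M ≥ 1` can be assumed), so it is zero by `TF`
(`(n !) ^ j • b = 0` implies `b = 0`, induction on `j`). -/
def Stmt_TCL : Prop := ∀ (S : Type u) [Ring S] (n : ℕ) (I : AddSubgroup S), IdI I → TF n I → ∀ z ∈ I, NilGen z →
  ∃ T : AddSubgroup S, IdI T ∧ z ∈ T ∧ T ≤ I ∧ NilT T ∧ ∀ b ∈ I, n ! • b ∈ T → b ∈ T

/-- **QUO** (60). The quotient by the two-sided ideal `T` (`TwoSidedIdeal.mk'`, `RingCon.Quotient`, `RingCon.mk'`). -/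
def Stmt_QUO : Prop := ∀ (S : Type u) [Ring S] (T : AddSubgroup S), IdI T →
  ∃ (S' : Type u) (_ : Ring S') (π : S →+* S'), Function.Surjective π ∧ ∀ a, π a = 0 ↔ a ∈ T

/-- **IND** (150), uses TCL QUO. Induction on `k` with `z ^ k = 0`, for all `S`, `I`, `z`. `k = 0`: `1 = 0`, all is zero. `k = 1`: `z = 0`. `k + 1 ≥ 2`: `y = z ^ k ∈ I`
has `y * y = 0` (`2 k ≥ k + 1`), so `NilGen y`; take `T` from TCL for `y` and `π : S → S'` from QUO, `I' = I.map π`. `TF n I'`: `n ! • π b = 0` gives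
`n ! • b ∈ T`, `b ∈ T`, `π b = 0`. So `Good S' I'`; `π z ^ k = 0`, and the induction hypothesis gives `N` with `π (zw z l) = zw (π z) (l.map π) = 0` for
`l.length = N`, i.e. `zw z l ∈ T`. With `M` from `NilT T` and `zw z (l ++ a :: l') = zw z l * a * zw z l'`, a word `zw z L` with
`L.length = (M + 1) * (N + 1)` is a product of at least `M` elements of `T` (absorb the `a` in the next factor, `T` is an ideal), so it is zero. -/
def Stmt_IND : Prop := ∀ (n : ℕ) (Good : ∀ (S : Type u) [Ring S], AddSubgroup S → Prop),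
  (∀ (S : Type u) [Ring S] (I : AddSubgroup S), Good S I → IdI I ∧ TF n I) →
  (∀ (S : Type u) [Ring S] (I : AddSubgroup S), Good S I → ∀ z ∈ I, z * z = 0 → NilGen z) →
  (∀ (S : Type u) [Ring S] (I : AddSubgroup S) (S' : Type u) [Ring S'] (π : S →+* S'), Function.Surjective π → Good S I →
    TF n (I.map π.toAddMonoidHom) → Good S' (I.map π.toAddMonoidHom)) →
  ∀ (S : Type u) [Ring S] (I : AddSubgroup S), Good S I → ∀ z ∈ I, IsNilpotent z → NilGen z

/-- **QIE** (100). Quotients of `Good1`. `I.map π` is an ideal (surjectivity) and nil. A unit `x'` of `S'` with `x' - 1 = π b`, `b ∈ I`, is the image of the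
unit `1 + b` (`b` nilpotent) under `Units.map π`, and `Units.map π` commutes with the iterates (`Function.Semiconj.iterate_right`). -/
def Stmt_QIE : Prop := ∀ (S : Type u) [Ring S] (n : ℕ) (I : AddSubgroup S) (S' : Type u) [Ring S'] (π : S →+* S'),
  Function.Surjective π → Good1 n I → TF n (I.map π.toAddMonoidHom) → Good1 n (I.map π.toAddMonoidHom)

/-- **QIL** (40). Quotients of `Good2`. -/
def Stmt_QIL : Prop := ∀ (S : Type u) [Ring S] (n : ℕ) (I : AddSubgroup S) (S' : Type u) [Ring S'] (π : S →+* S'),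
  Function.Surjective π → Good2 n I → TF n (I.map π.toAddMonoidHom) → Good2 n (I.map π.toAddMonoidHom)

/-- **GEN** (120). `T` a nilpotent ideal: `H = {u | u - 1 ∈ T}` is a normal subgroup of `Sˣ` (`u⁻¹ - 1 = - u⁻¹ (u - 1)`, `g u g⁻¹ - 1 = g (u - 1) g⁻¹`,
`u v - 1 = (u - 1) v + (v - 1)`). It is nilpotent: `T_k` = additive subgroup generated by the products of `k + 1` elements of `T` (lists), `T_k T_l ⊆ T_(k+l+1)`,
`T_M = 0`, each `T_k` is an ideal. `H_k = {u ∈ H | u - 1 ∈ T_k}` is a descending central series (`nilpotent_iff_finite_descending_central_series`): for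
`x ∈ H_k`, `g ∈ H`, `x g x⁻¹ g⁻¹ - 1 = ((x - 1)(g - 1) - (g - 1)(x - 1)) x⁻¹ g⁻¹ ∈ T_(k+1)`. -/
def Stmt_GEN : Prop := ∀ (S : Type u) [Ring S] (T : AddSubgroup S), IdI T → NilT T →
  ∃ H : Subgroup Sˣ, H.Normal ∧ Group.IsNilpotent H ∧ ∀ x : Sˣ, x ∈ H ↔ (x : S) - 1 ∈ T

/-- **PTF** (100). `q`-torsion, `q ≤ n` prime. Suppose `b ∈ I`, `b ≠ 0`, `n ! • b = 0`. Choose `j ≥ 1` with `c = b ^ j ≠ 0`, `b ^ (j+1) = 0` (`b` is nilpotent and not
zero, `Nat.find`); `c ∈ I`, `n ! • c = 0`, `c * c = 0`. The unit `1 + c` has `(1 + c) ^ m = 1 + m • c`, so `p ^ k • c = 0` for some `k`, and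
`n !`, `p ^ k` are coprime (`Nat.Prime.dvd_factorial`, `Nat.Coprime.pow_right`), so `c = 0` (`Nat.Coprime`, Bezout: `Int.isCoprime`). -/
def Stmt_PTF : Prop := ∀ (S : Type u) [Ring S] (I : AddSubgroup S) (p n : ℕ), p.Prime → n < p → IdI I → (∀ b ∈ I, IsNilpotent b) →
  (∀ x : Sˣ, (x : S) - 1 ∈ I → ∃ k, x ^ p ^ k = 1) → TF n I

/-- **UNP** (60). `z = x - 1`: by `Commute.exists_add_pow_prime_pow_eq` for `x` and `-1`, `z ^ (p ^ e) = x ^ (p ^ e) + (-1) ^ (p ^ e) + p * c`, which is `p * c'` if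
`x ^ (p ^ e) = 1` (`p` odd: `1 - 1`; `p = 2`: `1 + 1 = 2`, take `e ≥ 1` or treat `e = 0` separately: then `x = 1`). `(p * c') ^ k = p ^ k * c' ^ k = 0`. -/
def Stmt_UNP : Prop := ∀ (S : Type u) [Ring S] (p k e : ℕ), p.Prime → (p : S) ^ k = 0 → ∀ x : Sˣ, x ^ p ^ e = 1 → IsNilpotent ((x : S) - 1)

/-- **UNI** (150). `S = Unitization ℤ R`, `I` = the range of `Unitization.inr` (as an additive subgroup), an ideal: `(n, a) (0, b) = (0, n b + a b)`, nil because
`inr a ^ (k+1) = inr (mprod (fun _ => a) k)`. `F : Adj R →* Sˣ`, `u ↦ 1 + u`: `Unitization.unitsFstOne_mulEquiv_quasiregular ℤ` (inverse) followed by the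
inclusion; injective; its range consists of all units `x` with `x - 1 ∈ I` (`mem_unitsFstOne`). -/
def Stmt_UNI : Prop := ∀ (R : Type u) [NonUnitalRing R], NilRing R → ∃ (S : Type u) (_ : Ring S) (I : AddSubgroup S) (ι : R → S) (F : Adj R →* Sˣ),
  IdI I ∧ (∀ b ∈ I, IsNilpotent b) ∧ Function.Injective ι ∧ (∀ a, ι a ∈ I) ∧ (∀ b ∈ I, ∃ a, ι a = b) ∧ (∀ a b, ι (a * b) = ι a * ι b) ∧
    (∀ a b, ι (a + b) = ι a + ι b) ∧ Function.Injective F ∧ (∀ x : Sˣ, (x : S) - 1 ∈ I ↔ ∃ y, F y = x)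

/-! ## Soluble Engel groups (Gruenberg) -/

/-- **ABE** (200). An abelian group `Z` acting by unipotent operators of exponent `n < p` on a `p`-group `V`. Let `X g = ρ g - 1`; they commute and are nilpotent. Fix
`g₁, …, g_n` and let `A` be the commutative subring of `AddMonoid.End V` generated by the `ρ g` (`Algebra.adjoin`, or work with `Commute` only), `ω` the ideal
generated by `X g₁, …, X g_n`; `ω` is nilpotent. For `c : Fin n → ℕ`, `g = ∏ g i ^ c i`: `X g ≡ ∑ c i X (g i)` modulo `ω ^ 2`, so `0 = X g ^ n ≡ (∑ c i X (g i)) ^ n` modulo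
`ω ^ (n+1)`. Polarisation (`∑` over subsets `s` of `Fin n` of `(-1) ^ (n - |s|) (∑_{i ∈ s} Y i) ^ n = n ! ∏ Y i`; `c` = indicator of `s`) for every choice of
`Y i ∈ {X g₁, …, X g_n}` (repetitions allowed): `n ! ω ^ n ⊆ ω ^ (n+1)`, so `(n !) ^ j ω ^ n ⊆ ω ^ (n+j) = 0` for large `j`, and `n !` is injective on `V`
(`p`-group, `n < p`). -/
def Stmt_ABE : Prop := ∀ (Z : Type u) [CommGroup Z] (V : Type u) [AddCommGroup V] (ρ : Z →* AddMonoid.End V) (p n : ℕ), p.Prime → n < p →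
  (∀ v : V, ∃ k : ℕ, p ^ k • v = 0) → (∀ g, (ρ g - 1) ^ n = 0) → ∀ l : List Z, l.length = n → (l.map fun g => ρ g - 1).prod = 0

/-- **NAC** (250), uses ABE. The same for a nilpotent group `Q`, with a bound `N` which does not depend on `V`. Induction
`Group.nilpotent_center_quotient_ind` (or `nilpotent_center_quotient_ind`). Trivial group: `ρ g - 1 = 0`, `N = 1`. Step: `Z = center Q`,
`N'` the bound of `Q / Z`. For `V`, `ρ`: let `V'` be the subgroup of `V` generated by the `(ρ z - 1) v`, `z ∈ Z`; it is invariant, and `Q / Z` acts on `V / V'`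
(`QuotientAddGroup.map`), with the same properties. So a product `P` of `N'` operators `ρ g - 1` maps `V` to `V'`. The `ρ z - 1`, `z ∈ Z`, commute with all, so
(induction on `i`) a product of `i N'` operators maps `V` to the subgroup generated by the `(ρ z₁ - 1) ⋯ (ρ z_i - 1) v`; for `i = n` this is zero by ABE for
`Z`. `N = n N'` (`N = 1` if `n = 0`: then `1 = 0` in `End V`). -/
def Stmt_NAC : Prop := ∀ (p n : ℕ), p.Prime → n < p → ∀ (Q : Type u) [Group Q] [Group.IsNilpotent Q], ∃ N : ℕ,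
  ∀ (V : Type u) [AddCommGroup V] (ρ : Q →* AddMonoid.End V), (∀ v : V, ∃ k : ℕ, p ^ k • v = 0) → (∀ g, (ρ g - 1) ^ n = 0) →
    ∀ l : List Q, l.length = N → (l.map fun g => ρ g - 1).prod = 0

/-- **EXT** (200), uses NAC. `A` abelian normal, `G / A` nilpotent. `V = Additive A`, `G` acts by conjugation, `A` trivially, so `Q = G / A` acts (`QuotientGroup.lift`):
`ρ g a = g a g⁻¹`. For `a ∈ A`, `x ∈ G`: `a⁻¹ x⁻¹ a x` is `(ρ x⁻¹ - 1) a` in additive notation, so `Engel n` gives `(ρ x⁻¹ - 1) ^ n = 0` for all `x`. NAC: `N`.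
`c` with `lowerCentralSeries G c ≤ A` (`G / A` nilpotent). Then `lowerCentralSeries G (c + i)` is contained in the subgroup of `A` generated by the
`(ρ g₁ - 1) ⋯ (ρ g_i - 1) a`, which is trivial for `i = N` (the generators `a g a⁻¹ g⁻¹` of the next term are `- (ρ g - 1) a` for `a ∈ A`). -/
def Stmt_EXT : Prop := ∀ (G : Type u) [Group G] (p n : ℕ), p.Prime → n < p → IsPGroup p G → Engel n G → ∀ (A : Subgroup G) [A.Normal],
  (∀ a ∈ A, ∀ b ∈ A, a * b = b * a) → Group.IsNilpotent (G ⧸ A) → Group.IsNilpotent G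

/-- **SOL** (120), uses EXT. Soluble `n`-Engel `p`-groups with `n < p` are nilpotent. Induction on `d` with `derivedSeries G d = ⊥`, for all `G`:
`A = derivedSeries G d` if `derivedSeries G (d+1) = ⊥`, abelian and normal; `G ⧸ A` is a `p`-group (`IsPGroup.to_quotient`), `n`-Engel (images),
`derivedSeries (G ⧸ A) d = ⊥` (`map_derivedSeries_eq` for the surjection), so nilpotent. -/
def Stmt_SOL : Prop := ∀ (G : Type u) [Group G] (p n : ℕ), p.Prime → n < p → IsPGroup p G → Engel n G → Group.IsSolvable G → Group.IsNilpotent G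

/-- **PUL** (100), uses SOL. Let `x ∈ G`, `H` a nilpotent normal subgroup of `K` with `f x ∈ H`, `P = H.comap f`, normal in `G`, `x ∈ P`. `P` is soluble: the restriction
of `f` to `P` has a kernel which embeds in `f.ker` and its image embeds in `H` (`solvable_of_ker_le_range` or `isSolvable_of_...`). `P` is a
`p`-group and `n`-Engel (subgroup of `G`), so nilpotent by SOL. -/
def Stmt_PUL : Prop := ∀ (G K : Type u) [Group G] [Group K] (p n : ℕ), p.Prime → n < p → IsPGroup p G → Engel n G → ∀ f : G →* K, Group.IsSolvable f.ker →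
  (∀ x : G, ∃ H : Subgroup K, H.Normal ∧ Group.IsNilpotent H ∧ f x ∈ H) → Fitting G

end Pool.NR
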