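import Pool.Agent.Work.MP_3617d5_nr.Interface

/-!
# MP_3617d5_al, THEOREM NR, part 2: radical rings in place of nil rings

Same rules as part 1 (`import Pool.Agent.Work.MP_3617d5_nr.Interface2`); you may import finished files `B_X` of part 1 for their auxiliary lemmas.
A radical ring is a ring in which every element is quasi-regular; in `S`, `I`: `1 + b` is a unit for every `b ∈ I`.
-/

set_option autoImplicit false

open Nat

universe u

namespace Pool.NR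

/-- `I` is an ideal contained in the radical without torsion for the primes `≤ n`, and `1 + I` is `n`-Engel. -/
structure Good3 {S : Type u} [Ring S] (n : ℕ) (I : AddSubgroup S) : Prop where
  idl : IdI I
  uni : ∀ b ∈ I, IsUnit (1 + b)
  eng : EngI n I
  tf : TF n I

/-- **KG3** (150, edit of KGR). The proof of KGR: `1 + z * a` and `1 + a * z` are units because `z * a, a * z ∈ I`; `x * z = z * (1 + a * z)`, so
`x⁻¹ * z = z * (1 + a * z)⁻¹`. -/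
def Stmt_KG3 : Prop := ∀ (S : Type u) [Ring S] (n : ℕ) (I : AddSubgroup S), IdI I → (∀ b ∈ I, IsUnit (1 + b)) → EngI n I →
  ∀ z ∈ I, z * z = 0 → ∀ a u : S, (z * a) ^ n * (z * u * z) = 0

/-- **SQ3** (80, edit of SQG), uses NHT KG3. -/
def Stmt_SQ3 : Prop := ∀ (S : Type u) [Ring S] (n : ℕ) (I : AddSubgroup S), 1 ≤ n → Good3 n I → ∀ z ∈ I, z * z = 0 → NilGen z

/-- **QI3** (100, edit of QIE). A unit `x'` of `S'` with `x' - 1 = π b`, `b ∈ I`, is the image of the unit `1 + b`. -/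
def Stmt_QI3 : Prop := ∀ (S : Type u) [Ring S] (n : ℕ) (I : AddSubgroup S) (S' : Type u) [Ring S'] (π : S →+* S'),
  Function.Surjective π → Good3 n I → TF n (I.map π.toAddMonoidHom) → Good3 n (I.map π.toAddMonoidHom)

/-- **UN3** (150, edit of UNI). `1 + inr a` is a unit because `a` is quasi-regular (`isQuasiregular_iff_isUnit'` or similar). -/
def Stmt_UN3 : Prop := ∀ (R : Type u) [NonUnitalRing R], (∀ a : R, IsQuasiregular a) →
  ∃ (S : Type u) (_ : Ring S) (I : AddSubgroup S) (ι : R → S) (F : Adj R →* Sˣ),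
  IdI I ∧ (∀ b ∈ I, IsUnit (1 + b)) ∧ Function.Injective ι ∧ (∀ a, ι a ∈ I) ∧ (∀ b ∈ I, ∃ a, ι a = b) ∧ (∀ a b, ι (a * b) = ι a * ι b) ∧
    (∀ a b, ι (a + b) = ι a + ι b) ∧ Function.Injective F ∧ (∀ x : Sˣ, (x : S) - 1 ∈ I ↔ ∃ y, F y = x)

/-- **UP3** (80). `z = x - 1`. In `ℤ[X]`: `(1 + X) ^ (p ^ e) = 1 + X ^ (p ^ e) + p * (X * r)` (`exists_add_pow_prime_pow_eq`); evaluate at `z` (`Polynomial.aeval`):
`z ^ (p ^ e) = - p * z * r(z)`, and `r(z)` commutes with `z`, so `z ^ (p ^ e * (k+1)) = (-1) ^ (k+1) * p ^ (k+1) * z ^ (k+1) * r(z) ^ (k+1) = 0`, because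
`p ^ k • z = 0`. -/
def Stmt_UP3 : Prop := ∀ (S : Type u) [Ring S] (p k e : ℕ), p.Prime → ∀ x : Sˣ, x ^ p ^ e = 1 → p ^ k • ((x : S) - 1) = 0 →
  IsNilpotent ((x : S) - 1)

/-- **PT3** (150). `p` odd. (A) Let `ℓ ≠ p` be a prime and `d ∈ I`, `ℓ • d = 0`. Then `d = 0`: `u = 1 + d` has `u ^ q = 1`, `q` a power of `p`; with `s = φ(q) ≥ 1`,
`ℓ ^ s ≡ 1` modulo `q`, so `u ^ (ℓ ^ s) = u`; but `u ^ (ℓ ^ s) = 1 + d ^ (ℓ ^ s)` (the other binomial coefficients are divisible by `ℓ`, `ℓ • d = 0`; as in UP3: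
`(1 + X) ^ (ℓ ^ s) = 1 + X ^ (ℓ ^ s) + ℓ * (X * r)` in `ℤ[X]`). So `d = d ^ (ℓ ^ s)`, `d * (1 - d ^ (ℓ ^ s - 1)) = 0`, and the second factor is a unit (`I` is an
ideal, `ℓ ^ s ≥ 2`). (B) So `N' • d = 0`, `d ∈ I`, `N' ≥ 1` prime to `p` gives `d = 0` (induction on `N'`, `Nat.minFac`). (C) Let `b ∈ I`, `(1 + b) ^ q = 1`, `q = p ^ e`. If
`q = 1`, `b = 0`. Otherwise `q ≥ 3`; `(1 + X) ^ q - 1 = X * (q + X * h)` in `ℤ[X]`, `c = b * h(b) ∈ I`, `b * (q + c) = 0`, so `b * (1 + c) = (1 - q) • b`, and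
`b * (1 + c) ^ j = (1 - q) ^ j • b`. `(1 + c) ^ j = 1` for a suitable `j = p ^ e'`, so `N • b = 0` for the integer `N = (1 - q) ^ j - 1 ≠ 0` (`q ≥ 3`). Write
`|N| = p ^ k * N'`, `N'` prime to `p` (`Nat.exists_eq_pow_mul_and_not_dvd`), `d = p ^ k • b`, (B): `d = 0`. -/
def Stmt_PT3 : Prop := ∀ (S : Type u) [Ring S] (I : AddSubgroup S) (p : ℕ), p.Prime → p ≠ 2 → IdI I → (∀ b ∈ I, IsUnit (1 + b)) →
  (∀ x : Sˣ, (x : S) - 1 ∈ I → ∃ k, x ^ p ^ k = 1) → ∀ b ∈ I, ∃ k : ℕ, p ^ k • b = 0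

end Pool.NR
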