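import Pool.Agent.Work.MP_3617d5_nr.Interface2

/-!
# MP_3617d5_al, THEOREM NR, part 3: no condition on the characteristic

Same rules as part 1 (`import Pool.Agent.Work.MP_3617d5_nr.Interface3`); you may import finished files `B_X` of parts 1, 2 for their auxiliary lemmas.

THE THEOREM. `n, m < p`, `G` an `n`-Engel `p`-group, `f : G → H` with soluble kernel. `G` is a Fitting group if `H` is the adjoint group of any radical
ring and `m`-Engel, or the group of units of any Lie `m`-Engel ring. New: an element `x` of order `q = p ^ e` in `H` commutes with everything up to elements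
killed by `p ^ K` (LIE, resp. UNF), and then the problem is one about `S / p ^ K S` (JLM).
-/

set_option autoImplicit false

open Nat

universe u

namespace Pool.NR

/-- `s ↦ x⁻¹ s x - s`. -/
def Del {S : Type u} [Ring S] (x : Sˣ) : AddMonoid.End S :=
  (AddMonoidHom.mulRight (x : S)).comp (AddMonoidHom.mulLeft ((x⁻¹ : Sˣ) : S)) - AddMonoidHom.id S

theorem Del_apply {S : Type u} [Ring S] (x : Sˣ) (s : S) : Del x s = ((x⁻¹ : Sˣ) : S) * s * (x : S) - s := rfl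

/-- **LDE** (60). Induction on `j`: for `i ≥ 1`, `i + j ≥ m` and `s ∈ W`, `q ^ j • (Δ ^ i) s ∈ T`. `j = 0` is the hypothesis. Step: `∑_{t = 1}^{q} C(q, t) Δ ^ t = 0`
(`Commute.add_pow` or `add_pow` for `1 + Δ`), so `q • Δ ^ i = - ∑_{t = 2}^{q} C(q, t) Δ ^ (i + t - 1)`, apply `q ^ j •` and use the induction hypothesis for the
exponents `i + t - 1 ≥ i + 1`. Finally `i = 1`, `j = m`. -/
def Stmt_LDE : Prop := ∀ (V : Type u) [AddCommGroup V] (Δ : AddMonoid.End V) (W T : AddSubgroup V) (q m : ℕ), (1 + Δ) ^ q = 1 →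
  (∀ s ∈ W, ∀ i, m ≤ i → (Δ ^ i) s ∈ T) → ∀ s ∈ W, q ^ m • Δ s ∈ T

/-- **LIE** (60), uses LDE. `Δ = Del x`, `D s = s * x - x * s`: `Δ s = x⁻¹ * D s`, `D (x⁻¹ * s) = x⁻¹ * D s`, so `(Δ ^ i) s = x ^ (-i) * D^[i] s`, zero for `i ≥ m`. `1 + Δ` is the
conjugation with `x`, so `(1 + Δ) ^ q = 1`. LDE with `W = ⊤`, `T = ⊥`. -/
def Stmt_LIE : Prop := ∀ (S : Type u) [Ring S] (m q : ℕ), LieEngel m S → ∀ x : Sˣ, x ^ q = 1 → ∀ s : S, q ^ m • (s * (x : S) - (x : S) * s) = 0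

/-- **PER** (120). Perturbation. `z₀` = the unit `1 + N • s`, `z_{i+1} = z_i⁻¹ x⁻¹ z_i x`. By induction `z_i = 1 + N • d_i`, `d_i ∈ I`, with `d_i - (Del x) ^ i s ∈ N • I`
(i.e. `= N • b`, `b ∈ I`): `z_{i+1} - 1 = z_i⁻¹ x⁻¹ (z_i x - x z_i) = N • (z_i⁻¹ * Del x d_i)`, and `z_i⁻¹ - 1 = - z_i⁻¹ (z_i - 1) ∈ N • I`. `z_m = 1` (EngI), so `N • d_m = 0`,
`d_m = 0`. -/
def Stmt_PER : Prop := ∀ (S : Type u) [Ring S] (m N : ℕ) (I : AddSubgroup S), IdI I → (∀ b ∈ I, IsUnit (1 + b)) → EngI m I →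
  (∀ b ∈ I, N • b = 0 → b = 0) → ∀ x : Sˣ, (x : S) - 1 ∈ I → ∀ s ∈ I, ∃ b ∈ I, (Del x ^ m) s = N • b

/-- **NOP** (100). `E = ∑_{i < q} c ^ i`, `c * E = E` (`c ^ q = 1`), `E * E = q • E`. `c ^ i - 1 = (c - 1) * ∑_{j < i} c ^ j` (`mul_geom_sum`), `c - 1 = q • d`, so
`E = q • (1 - f)` with `f = - d * ∑_{i < q} ∑_{j < i} c ^ j ∈ I`. `E * E = q • E` gives `q • q • (f * f - f) = 0`, so `f * f = f`; `f * (1 - f) = 0` and `1 - f` is a unit, so `f = 0`,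
`E = q`, `q • (c - 1) = c * E - E = 0`, `c = 1`. -/
def Stmt_NOP : Prop := ∀ (S : Type u) [Ring S] (q : ℕ) (I : AddSubgroup S), IdI I → (∀ b ∈ I, IsUnit (1 + b)) → (∀ b ∈ I, q • b = 0 → b = 0) →
  ∀ c : Sˣ, c ^ q = 1 → (∃ d ∈ I, (c : S) - 1 = q • d) → c = 1

/-- **CIN** (100), uses NOP. `z₀` = the unit `1 + s`, `z_{i+1} = z_i⁻¹ x⁻¹ z_i x`, `z_i - 1 ∈ L` (`z_{i+1} - 1 = z_i⁻¹ x⁻¹ ((z_i - 1) x - x (z_i - 1))`), `z_m = 1` (EngI). If `z_{i+2} = 1`, then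
`c = z_{i+1}` commutes with `x`, `v = z_i`: `x⁻¹ v x = v c`, so `v = x ^ (-q) v x ^ q = v c ^ q` and `c ^ q = 1`, `c = 1` by NOP. So `z₁ = 1` (`m ≥ 1`; if `m = 0`, `z₀ = 1`), i.e. `1 + s`
commutes with `x`. -/
def Stmt_CIN : Prop := ∀ (S : Type u) [Ring S] (m q : ℕ) (I L : AddSubgroup S), IdI I → (∀ b ∈ I, IsUnit (1 + b)) → EngI m I →
  (∀ b ∈ I, q • b = 0 → b = 0) → IdI L → L ≤ I → (∀ b ∈ L, ∃ c ∈ I, b = q • c) → ∀ x : Sˣ, (x : S) - 1 ∈ I → x ^ q = 1 → ∀ s ∈ L, s * (x : S) = (x : S) * s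

/-- **CEN** (120), uses LDE PER CIN. `L = {b | ∀ r, ∃ c ∈ I, b = p ^ r • c}` is an ideal contained in `I` (`r = 0`); if `b ∈ I` and `p ^ k • b ∈ L` then `b ∈ L` (no `p`-torsion:
`p ^ k • b = p ^ (k + r) • c` gives `b = p ^ r • c`). `Δ = Del x`, `q = p ^ e`, `(1 + Δ) ^ q = 1`. PER with `N = p ^ r`: `(Δ ^ m) s ∈ L` for `s ∈ I`, and then `(Δ ^ i) s ∈ L` for `i ≥ m` (`Δ` preserves
the ideal `L`). LDE (`W = I`, `T = L`): `q ^ m • Δ s ∈ L`, so `Δ s ∈ L` for `s ∈ I`. CIN: `Δ (Δ s) = 0`, so `(Δ ^ i) s = 0` for `i ≥ 2`, and LDE (`W = I`, `T = ⊥`): `q ^ 2 • Δ s = 0`, `Δ s = 0`. -/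
def Stmt_CEN : Prop := ∀ (S : Type u) [Ring S] (m p e : ℕ) (I : AddSubgroup S), IdI I → (∀ b ∈ I, IsUnit (1 + b)) → EngI m I →
  (∀ b ∈ I, p • b = 0 → b = 0) → ∀ x : Sˣ, (x : S) - 1 ∈ I → x ^ p ^ e = 1 → ∀ s ∈ I, s * (x : S) = (x : S) * s

/-- **TRA** (120), uses QUO CEN. `A = {b ∈ I | ∃ k, p ^ k • b = 0}` is an ideal; `π : S → S'` the quotient by `A` (QUO), `I' = I.map π`: an ideal, `1 + b'` is a unit for `b' ∈ I'`, `1 + I'` is
`m`-Engel (as in QI3; use its auxiliary lemmas), `p • π b = 0` gives `p • b ∈ A`, `b ∈ A`, `π b = 0`. CEN for `x' = Units.map π x`. -/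
def Stmt_TRA : Prop := ∀ (S : Type u) [Ring S] (m p e : ℕ) (I : AddSubgroup S), IdI I → (∀ b ∈ I, IsUnit (1 + b)) → EngI m I →
  ∀ x : Sˣ, (x : S) - 1 ∈ I → x ^ p ^ e = 1 → ∀ s ∈ I, ∃ k : ℕ, p ^ k • (s * (x : S) - (x : S) * s) = 0

/-- **UNF** (100), uses TRA. Suppose not: for every `K` there is `s K ∈ I` with `p ^ K • (s K * x - x * s K) ≠ 0`. Apply TRA to the ring `ℕ → S`, the ideal of the functions with
values in `I`, the constant function `x` and the function `s` (units, Engel condition: componentwise); at `K = k` a contradiction. -/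
def Stmt_UNF : Prop := ∀ (S : Type u) [Ring S] (m p e : ℕ) (I : AddSubgroup S), IdI I → (∀ b ∈ I, IsUnit (1 + b)) → EngI m I →
  ∀ x : Sˣ, (x : S) - 1 ∈ I → x ^ p ^ e = 1 → ∃ K : ℕ, ∀ s ∈ I, p ^ K • (s * (x : S) - (x : S) * s) = 0

/-- **JLM** (100). `J = {b | N • b = 0 ∧ π b ∈ T'}` is an ideal. A product of `M + 1` elements of `J`, `M` from `NilT T'`: the product `a` of the first `M` has `π a = 0`, `a = N • s`, and
`(N • s) * j = s * (N • j) = 0`. `π (s * x - x * s) = π s * (π x - 1) - (π x - 1) * π s ∈ T'`. -/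
def Stmt_JLM : Prop := ∀ (S S' : Type u) [Ring S] [Ring S'] (π : S →+* S') (N : ℕ) (x : S) (W : Set S) (T' : AddSubgroup S'),
  (∀ a, π a = 0 → ∃ s, a = N • s) → IdI T' → NilT T' → π x - 1 ∈ T' → (∀ s ∈ W, N • (s * x - x * s) = 0) →
  ∃ J : AddSubgroup S, IdI J ∧ NilT J ∧ ∀ s ∈ W, s * x - x * s ∈ J

/-- **GRC** (50). `C` = the preimage of the centre of `K ⧸ H₀`: normal, contains `x`; soluble because the centre is commutative and `H₀` is nilpotent (`solvable_of_ker_le_range`). -/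
def Stmt_GRC : Prop := ∀ (K : Type u) [Group K] (H₀ : Subgroup K), H₀.Normal → Group.IsNilpotent H₀ → ∀ x : K, (∀ y : K, y * x * y⁻¹ * x⁻¹ ∈ H₀) →
  ∃ C : Subgroup K, C.Normal ∧ Group.IsSolvable C ∧ x ∈ C

/-- **PU2** (40, edit of B_PUL), uses SOL. -/
def Stmt_PU2 : Prop := ∀ (G K : Type u) [Group G] [Group K] (p n : ℕ), p.Prime → n < p → IsPGroup p G → Engel n G → ∀ f : G →* K, Group.IsSolvable f.ker →
  (∀ x : G, ∃ H : Subgroup K, H.Normal ∧ Group.IsSolvable H ∧ f x ∈ H) → Fitting G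

end Pool.NR
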