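import Pool.Agent.Work.MP_3617d5_nr.Interface

/-!
# MP_3617d5_al, THEOREM NR: the assembly
-/

set_option autoImplicit false

open Nat

universe u v w

namespace Pool.NR

theorem SK_mono {n : ℕ} {G : Type u} [Group G] (h : Engel n G) : Engel (n + 1) G := by
  intro x y
  rw [Function.iterate_succ_apply', h x y]
  simp

theorem SK_one {p m : ℕ} (hp : p.Prime) (hm : m < p) {G : Type u} [Group G] (h : Engel m G) :
    ∃ m', 1 ≤ m' ∧ m' < p ∧ Engel m' G := by
  rcases Nat.eq_zero_or_pos m with rfl | hm0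
  · exact ⟨1, le_rfl, hp.one_lt, SK_mono h⟩
  · exact ⟨m, hm0, hm, h⟩

theorem SK_oneL {p m : ℕ} (hp : p.Prime) (hm : m < p) {S : Type u} [Ring S] (h : LieEngel m S) :
    ∃ m', 1 ≤ m' ∧ m' < p ∧ LieEngel m' S := by
  rcases Nat.eq_zero_or_pos m with rfl | hm0
  · refine ⟨1, le_rfl, hp.one_lt, fun x y => ?_⟩
    have h1 : ∀ a : S, a = 0 := fun a => h a 0
    rw [h1 ((fun z : S => z * y - y * z)^[1] x)]
  · exact ⟨m, hm0, hm, h⟩

/-- the torsion condition in characteristic `p ^ k` -/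
theorem SK_tf {p m k : ℕ} (hp : p.Prime) (hm : m < p) {S : Type u} [Ring S] (hk : (p : S) ^ k = 0)
    (I : AddSubgroup S) : TF m I := by
  intro b _ hb
  have hc : Nat.Coprime (m !) (p ^ k) :=
    Nat.Coprime.pow_right _ ((Nat.Prime.coprime_iff_not_dvd hp).2 (by
      rw [hp.dvd_factorial]; omega)).symm
  have h1 : (p ^ k) • b = 0 := by
    rw [nsmul_eq_mul, Nat.cast_pow, hk, zero_mul]
  have h2 : ((m ! : ℕ) : ℤ) • b = 0 := by rw [natCast_zsmul]; exact hb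
  have h3 : ((p ^ k : ℕ) : ℤ) • b = 0 := by rw [natCast_zsmul]; exact h1
  obtain ⟨u, v, huv⟩ := Nat.isCoprime_iff_coprime.2 hc
  calc b = (1 : ℤ) • b := (one_smul _ _).symm
    _ = (u * (m ! : ℕ) + v * (p ^ k : ℕ)) • b := by rw [huv]
    _ = 0 := by rw [add_smul, mul_smul, mul_smul, h2, h3, smul_zero, smul_zero, add_zero]

/-- units near the identity in the second case -/
theorem SK_two (hNHT : Stmt_NHT.{u}) (hKLI : Stmt_KLI.{u}) (hSQL : Stmt_NHT.{u} → Stmt_KLI.{u} → Stmt_SQL.{u})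
    (hIND : Stmt_IND.{u}) (hQIL : Stmt_QIL.{u}) (hNGI : Stmt_NGI.{u}) (hGEN : Stmt_GEN.{u}) (hUNP : Stmt_UNP.{u})
    {p m k : ℕ} (hp : p.Prime) (hm : m < p) (S : Type u) [Ring S] (hk : (p : S) ^ k = 0) (hL : LieEngel m S)
    (x : Sˣ) (e : ℕ) (hx : x ^ p ^ e = 1) :
    ∃ H : Subgroup Sˣ, H.Normal ∧ Group.IsNilpotent H ∧ x ∈ H := by
  obtain ⟨m', h1, h2, h3⟩ := SK_oneL hp hm hL
  have hg : Good2 m' (⊤ : AddSubgroup S) := ⟨⟨fun _ _ _ => trivial, fun _ _ _ => trivial⟩, h3, SK_tf hp h2 hk ⊤⟩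
  have h4 := hIND m' (fun _ _ I => Good2 m' I) (fun _ _ _ h => ⟨h.idl, h.tf⟩)
    (fun S _ I h z hz hzz => hSQL hNHT hKLI S m' I h1 h z hz hzz)
    (fun S _ I S' _ π hπ h htf => hQIL S m' I S' π hπ h htf) S ⊤ hg ((x : S) - 1) trivial
    (hUNP S p k e hp hk x hx)
  obtain ⟨h5, h6, h7⟩ := hNGI S _ h4
  obtain ⟨H, h8, h9, h10⟩ := hGEN S _ h5 h7
  exact ⟨H, h8, h9, (h10 x).2 h6⟩

/-- the first case in a ring with identity -/
theorem SK_oneR (hNHT : Stmt_NHT.{u}) (hKGR : Stmt_KGR.{u}) (hSQG : Stmt_NHT.{u} → Stmt_KGR.{u} → Stmt_SQG.{u})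
    (hIND : Stmt_IND.{u}) (hQIE : Stmt_QIE.{u}) {m : ℕ} (h1 : 1 ≤ m) (S : Type u) [Ring S] (I : AddSubgroup S)
    (hg : Good1 m I) (z : S) (hz : z ∈ I) : NilGen z :=
  hIND m (fun _ _ I => Good1 m I) (fun _ _ _ h => ⟨h.idl, h.tf⟩)
    (fun S _ I h z hz hzz => hSQG hNHT hKGR S m I h1 h z hz hzz)
    (fun S _ I S' _ π hπ h htf => hQIE S m I S' π hπ h htf) S I hg z hz (hg.nil z hz)

theorem SK_iter {G : Type u} {K : Type v} [Group G] [Group K] (F : G →* K) (x : G) (n : ℕ) (y : G) :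
    F ((fun z : G => z⁻¹ * x⁻¹ * z * x)^[n] y) = (fun z : K => z⁻¹ * (F x)⁻¹ * z * F x)^[n] (F y) := by
  induction n with
  | zero => rfl
  | succ n ih => rw [Function.iterate_succ_apply', Function.iterate_succ_apply', ← ih]; simp

theorem SK_mprod {R : Type u} [NonUnitalRing R] {S : Type v} [Ring S] (ι : R → S)
    (hmul : ∀ a b, ι (a * b) = ι a * ι b) (f : ℕ → R) (k : ℕ) :
    ι (mprod f k) = ((List.range (k + 1)).map fun i => ι (f i)).prod := by
  induction k with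
  | zero => simp [mprod]
  | succ k ih =>
    rw [List.range_succ, List.map_append, List.prod_append, ← ih, mprod, hmul]
    simp

theorem SK_main (hNHT : Stmt_NHT.{u}) (hKGR : Stmt_KGR.{u}) (hKLI : Stmt_KLI.{u})
    (hSQG : Stmt_NHT.{u} → Stmt_KGR.{u} → Stmt_SQG.{u}) (hSQL : Stmt_NHT.{u} → Stmt_KLI.{u} → Stmt_SQL.{u})
    (hNGI : Stmt_NGI.{u}) (hIND : Stmt_IND.{u}) (hQIE : Stmt_QIE.{u}) (hQIL : Stmt_QIL.{u})
    (hGEN : Stmt_GEN.{u}) (hPTF : Stmt_PTF.{u}) (hUNP : Stmt_UNP.{u}) (hUNI : Stmt_UNI.{u}) (hPUL : Stmt_PUL.{u})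
    (p n m : ℕ) (hp : p.Prime) (hn : n < p) (hm : m < p) :
    (∀ (R : Type u) [NonUnitalRing R], NilRing R → IsPGroup p (Adj R) → Engel m (Adj R) →
      ∀ a : R, ∃ J : AddSubgroup R, a ∈ J ∧ NilpotentIdeal J) ∧
    ∀ (G : Type u) [Group G], IsPGroup p G → Engel n G →
      (∀ (R : Type u) [NonUnitalRing R] (f : G →* Adj R), NilRing R → IsPGroup p (Adj R) → Engel m (Adj R) →
        Group.IsSolvable f.ker → Fitting G) ∧
      (∀ (S : Type u) [Ring S] (k : ℕ) (f : G →* Sˣ), (p : S) ^ k = 0 → LieEngel m S →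
        Group.IsSolvable f.ker → Fitting G) := by
  have key : ∀ (R : Type u) [NonUnitalRing R], NilRing R → IsPGroup p (Adj R) → Engel m (Adj R) →
      ∃ (S : Type u) (_ : Ring S) (I : AddSubgroup S) (ι : R → S) (F : Adj R →* Sˣ),
        (∀ z ∈ I, NilGen z) ∧ Function.Injective ι ∧ (∀ a, ι a ∈ I) ∧ (∀ b ∈ I, ∃ a, ι a = b) ∧
        (∀ a b, ι (a * b) = ι a * ι b) ∧ (∀ a b, ι (a + b) = ι a + ι b) ∧ Function.Injective F ∧
        (∀ y, (F y : S) - 1 ∈ I) := by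
    intro R _ hR hpR hE
    obtain ⟨m', h1, h2, h3⟩ := SK_one hp hm hE
    obtain ⟨S, hS, I, ι, F, a1, a2, a3, a4, a5, a6, a7, a8, a9⟩ := hUNI R hR
    have hEI : EngI m' I := by
      intro x y hx hy
      obtain ⟨x0, rfl⟩ := (a9 x).1 hx
      obtain ⟨y0, rfl⟩ := (a9 y).1 hy
      rw [← SK_iter F x0 m' y0, h3 x0 y0, map_one]
    have htf : TF m' I := by
      refine hPTF S I p m' hp h2 a1 a2 ?_
      intro x hx
      obtain ⟨x0, rfl⟩ := (a9 x).1 hx
      obtain ⟨k, hk⟩ := hpR x0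
      exact ⟨k, by rw [← map_pow, hk, map_one]⟩
    refine ⟨S, hS, I, ι, F, ?_, a3, a4, a5, a6, a7, a8, fun y => (a9 _).2 ⟨y, rfl⟩⟩
    exact fun z hz => SK_oneR hNHT hKGR hSQG hIND hQIE h1 S I ⟨a1, a2, hEI, htf⟩ z hz
  constructor
  · intro R _ hR hpR hE a
    obtain ⟨S, hS, I, ι, F, a1, a2, a3, a4, a5, a6, a7, a8⟩ := key R hR hpR hE
    obtain ⟨h5, h6, M, h7⟩ := hNGI S _ (a1 (ι a) (a3 a))
    set T := AddSubgroup.closure {x : S | ∃ c b, x = c * ι a * b} with hT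
    have hι0 : ι 0 = 0 := by
      have := a6 0 0
      rw [add_zero] at this
      simpa using this
    refine ⟨AddSubgroup.comap (AddMonoidHom.mk' ι a6) T, h6, ?_, M, ?_⟩
    · intro c b hb
      have hb' : ι b ∈ T := hb
      refine ⟨?_, ?_⟩
      · change ι (c * b) ∈ T
        rw [a5]; exact h5.left _ _ hb'
      · change ι (b * c) ∈ T
        rw [a5]; exact h5.right _ _ hb'
    · intro f hf
      apply a2
      rw [SK_mprod ι a5, hι0, List.range_succ, List.map_append, List.prod_append, h7, zero_mul]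
      · simp
      · intro b hb
        rw [List.mem_map] at hb
        obtain ⟨i, -, rfl⟩ := hb
        exact hf i
  · intro G _ hG hE
    constructor
    · intro R _ f hR hpR hER hf
      refine hPUL G (Adj R) p n hp hn hG hE f hf ?_
      intro x
      obtain ⟨S, hS, I, ι, F, a1, a2, a3, a4, a5, a6, a7, a8⟩ := key R hR hpR hER
      obtain ⟨h5, h6, h7⟩ := hNGI S _ (a1 _ (a8 (f x)))
      obtain ⟨H, h8, h9, h10⟩ := hGEN S _ h5 h7
      refine ⟨H.comap F, inferInstance, ?_, (h10 (F (f x))).2 h6⟩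
      haveI := h9
      refine Subgroup.isNilpotent_of_ker_le_center (F.subgroupComap H) ?_
      intro y hy
      have : y = 1 := by
        apply Subtype.ext
        apply a7
        have := congrArg Subtype.val (MonoidHom.mem_ker.1 hy)
        simpa using this
      rw [this]
      exact Subgroup.one_mem _
    · intro S _ k f hk hL hf
      refine hPUL G Sˣ p n hp hn hG hE f hf ?_
      intro x
      obtain ⟨e, he⟩ := hG x
      exact SK_two hNHT hKLI hSQL hIND hQIL hNGI hGEN hUNP hp hm S hk hL (f x) e (by rw [← map_pow, he, map_one])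

end Pool.NR
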