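import Pool.Agent.Work.MP_3617d5_nr.Interface2
import Pool.Agent.Work.MP_3617d5_nr.Skel

/-!
# MP_3617d5_al, THEOREM NR: the assembly, part 2
-/

set_option autoImplicit false

open Nat

universe u

namespace Pool.NR

/-- the torsion condition for an additive `p`-group -/
theorem SK3_tf {p m : ℕ} (hp : p.Prime) (hm : m < p) {S : Type u} [Ring S]
    (I : AddSubgroup S) (hk : ∀ b ∈ I, ∃ k : ℕ, p ^ k • b = 0) : TF m I := by
  intro b hbI hb
  obtain ⟨k, h1⟩ := hk b hbI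
  have hc : Nat.Coprime (m !) (p ^ k) :=
    Nat.Coprime.pow_right _ ((Nat.Prime.coprime_iff_not_dvd hp).2 (by
      rw [hp.dvd_factorial]; omega)).symm
  have h2 : ((m ! : ℕ) : ℤ) • b = 0 := by rw [natCast_zsmul]; exact hb
  have h3 : ((p ^ k : ℕ) : ℤ) • b = 0 := by rw [natCast_zsmul]; exact h1
  obtain ⟨u, v, huv⟩ := Nat.isCoprime_iff_coprime.2 hc
  calc b = (1 : ℤ) • b := (one_smul _ _).symm
    _ = (u * (m ! : ℕ) + v * (p ^ k : ℕ)) • b := by rw [huv]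
    _ = 0 := by rw [add_smul, mul_smul, mul_smul, h2, h3, smul_zero, smul_zero, add_zero]

/-- commutative groups are Fitting groups -/
theorem SK3_ab {G : Type u} [Group G] (h : Engel 1 G) : Fitting G := by
  intro g
  have hc : ∀ x y : G, y * x = x * y := by
    intro x y
    have h1 := h x y
    simp only [Function.iterate_one] at h1
    have h2 : y * x = (x * y) * (y⁻¹ * x⁻¹ * y * x) := by group
    rw [h2, h1, mul_one]
  refine ⟨⊤, inferInstance, ?_, trivial⟩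
  letI : CommGroup (⊤ : Subgroup G) :=
    { (inferInstance : Group (⊤ : Subgroup G)) with
      mul_comm := fun a b => Subtype.ext (hc b.1 a.1) }
  exact CommGroup.isNilpotent

theorem SK3_main (hNHT : Stmt_NHT.{u}) (hKG3 : Stmt_KG3.{u})
    (hSQ3 : Stmt_NHT.{u} → Stmt_KG3.{u} → Stmt_SQ3.{u})
    (hNGI : Stmt_NGI.{u}) (hIND : Stmt_IND.{u}) (hQI3 : Stmt_QI3.{u})
    (hGEN : Stmt_GEN.{u}) (hUN3 : Stmt_UN3.{u}) (hUP3 : Stmt_UP3.{u}) (hPT3 : Stmt_PT3.{u}) (hPUL : Stmt_PUL.{u})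
    (p n m : ℕ) (hp : p.Prime) (hn : n < p) (hm : m < p) (G : Type u) [Group G] (hG : IsPGroup p G)
    (hE : Engel n G) (R : Type u) [NonUnitalRing R] (hR : ∀ a : R, IsQuasiregular a)
    (hRp : IsPGroup p (Adj R) ∨ ∀ a : R, ∃ k : ℕ, p ^ k • a = 0) (hRE : Engel m (Adj R)) (f : G →* Adj R)
    (hf : Group.IsSolvable f.ker) : Fitting G := by
  by_cases hp2 : p = 2
  · subst hp2
    refine SK3_ab ?_
    rcases (by omega : n = 0 ∨ n = 1) with rfl | rfl
    · exact SK_mono hE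
    · exact hE
  refine hPUL G (Adj R) p n hp hn hG hE f hf ?_
  obtain ⟨m', h1, h2, h3⟩ := SK_one hp hm hRE
  obtain ⟨S, hS, I, ι, F, a1, a2, a3, a4, a5, a6, a7, a8, a9⟩ := hUN3 R hR
  have hEI : EngI m' I := by
    intro x y hx hy
    obtain ⟨x0, rfl⟩ := (a9 x).1 hx
    obtain ⟨y0, rfl⟩ := (a9 y).1 hy
    rw [← SK_iter F x0 m' y0, h3 x0 y0, map_one]
  have hprim : ∀ b ∈ I, ∃ k : ℕ, p ^ k • b = 0 := by
    rcases hRp with hRp | hRp
    · refine hPT3 S I p hp hp2 a1 a2 ?_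
      intro x hx
      obtain ⟨x0, rfl⟩ := (a9 x).1 hx
      obtain ⟨k, hk⟩ := hRp x0
      exact ⟨k, by rw [← map_pow, hk, map_one]⟩
    · intro b hb
      obtain ⟨a, rfl⟩ := a5 b hb
      obtain ⟨k, hk⟩ := hRp a
      refine ⟨k, ?_⟩
      have h5 : (AddMonoidHom.mk' ι a7) (p ^ k • a) = p ^ k • (AddMonoidHom.mk' ι a7) a := map_nsmul _ _ _
      rw [hk, map_zero] at h5
      exact h5.symm
  have hg : Good3 m' I := ⟨a1, a2, hEI, SK3_tf hp h2 I hprim⟩
  intro x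
  obtain ⟨e, he⟩ := hG x
  have hz : (F (f x) : S) - 1 ∈ I := (a9 _).2 ⟨_, rfl⟩
  obtain ⟨k, hk⟩ := hprim _ hz
  have hnil := hUP3 S p k e hp (F (f x)) (by rw [← map_pow, ← map_pow, he, map_one, map_one]) hk
  have h4 := hIND m' (fun _ _ I => Good3 m' I) (fun _ _ _ h => ⟨h.idl, h.tf⟩)
    (fun S _ I h z hz hzz => hSQ3 hNHT hKG3 S m' I h1 h z hz hzz)
    (fun S _ I S' _ π hπ h htf => hQI3 S m' I S' π hπ h htf) S I hg _ hz hnil
  obtain ⟨h5, h6, h7⟩ := hNGI S _ h4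
  obtain ⟨H, h8, h9, h10⟩ := hGEN S _ h5 h7
  refine ⟨H.comap F, inferInstance, ?_, (h10 (F (f x))).2 h6⟩
  haveI := h9
  refine Subgroup.isNilpotent_of_ker_le_center (F.subgroupComap H) ?_
  intro y hy
  have : y = 1 := by
    apply Subtype.ext
    apply a8
    have := congrArg Subtype.val (MonoidHom.mem_ker.1 hy)
    simpa using this
  rw [this]
  exact Subgroup.one_mem _

end Pool.NR
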