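import Pool.Agent.Work.MP_3617d5_nr.Interface3
import Pool.Agent.Work.MP_3617d5_nr.Skel2
import Pool.Agent.Work.MP_3617d5_nr.AllA
import Pool.Agent.Work.MP_3617d5_nr.B_KG3
import Pool.Agent.Work.MP_3617d5_nr.B_SQ3
import Pool.Agent.Work.MP_3617d5_nr.B_QI3
import Pool.Agent.Work.MP_3617d5_nr.B_UN3
import Pool.Agent.Work.MP_3617d5_nr.B_UP3
import Pool.Agent.Work.MP_3617d5_nr.B_PU2

/-!
# MP_3617d5_al, THEOREM NR: the assembly, part 3
-/

set_option autoImplicit false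

open Nat

universe u

namespace Pool.NR

/-- the ideal `N S` -/
def SK4_T (S : Type u) [Ring S] (N : ℕ) : AddSubgroup S := (nsmulAddMonoidHom (α := S) N).range

theorem SK4_mem {S : Type u} [Ring S] {N : ℕ} {b : S} : b ∈ SK4_T S N ↔ ∃ s, b = N • s := by
  constructor
  · rintro ⟨s, hs⟩
    exact ⟨s, hs.symm⟩
  · rintro ⟨s, rfl⟩
    exact ⟨s, rfl⟩

theorem SK4_id (S : Type u) [Ring S] (N : ℕ) : IdI (SK4_T S N) := by
  constructor
  · intro a b hb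
    obtain ⟨s, rfl⟩ := SK4_mem.1 hb
    exact SK4_mem.2 ⟨a * s, by rw [mul_smul_comm]⟩
  · intro a b hb
    obtain ⟨s, rfl⟩ := SK4_mem.1 hb
    exact SK4_mem.2 ⟨s * a, by rw [smul_mul_assoc]⟩

theorem SK4_map {S : Type u} [Ring S] {n : ℕ} {I : AddSubgroup S} {S' : Type u} [Ring S'] (π : S →+* S')
    (hπ : Function.Surjective π) (h1 : IdI I) (h2 : ∀ b ∈ I, IsUnit (1 + b)) (h3 : EngI n I)
    (h4 : TF n (I.map π.toAddMonoidHom)) : Good3 n (I.map π.toAddMonoidHom) := by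
  have lift : ∀ (x' : S'ˣ), (x' : S') - 1 ∈ I.map π.toAddMonoidHom →
      ∃ x : Sˣ, (x : S) - 1 ∈ I ∧ Units.map (π : S →* S') x = x' := by
    intro x' hx
    obtain ⟨b, hb, hbx⟩ := AddSubgroup.mem_map.1 hx
    have hu : IsUnit (1 + b) := h2 b hb
    refine ⟨hu.unit, ?_, ?_⟩
    · rw [IsUnit.unit_spec, add_sub_cancel_left]
      exact hb
    · apply Units.ext
      rw [Units.coe_map]
      have h1 : π b = (x' : S') - 1 := hbx
      change π ((hu.unit : Sˣ) : S) = (x' : S')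
      rw [IsUnit.unit_spec, map_add, map_one, h1]
      abel
  refine ⟨QIL_ideal I π hπ h1, ?_, ?_, h4⟩
  · intro b hb
    obtain ⟨b0, hb0, rfl⟩ := AddSubgroup.mem_map.1 hb
    have h := (h2 b0 hb0).map π
    rw [map_add, map_one] at h
    exact h
  · intro x' y' hx hy
    obtain ⟨x, hx1, rfl⟩ := lift x' hx
    obtain ⟨y, hy1, rfl⟩ := lift y' hy
    rw [← SK_iter (Units.map (π : S →* S')) x n y, h3 x y hx1 hy1, map_one]

/-- from a nilpotent ideal modulo `N S` to a soluble normal subgroup -/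
theorem SK4_lie (hLIE : Stmt_LIE.{u}) (hJLM : Stmt_JLM.{u}) (hGRC : Stmt_GRC.{u}) {p m e : ℕ} (hp : p.Prime) (hm : m < p)
    (S : Type u) [Ring S] (hL : LieEngel m S) (x : Sˣ) (hx : x ^ p ^ e = 1) :
    ∃ C : Subgroup Sˣ, C.Normal ∧ Group.IsSolvable C ∧ x ∈ C := by
  obtain ⟨m', h1, h2, h3⟩ := SK_oneL hp hm hL
  have hK := hLIE S m' (p ^ e) h3 x hx
  rw [← pow_mul] at hK
  set K := e * m' with hKdef
  obtain ⟨S', hS', π, hπ, hker⟩ := p_QUO S (SK4_T S (p ^ K)) (SK4_id S _)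
  have hpk : ((p : ℕ) : S') ^ K = 0 := by
    have h5 : π ((p ^ K : ℕ) • (1 : S)) = 0 := (hker _).2 (SK4_mem.2 ⟨1, rfl⟩)
    rw [map_nsmul, map_one, nsmul_one, Nat.cast_pow] at h5
    exact h5
  have hL' : LieEngel m' S' := by
    intro a' b'
    obtain ⟨a, rfl⟩ := hπ a'
    obtain ⟨b, rfl⟩ := hπ b'
    rw [← QIL_iter, h3 a b, map_zero]
  set x' : S'ˣ := Units.map (π : S →* S') x with hx'
  have hx1 : x' ^ p ^ e = 1 := by rw [hx', ← map_pow, hx, map_one]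
  have hval : (x' : S') = π (x : S) := rfl
  have hg : Good2 m' (⊤ : AddSubgroup S') := ⟨⟨fun _ _ _ => trivial, fun _ _ _ => trivial⟩, hL', SK_tf hp h2 hpk ⊤⟩
  have h4 := all_ind m' (fun _ _ I => Good2 m' I) (fun _ _ _ h => ⟨h.idl, h.tf⟩)
    (fun S _ I h z hz hzz => p_SQL p_NHT p_KLI S m' I h1 h z hz hzz)
    (fun S _ I S' _ π hπ h htf => p_QIL S m' I S' π hπ h htf) S' ⊤ hg ((x' : S') - 1) trivial
    (p_UNP S' p K e hp hpk x' hx1)
  obtain ⟨h5, h6, h7⟩ := p_NGI S' _ h4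
  rw [hval] at h5 h6 h7
  obtain ⟨J, j1, j2, j3⟩ := hJLM S S' π (p ^ K) (x : S) Set.univ _ (fun a ha => SK4_mem.1 ((hker a).1 ha)) h5 h7 h6
    (fun s _ => hK s)
  obtain ⟨H, h8, h9, h10⟩ := p_GEN S J j1 j2
  refine hGRC Sˣ H h8 h9 x ?_
  intro y
  rw [h10]
  have e1 : ((y * x * y⁻¹ * x⁻¹ : Sˣ) : S) - 1 = ((y : S) * x - (x : S) * y) * ((y⁻¹ * x⁻¹ : Sˣ) : S) := by
    have e2 : (x : S) * (y : S) * ((y⁻¹ * x⁻¹ : Sˣ) : S) = 1 := by
      rw [← Units.val_mul, ← Units.val_mul]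
      simp
    rw [sub_mul, e2]
    simp only [Units.val_mul, mul_assoc]
  rw [e1]
  exact j1.right _ _ (j3 _ (Set.mem_univ _))

/-- the Lie case -/
theorem SK4_main_units (hLIE : Stmt_LIE.{u}) (hJLM : Stmt_JLM.{u}) (hGRC : Stmt_GRC.{u})
    (p n m : ℕ) (hp : p.Prime) (hn : n < p) (hm : m < p) (G : Type u) [Group G] (hG : IsPGroup p G)
    (hE : Engel n G) (S : Type u) [Ring S] (hL : LieEngel m S) (f : G →* Sˣ)
    (hf : Group.IsSolvable f.ker) : Fitting G := by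
  refine p_PU2 (p_SOL (p_EXT (p_NAC p_ABE))) G Sˣ p n hp hn hG hE f hf ?_
  intro g
  obtain ⟨e, he⟩ := hG g
  exact SK4_lie hLIE hJLM hGRC hp hm S hL (f g) (by rw [← map_pow, he, map_one])

/-- the case of radical rings -/
theorem SK4_main_adj (hUNF : Stmt_UNF.{u}) (hJLM : Stmt_JLM.{u}) (hGRC : Stmt_GRC.{u})
    (p n m : ℕ) (hp : p.Prime) (hn : n < p) (hm : m < p) (G : Type u) [Group G] (hG : IsPGroup p G)
    (hE : Engel n G) (R : Type u) [NonUnitalRing R] (hR : ∀ a : R, IsQuasiregular a)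
    (hRE : Engel m (Adj R)) (f : G →* Adj R) (hf : Group.IsSolvable f.ker) : Fitting G := by
  refine p_PU2 (p_SOL (p_EXT (p_NAC p_ABE))) G (Adj R) p n hp hn hG hE f hf ?_
  obtain ⟨m', h1, h2, h3⟩ := SK_one hp hm hRE
  obtain ⟨S, hS, I, ι, F, a1, a2, a3, a4, a5, a6, a7, a8, a9⟩ := p_UN3 R hR
  have hEI : EngI m' I := by
    intro x y hx hy
    obtain ⟨x0, rfl⟩ := (a9 x).1 hx
    obtain ⟨y0, rfl⟩ := (a9 y).1 hy
    rw [← SK_iter F x0 m' y0, h3 x0 y0, map_one]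
  intro g
  obtain ⟨e, he⟩ := hG g
  set x : Sˣ := F (f g) with hxdef
  have hxI : (x : S) - 1 ∈ I := (a9 _).2 ⟨_, rfl⟩
  have hx : x ^ p ^ e = 1 := by rw [hxdef, ← map_pow, ← map_pow, he, map_one, map_one]
  obtain ⟨K, hK⟩ := hUNF S m' p e I a1 a2 hEI x hxI hx
  obtain ⟨S', hS', π, hπ, hker⟩ := p_QUO S (SK4_T S (p ^ K)) (SK4_id S _)
  have hpk : ∀ b : S', p ^ K • b = 0 := by
    intro b
    obtain ⟨a, rfl⟩ := hπ b
    rw [← map_nsmul]
    exact (hker _).2 (SK4_mem.2 ⟨a, rfl⟩)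
  have hg : Good3 m' (I.map π.toAddMonoidHom) :=
    SK4_map π hπ a1 a2 hEI (SK3_tf hp h2 _ fun b _ => ⟨K, hpk b⟩)
  set x' : S'ˣ := Units.map (π : S →* S') x with hx'
  have hx1 : x' ^ p ^ e = 1 := by rw [hx', ← map_pow, hx, map_one]
  have hval : (x' : S') = π (x : S) := rfl
  have hz : (x' : S') - 1 ∈ I.map π.toAddMonoidHom :=
    AddSubgroup.mem_map.2 ⟨_, hxI, by
      change π ((x : S) - 1) = _
      rw [map_sub, map_one, hval]⟩
  have h4 := all_ind m' (fun _ _ I => Good3 m' I) (fun _ _ _ h => ⟨h.idl, h.tf⟩)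
    (fun S _ I h z hz hzz => p_SQ3 p_NHT p_KG3 S m' I h1 h z hz hzz)
    (fun S _ I S' _ π hπ h htf => p_QI3 S m' I S' π hπ h htf) S' _ hg _ hz
    (p_UP3 S' p K e hp x' hx1 (hpk _))
  obtain ⟨h5, h6, h7⟩ := p_NGI S' _ h4
  rw [hval] at h5 h6 h7
  obtain ⟨J, j1, j2, j3⟩ := hJLM S S' π (p ^ K) (x : S) I _ (fun a ha => SK4_mem.1 ((hker a).1 ha)) h5 h7 h6
    (fun s hs => hK s hs)
  obtain ⟨H, h8, h9, h10⟩ := p_GEN S J j1 j2
  refine hGRC (Adj R) (H.comap F) inferInstance ?_ (f g) ?_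
  · haveI := h9
    refine Subgroup.isNilpotent_of_ker_le_center (F.subgroupComap H) ?_
    intro y hy
    have : y = 1 := by
      apply Subtype.ext
      apply a8
      have := congrArg Subtype.val (MonoidHom.mem_ker.1 hy)
      simpa using this
    rw [this]
    exact Subgroup.one_mem _
  · intro y0
    set y : Sˣ := F y0 with hydef
    have hyI : (y : S) - 1 ∈ I := (a9 _).2 ⟨_, rfl⟩
    rw [Subgroup.mem_comap, h10]
    have e0 : F (y0 * f g * y0⁻¹ * (f g)⁻¹) = y * x * y⁻¹ * x⁻¹ := by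
      rw [map_mul, map_mul, map_mul, map_inv, map_inv]
    have e1 : ((y * x * y⁻¹ * x⁻¹ : Sˣ) : S) - 1 = (((y : S) - 1) * x - (x : S) * ((y : S) - 1)) * ((y⁻¹ * x⁻¹ : Sˣ) : S) := by
      have e2 : (x : S) * (y : S) * ((y⁻¹ * x⁻¹ : Sˣ) : S) = 1 := by
        rw [← Units.val_mul, ← Units.val_mul]
        simp
      have e3 : ((y : S) - 1) * x - (x : S) * ((y : S) - 1) = (y : S) * x - (x : S) * y := by noncomm_ring
      rw [e3, sub_mul, e2]
      simp only [Units.val_mul, mul_assoc]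
    rw [e0, e1]
    exact j1.right _ _ (j3 _ hyI)

end Pool.NR
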